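import Pool.Agent.Work.MP_b0c12c_nt_shift.IB
import Pool.Agent.Work.MP_b0c12c_nt_shift.WS
import Pool.Agent.Work.MP_b0c12c_nt_shift.WSAP

/-!
Block INU, second part: the survivors of the small primes for arbitrary classes.
-/

set_option autoImplicit false

namespace Pool.Agent.Work.MP_b0c12c_nt_univ

namespace INUaux

open Finset Filter

section Brun

open Pool.Agent.Work.MP_18694c_nt

/-- Brun's pure sieve, counting form, sharp product. -/
theorem brun_count2 (S : Finset ℕ) (hS : ∀ p ∈ S, p.Prime) (E : ℕ → ℕ → Prop)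
    [∀ p, DecidablePred (E p)] (hE : ∀ p ∈ S, Function.Periodic (E p) p)
    (b : ℕ → ℝ) (hb : ∀ p ∈ S, ((#{m ∈ range p | E p m} : ℕ) : ℝ) = b p)
    (L Y : ℝ) (hhalf : ∀ p ∈ S, b p / p ≤ 1 / 2) (hL : ∑ p ∈ S, b p / p ≤ L)
    (hY1 : 1 ≤ Y) (hY : ∑ p ∈ S, b p ≤ Y) (J : ℕ) (hJ : Odd J)
    (hJL : 4 * Real.exp (4 * L) ≤ 2 ^ J) (a X : ℕ) :
    (X : ℝ) * ((∏ p ∈ S, (1 - b p / p)) * (3 / 4)) - Y ^ J * Real.exp 1 ≤
      ((#{m ∈ Ico a (a + X) | ∀ p ∈ S, ¬ E p m} : ℕ) : ℝ) := by
  classical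
  have hb0 : ∀ p ∈ S, 0 ≤ b p := by
    intro p hp
    rw [← hb p hp]
    positivity
  have hx0 : ∀ p ∈ S, 0 ≤ b p / p := fun p hp => div_nonneg (hb0 p hp) (by positivity)
  -- the counting function
  set c : Finset ℕ → ℝ := fun T => ((#{m ∈ Ico a (a + X) | ∀ p ∈ T, E p m} : ℕ) : ℝ) with hc
  have hcount : ∀ T ∈ S.powerset,
      |c T - X * ∏ p ∈ T, (b p / p)| ≤ ∏ p ∈ T, b p := by
    intro T hT
    rw [mem_powerset] at hT
    have h1 := count_all T (fun p hp => hS p (hT hp)) E (fun p hp => hE p (hT hp))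
    have hpos : 0 < ∏ p ∈ T, p := Finset.prod_pos fun p hp => (hS p (hT hp)).pos
    have h2 := count_interval (∏ p ∈ T, p) hpos (fun m => ∀ p ∈ T, E p m)
      (periodic_all T E (fun p hp => hE p (hT hp))) a X
    rw [h1] at h2
    have h3 : ((∏ p ∈ T, #{m ∈ range p | E p m} : ℕ) : ℝ) = ∏ p ∈ T, b p := by
      rw [Nat.cast_prod]
      exact prod_congr rfl fun p hp => hb p (hT hp)
    rw [h3] at h2
    have h4 : (∏ p ∈ T, b p) * ((X : ℝ) / (∏ p ∈ T, p : ℕ)) = X * ∏ p ∈ T, (b p / p) := by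
      rw [prod_div_distrib, Nat.cast_prod]
      ring
    rw [h4] at h2
    exact h2
  -- Bonferroni
  have hbon := bonferroni (Ico a (a + X)) S E J hJ
  have hbon' : ∑ T ∈ S.powerset with #T ≤ J, (-1 : ℝ) ^ #T * c T
      ≤ ((#{m ∈ Ico a (a + X) | ∀ p ∈ S, ¬ E p m} : ℕ) : ℝ) := by
    have := (Int.cast_le (R := ℝ)).mpr hbon
    push_cast at this
    exact this
  -- lower bound of each term
  have hterm : ∀ T ∈ S.powerset.filter (fun T => #T ≤ J),
      X * ((-1 : ℝ) ^ #T * ∏ p ∈ T, (b p / p)) - ∏ p ∈ T, b p ≤ (-1 : ℝ) ^ #T * c T := by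
    intro T hT
    have h1 := hcount T (mem_filter.mp hT).1
    rw [abs_le] at h1
    rcases neg_one_pow_eq_or ℝ #T with h | h <;> rw [h] <;> nlinarith [h1.1, h1.2]
  have hsum := sum_le_sum hterm
  rw [sum_sub_distrib, ← mul_sum] at hsum
  -- main term
  have hmain : (∏ p ∈ S, (1 - b p / p)) * (3 / 4) ≤
      ∑ T ∈ S.powerset with #T ≤ J, (-1 : ℝ) ^ #T * ∏ p ∈ T, (b p / p) := by
    have e1 : ∏ p ∈ S, (1 - b p / p) = ∑ T ∈ S.powerset, (-1 : ℝ) ^ #T * ∏ p ∈ T, (b p / p) := by
      have := Finset.prod_one_add (f := fun p => -(b p / (p : ℝ))) S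
      simp only [← sub_eq_add_neg] at this
      rw [this]
      refine sum_congr rfl fun T _ => ?_
      rw [prod_neg]
    have e2 : Real.exp (-(2 * L)) ≤ ∏ p ∈ S, (1 - b p / p) := by
      calc Real.exp (-(2 * L)) ≤ Real.exp (∑ p ∈ S, -(2 * (b p / p))) := by
            apply Real.exp_le_exp.mpr
            rw [sum_neg_distrib, ← mul_sum]
            linarith
        _ = ∏ p ∈ S, Real.exp (-(2 * (b p / p))) := Real.exp_sum _ _
        _ ≤ ∏ p ∈ S, (1 - b p / p) := by
            apply Finset.prod_le_prod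
            · intro p _; positivity
            · intro p hp
              exact one_sub_ge_exp (hx0 p hp) (hhalf p hp)
    have e3 : ∑ T ∈ S.powerset, (-1 : ℝ) ^ #T * ∏ p ∈ T, (b p / p)
        = ∑ T ∈ S.powerset with #T ≤ J, (-1 : ℝ) ^ #T * ∏ p ∈ T, (b p / p)
        + ∑ T ∈ S.powerset with ¬ #T ≤ J, (-1 : ℝ) ^ #T * ∏ p ∈ T, (b p / p) :=
      (sum_filter_add_sum_filter_not _ _ _).symm
    have e4 : ∑ T ∈ S.powerset with ¬ #T ≤ J, (-1 : ℝ) ^ #T * ∏ p ∈ T, (b p / p)
        ≤ (2 ^ J)⁻¹ * Real.exp (2 * L) := by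
      calc ∑ T ∈ S.powerset with ¬ #T ≤ J, (-1 : ℝ) ^ #T * ∏ p ∈ T, (b p / p)
          ≤ ∑ T ∈ S.powerset with ¬ #T ≤ J, (2 ^ J)⁻¹ * ∏ p ∈ T, (2 * (b p / p)) := by
            apply sum_le_sum
            intro T hT
            rw [mem_filter, mem_powerset] at hT
            have hP : 0 ≤ ∏ p ∈ T, (b p / (p : ℝ)) :=
              prod_nonneg fun p hp => hx0 p (hT.1 hp)
            rw [prod_mul_distrib, prod_const, ← mul_assoc]
            apply mul_le_mul_of_nonneg_right _ hP
            have h1 : (1 : ℝ) ≤ (2 ^ J)⁻¹ * 2 ^ #T := by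
              rw [inv_mul_eq_div, one_le_div (by positivity)]
              exact pow_le_pow_right₀ (by norm_num) (by omega)
            refine le_trans ?_ h1
            rcases neg_one_pow_eq_or ℝ #T with h | h <;> rw [h]
            norm_num
        _ ≤ ∑ T ∈ S.powerset, (2 ^ J)⁻¹ * ∏ p ∈ T, (2 * (b p / p)) := by
            apply sum_le_sum_of_subset_of_nonneg (filter_subset _ _)
            intro T hT _
            rw [mem_powerset] at hT
            apply mul_nonneg (by positivity)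
            exact prod_nonneg fun p hp => mul_nonneg (by norm_num) (hx0 p (hT hp))
        _ = (2 ^ J)⁻¹ * ∏ p ∈ S, (1 + 2 * (b p / p)) := by
            rw [← mul_sum, Finset.prod_one_add]
        _ ≤ (2 ^ J)⁻¹ * Real.exp (2 * L) := by
            apply mul_le_mul_of_nonneg_left _ (by positivity)
            calc ∏ p ∈ S, (1 + 2 * (b p / p)) ≤ ∏ p ∈ S, Real.exp (2 * (b p / p)) := by
                  apply Finset.prod_le_prod
                  · intro p hp
                    have := hx0 p hp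
                    linarith
                  · intro p _
                    have := Real.add_one_le_exp (2 * (b p / p))
                    linarith
              _ = Real.exp (∑ p ∈ S, 2 * (b p / p)) := (Real.exp_sum _ _).symm
              _ ≤ Real.exp (2 * L) := by
                  apply Real.exp_le_exp.mpr
                  rw [← mul_sum]
                  linarith
    have e5 : (2 ^ J)⁻¹ * Real.exp (2 * L) ≤ Real.exp (-(2 * L)) / 4 := by
      rw [inv_mul_le_iff₀ (by positivity)]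
      have h1 : Real.exp (2 * L) = 4 * Real.exp (4 * L) * (Real.exp (-(2 * L)) / 4) := by
        have : Real.exp (4 * L) * Real.exp (-(2 * L)) = Real.exp (2 * L) := by
          rw [← Real.exp_add]; congr 1; ring
        rw [← this]; ring
      rw [h1]
      apply mul_le_mul_of_nonneg_right hJL (by positivity)
    have e6 : 0 < Real.exp (-(2 * L)) := Real.exp_pos _
    linarith
  -- error term
  have herr : ∑ T ∈ S.powerset with #T ≤ J, ∏ p ∈ T, b p ≤ Y ^ J * Real.exp 1 := by
    have hYpos : 0 < Y := by linarith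
    calc ∑ T ∈ S.powerset with #T ≤ J, ∏ p ∈ T, b p
        ≤ ∑ T ∈ S.powerset with #T ≤ J, Y ^ J * ∏ p ∈ T, (b p / Y) := by
          apply sum_le_sum
          intro T hT
          rw [mem_filter, mem_powerset] at hT
          rw [prod_div_distrib, prod_const, mul_div_assoc', le_div_iff₀ (by positivity), mul_comm]
          apply mul_le_mul_of_nonneg_right
          · exact pow_le_pow_right₀ hY1 hT.2
          · exact prod_nonneg fun p hp => hb0 p (hT.1 hp)
      _ ≤ ∑ T ∈ S.powerset, Y ^ J * ∏ p ∈ T, (b p / Y) := by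
          apply sum_le_sum_of_subset_of_nonneg (filter_subset _ _)
          intro T hT _
          rw [mem_powerset] at hT
          apply mul_nonneg (by positivity)
          exact prod_nonneg fun p hp => div_nonneg (hb0 p (hT hp)) hYpos.le
      _ = Y ^ J * ∏ p ∈ S, (1 + b p / Y) := by
          rw [← mul_sum, Finset.prod_one_add]
      _ ≤ Y ^ J * Real.exp 1 := by
          apply mul_le_mul_of_nonneg_left _ (by positivity)
          calc ∏ p ∈ S, (1 + b p / Y) ≤ ∏ p ∈ S, Real.exp (b p / Y) := by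
                apply Finset.prod_le_prod
                · intro p hp
                  have := div_nonneg (hb0 p hp) hYpos.le
                  linarith
                · intro p _
                  have := Real.add_one_le_exp (b p / Y)
                  linarith
            _ = Real.exp (∑ p ∈ S, b p / Y) := (Real.exp_sum _ _).symm
            _ ≤ Real.exp 1 := by
                apply Real.exp_le_exp.mpr
                rw [← sum_div, div_le_one hYpos]
                exact hY
  have hX0 : (0 : ℝ) ≤ X := by positivity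
  have h1 : (X : ℝ) * ((∏ p ∈ S, (1 - b p / p)) * (3 / 4)) ≤
    X * ∑ T ∈ S.powerset with #T ≤ J, (-1 : ℝ) ^ #T * ∏ p ∈ T, (b p / p) :=
    mul_le_mul_of_nonneg_left hmain hX0
  linarith

end Brun

/-- primes up to `W` -/
def Pr (W : ℕ) : Finset ℕ := (Icc 1 W).filter Nat.Prime

/-- the Mertens product -/
noncomputable def QW (W : ℕ) : ℝ := ∏ p ∈ Pr W, (1 - 1 / (p : ℝ))

theorem sum_Pr : ∃ C : ℝ, 0 < C ∧ ∀ W : ℕ, 2 ≤ W →
    ∑ p ∈ Pr W, 1 / (p : ℝ) ≤ Real.log (Real.log W) + C := by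
  obtain ⟨C0, hC0, hmer⟩ := Pool.Agent.Work.MP_b0c12c_nt_helper41.mertens2
  have hlog2 : 0 < Real.log 2 := Real.log_pos (by norm_num)
  refine ⟨1 / 2 + |Real.log (Real.log 2)| + C0 / Real.log 2, by positivity, ?_⟩
  intro w hw
  have h1 := hmer 2 w le_rfl hw
  have h2 : Pr w = insert 2 ((Ioc 2 w).filter Nat.Prime) := by
    ext p
    simp only [Pr, mem_filter, mem_Icc, mem_insert, mem_Ioc]
    constructor
    · rintro ⟨h3, h4⟩
      have := h4.two_le
      by_cases h5 : p = 2
      · exact Or.inl h5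
      · exact Or.inr ⟨⟨by omega, by omega⟩, h4⟩
    · rintro (rfl | ⟨⟨h3, h4⟩, h5⟩)
      · exact ⟨by omega, Nat.prime_two⟩
      · exact ⟨by omega, h5⟩
  rw [h2, sum_insert (by simp)]
  rw [abs_le] at h1
  have h3 := neg_abs_le (Real.log (Real.log 2))
  have h4 : ((2 : ℕ) : ℝ) = 2 := by norm_num
  rw [h4] at h1 ⊢
  linarith [h1.2]

theorem QW_ge {C : ℝ} (hC : ∀ W : ℕ, 2 ≤ W →
    ∑ p ∈ Pr W, 1 / (p : ℝ) ≤ Real.log (Real.log W) + C) (W : ℕ) (hW : 2 ≤ W) :
    Real.exp (-(2 * (Real.log (Real.log W) + C))) ≤ QW W := by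
  calc Real.exp (-(2 * (Real.log (Real.log W) + C))) ≤ Real.exp (∑ p ∈ Pr W, -(2 * (1 / (p : ℝ)))) := by
        apply Real.exp_le_exp.mpr
        rw [sum_neg_distrib, ← mul_sum]
        linarith [hC W hW]
    _ = ∏ p ∈ Pr W, Real.exp (-(2 * (1 / (p : ℝ)))) := Real.exp_sum _ _
    _ ≤ QW W := by
        apply Finset.prod_le_prod
        · intro p _; positivity
        · intro p hp
          have hp2 : (2 : ℝ) ≤ p := by exact_mod_cast (mem_filter.1 hp).2.two_le
          apply Pool.Agent.Work.MP_18694c_nt.one_sub_ge_exp (by positivity)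
          rw [div_le_div_iff₀ (by linarith) (by norm_num)]
          linarith

theorem QW_pos (W : ℕ) : 0 < QW W := by
  unfold QW
  apply Finset.prod_pos
  intro p hp
  have hp2 : (2 : ℝ) ≤ p := by exact_mod_cast (mem_filter.1 hp).2.two_le
  have : 1 / (p : ℝ) < 1 := by
    rw [div_lt_one (by linarith)]
    linarith
  linarith

/-- lower bound for the number of survivors -/
theorem surv_low : ∃ x0 : ℕ, ∀ x : ℕ, x0 ≤ x → ∀ W : ℕ, 2 ≤ W →
    (W : ℝ) ≤ Real.exp (Real.sqrt (Real.log x)) → ∀ c : ℕ → ℕ,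
    (x : ℝ) * QW W / 2 ≤
      (((Ioc x (2 * x)).filter fun n => ∀ p ∈ Pr W, ¬ n ≡ c p [MOD p]).card : ℝ) := by
  obtain ⟨C1, hC1, hsum⟩ := sum_Pr
  have hll : Tendsto (fun x : ℕ => Real.log (Real.log (x : ℝ))) atTop atTop :=
    Real.tendsto_log_atTop.comp (Real.tendsto_log_atTop.comp tendsto_natCast_atTop_atTop)
  obtain ⟨x0, hx0⟩ := eventually_atTop.mp
    ((hll.eventually_ge_atTop (100 + 4 * C1)).and (eventually_ge_atTop 3))
  refine ⟨x0, ?_⟩
  intro x hx W hW2 hW c
  obtain ⟨h1, h4⟩ := hx0 x hx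
  set l : ℝ := Real.log (x : ℝ) with hl
  set ll : ℝ := Real.log l with hlldef
  have hxpos : (0 : ℝ) < x := by exact_mod_cast (by omega : 0 < x)
  have hl1 : 1 < l := by
    by_contra hcon
    have h5 : 0 < l := by
      rw [hl]
      exact Real.log_pos (by exact_mod_cast (by omega : 1 < x))
    have : ll ≤ 0 := Real.log_nonpos h5.le (not_lt.mp hcon)
    linarith
  have hl0 : 0 < l := by linarith
  have hexpll : Real.exp ll = l := Real.exp_log hl0
  -- the square root
  set r : ℝ := Real.sqrt l with hr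
  have hr2 : r * r = l := Real.mul_self_sqrt hl0.le
  have hre : r = Real.exp (ll / 2) := by
    rw [hr, Real.sqrt_eq_iff_mul_self_eq hl0.le (Real.exp_pos _).le, ← Real.exp_add, ← hexpll]
    congr 1; ring
  have hr0 : 0 < r := by rw [hre]; exact Real.exp_pos _
  have hrq : 1 + ll / 2 + (ll / 2) ^ 2 / 2 ≤ r := by
    rw [hre]
    exact Real.quadratic_le_exp_of_nonneg (by linarith)
  have hr8 : 8 * ll + 2 ≤ r := by nlinarith
  have hrC : ll + 2 * C1 + 3 ≤ r := by nlinarith
  have hWpos : (0 : ℝ) < W := by exact_mod_cast (by omega : 0 < W)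
  have hW1 : (1 : ℝ) ≤ W := by exact_mod_cast (by omega : 1 ≤ W)
  have hlw : Real.log W ≤ r := by
    have := Real.log_le_log hWpos hW
    rwa [Real.log_exp] at this
  have hlw0 : 0 < Real.log W := Real.log_pos (by exact_mod_cast (by omega : 1 < W))
  set L : ℝ := Real.log (Real.log W) + C1 with hL
  have hLle : L ≤ ll / 2 + C1 := by
    have h6 : Real.log (Real.log W) ≤ Real.log r := Real.log_le_log hlw0 hlw
    rw [hre, Real.log_exp] at h6
    linarith
  set J : ℕ := 2 * ⌊4 * ll⌋₊ + 1 with hJ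
  have hJodd : Odd J := ⟨⌊4 * ll⌋₊, rfl⟩
  have hfl1 : (⌊4 * ll⌋₊ : ℝ) ≤ 4 * ll := Nat.floor_le (by linarith)
  have hfl2 : 4 * ll < (⌊4 * ll⌋₊ : ℝ) + 1 := Nat.lt_floor_add_one _
  have hJle : (J : ℝ) ≤ 8 * ll + 1 := by rw [hJ]; push_cast; linarith
  have hJge : 8 * ll - 1 ≤ (J : ℝ) := by rw [hJ]; push_cast; linarith
  have hJL : 4 * Real.exp (4 * L) ≤ 2 ^ J := by
    have h5 : (4 : ℝ) ≤ Real.exp 2 := by
      have := Real.quadratic_le_exp_of_nonneg (show (0 : ℝ) ≤ 2 by norm_num)
      linarith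
    have h6 : (2 : ℝ) ^ J = Real.exp (J * Real.log 2) := by
      rw [mul_comm, Real.exp_mul, Real.exp_log (by norm_num), Real.rpow_natCast]
    rw [h6]
    calc 4 * Real.exp (4 * L) ≤ Real.exp 2 * Real.exp (4 * L) := by gcongr
      _ = Real.exp (2 + 4 * L) := by rw [Real.exp_add]
      _ ≤ Real.exp (J * Real.log 2) := by
          apply Real.exp_le_exp.mpr
          have h7 := Real.log_two_gt_d9
          nlinarith
  have hSp : ∀ p ∈ Pr W, p.Prime := fun p hp => (mem_filter.mp hp).2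
  have hone : ∀ p : ℕ, p.Prime → (((range p).filter fun m => m ≡ c p [MOD p]).card : ℝ) = 1 := by
    intro p hp
    have h5 : (range p).filter (fun m => m ≡ c p [MOD p]) = {c p % p} := by
      ext m
      simp only [mem_filter, mem_range, mem_singleton]
      constructor
      · rintro ⟨h6, h7⟩
        rw [← Nat.mod_eq_of_lt h6]
        exact h7
      · rintro rfl
        exact ⟨Nat.mod_lt _ hp.pos, Nat.mod_modEq _ _⟩
    rw [h5]
    simp
  have hcount := brun_count2 (Pr W) hSp (fun p m => m ≡ c p [MOD p]) (fun p _ m => by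
      simp only [eq_iff_iff]
      unfold Nat.ModEq
      rw [Nat.add_mod_right]) (fun _ => 1) (fun p hp => hone p (hSp p hp)) L W
      (fun p hp => by
        have : (2 : ℝ) ≤ p := by exact_mod_cast (hSp p hp).two_le
        rw [div_le_div_iff₀ (by linarith) (by norm_num)]
        linarith)
      (hsum W hW2) hW1 (by
        rw [sum_const, nsmul_eq_mul, mul_one]
        have h5 : (Pr W).card ≤ W := by
          have := card_filter_le (Icc 1 W) Nat.Prime
          rw [Nat.card_Icc] at this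
          unfold Pr
          omega
        exact_mod_cast h5) J hJodd hJL (x + 1) x
  have hIco : Ico (x + 1) (x + 1 + x) = Ioc x (2 * x) := by
    ext m
    simp only [mem_Ico, mem_Ioc]
    omega
  rw [hIco] at hcount
  refine le_trans ?_ hcount
  have hQdef : ∏ p ∈ Pr W, (1 - 1 / (p : ℝ)) = QW W := rfl
  rw [hQdef]
  -- the error
  have hQ : Real.exp (-(ll + 2 * C1)) ≤ QW W := by
    refine le_trans ?_ (QW_ge hsum W hW2)
    apply Real.exp_le_exp.2
    linarith
  have herr : (W : ℝ) ^ J * Real.exp 1 ≤ x * QW W / 4 := by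
    have h5 : (W : ℝ) ^ J ≤ Real.exp (r * (8 * ll + 1)) := by
      calc (W : ℝ) ^ J ≤ (Real.exp r) ^ J := pow_le_pow_left₀ hWpos.le hW J
        _ = Real.exp (J * r) := (Real.exp_nat_mul _ _).symm
        _ ≤ Real.exp (r * (8 * ll + 1)) := by
            apply Real.exp_le_exp.mpr
            rw [mul_comm]
            gcongr
    have h6 : (x : ℝ) = Real.exp l := (Real.exp_log hxpos).symm
    have h7 : (4 : ℝ) ≤ Real.exp 2 := by
      have := Real.quadratic_le_exp_of_nonneg (show (0 : ℝ) ≤ 2 by norm_num)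
      linarith
    have h8 : r * (8 * ll + 1) + 1 + 2 ≤ l - (ll + 2 * C1) := by nlinarith
    calc (W : ℝ) ^ J * Real.exp 1 = (W : ℝ) ^ J * Real.exp 1 * 4 / 4 := by ring
      _ ≤ Real.exp (r * (8 * ll + 1)) * Real.exp 1 * Real.exp 2 / 4 := by gcongr
      _ = Real.exp (r * (8 * ll + 1) + 1 + 2) / 4 := by rw [Real.exp_add, Real.exp_add]
      _ ≤ Real.exp (l - (ll + 2 * C1)) / 4 := by gcongr
      _ = Real.exp l * Real.exp (-(ll + 2 * C1)) / 4 := by rw [← Real.exp_add]; ring_nf
      _ ≤ x * QW W / 4 := by rw [← h6]; gcongr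
  linarith

/-- upper bound for the number of survivors in a class -/
theorem surv_up : ∃ C : ℝ, 0 < C ∧ ∃ D : ℕ, 2 ≤ D ∧ ∀ q W x : ℕ, q.Prime → W < q → 3 ≤ W →
    W ^ D * q ≤ x → ∀ (c : ℕ → ℕ) (a : ℕ) (S : Finset ℕ),
    (∀ n ∈ S, n ∈ Ioc x (2 * x) ∧ n ≡ a [MOD q] ∧ ∀ p ∈ Pr W, ¬ n ≡ c p [MOD p]) →
    (S.card : ℝ) ≤ C * (x / q) * QW W := by
  classical
  obtain ⟨C, hC, D, hD2, h⟩ := Pool.Agent.Work.MP_b0c12c_nt_shift.ws_ap
    Pool.Agent.Work.MP_b0c12c_nt_shift.stmt_WS 1 one_pos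
  refine ⟨2 * C, by positivity, D, hD2, ?_⟩
  intro q W x hq hqW hW3 hx c a S hS
  set P : Finset ℕ := (Ioc 2 W).filter Nat.Prime with hP
  have hmemP : ∀ p ∈ P, p.Prime ∧ 2 < p ∧ p ≤ W := by
    intro p hp
    rw [hP, mem_filter, mem_Ioc] at hp
    exact ⟨hp.2, hp.1.1, hp.1.2⟩
  set G : ℕ → ℕ → ℝ := fun p n => if n ≡ c p [MOD p] then 0 else 1 with hG
  have h2 := h q a x W P G hq.pos hW3
    (fun p hp => by
      obtain ⟨h3, h4, h5⟩ := hmemP p hp
      exact ⟨h3, by omega, h5, (Nat.coprime_primes h3 hq).2 (by omega)⟩) hx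
    (fun p _ n => by simp only [hG]; split_ifs <;> norm_num)
    (fun p _ n m hnm => by
      simp only [hG]
      have : n ≡ c p [MOD p] ↔ m ≡ c p [MOD p] := ⟨fun h1 => hnm.symm.trans h1, fun h1 => hnm.trans h1⟩
      simp only [this])
    (fun p hp => by
      have h5 : (range p).filter (fun m => G p m ≠ 1) ⊆ {c p % p} := by
        intro m hm
        rw [mem_filter, mem_range] at hm
        rw [mem_singleton, ← Nat.mod_eq_of_lt hm.1]
        by_contra h6
        apply hm.2
        simp only [hG]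
        rw [if_neg]
        exact h6
      have := card_le_card h5
      simpa using this) S (fun n hn => ⟨(hS n hn).1, (hS n hn).2.1⟩)
  have h3 : ∀ n ∈ S, ∏ p ∈ P, G p n = 1 := by
    intro n hn
    apply prod_eq_one
    intro p hp
    simp only [hG]
    rw [if_neg]
    obtain ⟨h4, h5, h6⟩ := hmemP p hp
    exact (hS n hn).2.2 p (mem_filter.2 ⟨mem_Icc.2 ⟨by omega, h6⟩, h4⟩)
  rw [sum_congr rfl h3, sum_const, nsmul_eq_mul, mul_one] at h2
  have h4 : ∏ p ∈ P, ((∑ c ∈ range p, G p c) / (p : ℝ)) = 2 * QW W := by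
    have h5 : Pr W = insert 2 P := by
      ext p
      simp only [Pr, hP, mem_filter, mem_Icc, mem_insert, mem_Ioc]
      constructor
      · rintro ⟨h3, h4⟩
        have := h4.two_le
        by_cases h5 : p = 2
        · exact Or.inl h5
        · exact Or.inr ⟨⟨by omega, by omega⟩, h4⟩
      · rintro (rfl | ⟨⟨h3, h4⟩, h5⟩)
        · exact ⟨by omega, Nat.prime_two⟩
        · exact ⟨by omega, h5⟩
    unfold QW
    rw [h5, prod_insert (by simp [hP])]
    have h6 : 2 * ((1 - 1 / ((2 : ℕ) : ℝ)) * ∏ p ∈ P, (1 - 1 / (p : ℝ))) =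
        ∏ p ∈ P, (1 - 1 / (p : ℝ)) := by push_cast; ring
    rw [h6]
    apply prod_congr rfl
    intro p hp
    obtain ⟨h7, h8, h9⟩ := hmemP p hp
    have hp0 : (p : ℝ) ≠ 0 := by exact_mod_cast h7.ne_zero
    have h10 : ∑ m ∈ range p, G p m = p - 1 := by
      have h11 : ∀ m ∈ range p, G p m = 1 - if m = c p % p then 1 else 0 := by
        intro m hm
        simp only [hG]
        have h12 : m ≡ c p [MOD p] ↔ m = c p % p := by
          unfold Nat.ModEq
          rw [Nat.mod_eq_of_lt (mem_range.1 hm)]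
        simp only [h12]
        split_ifs <;> ring
      rw [sum_congr rfl h11, sum_sub_distrib, sum_const, card_range, nsmul_eq_mul, mul_one,
        sum_ite_eq', if_pos (mem_range.2 (Nat.mod_lt _ h7.pos))]
    rw [h10]
    field_simp
  rw [h4] at h2
  calc (S.card : ℝ) ≤ C * (x / q) * (2 * QW W) := h2
    _ = 2 * C * (x / q) * QW W := by ring

end INUaux

end Pool.Agent.Work.MP_b0c12c_nt_univ
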