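import Pool.Agent.Work.MP_b0c12c_nt_univ.Defs

/-!
# Calculus of the finite averages `EA` over a general alphabet
-/

set_option autoImplicit false

namespace Pool.Agent.Work.MP_b0c12c_nt_univ

open Finset

variable {α : Type} {V : ℕ → Finset α} {π : ℕ → α → ℝ}

/-! ## Lists -/

theorem E1_comm (p q : ℕ) (f : (ℕ → α) → ℝ) : E1 V π p (E1 V π q f) = E1 V π q (E1 V π p f) := by
  by_cases hpq : p = q
  · rw [hpq]
  funext v
  unfold E1
  simp only [mul_sum]
  rw [sum_comm]
  apply sum_congr rfl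
  intro s _
  apply sum_congr rfl
  intro t _
  rw [Function.update_comm hpq]
  ring

theorem EL_perm {l l' : List ℕ} (h : l.Perm l') (f : (ℕ → α) → ℝ) : EL V π l f = EL V π l' f := by
  induction h with
  | nil => rfl
  | cons p _ ih => simp only [EL, ih]
  | swap p q l => simp only [EL]; rw [E1_comm]
  | trans _ _ ih1 ih2 => rw [ih1, ih2]

theorem EL_append (l l' : List ℕ) (f : (ℕ → α) → ℝ) : EL V π (l ++ l') f = EL V π l (EL V π l' f) := by
  induction l with
  | nil => rfl
  | cons p l ih => simp only [List.cons_append, EL, ih]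

theorem EL_congr_on {s : Set ℕ} {f : (ℕ → α) → ℝ} (hf : DependsOn f s) (l : List ℕ) :
    ∀ v v' : ℕ → α, (∀ i ∈ s, i ∉ l → v i = v' i) → EL V π l f v = EL V π l f v' := by
  induction l with
  | nil => intro v v' h; exact hf fun i hi => h i hi (by simp)
  | cons p l ih =>
    intro v v' h
    simp only [EL, E1]
    apply sum_congr rfl
    intro a _
    rw [ih (Function.update v p a) (Function.update v' p a)]
    intro i hi hil
    by_cases hip : i = p
    · subst hip; simp
    · rw [Function.update_of_ne hip, Function.update_of_ne hip]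
      exact h i hi (by simp [hip, hil])

theorem E1_mono (hπ : ∀ p, ∀ a ∈ V p, 0 ≤ π p a) (p : ℕ) {f g : (ℕ → α) → ℝ} (h : ∀ v, f v ≤ g v)
    (v : ℕ → α) : E1 V π p f v ≤ E1 V π p g v :=
  sum_le_sum fun s hs => mul_le_mul_of_nonneg_left (h _) (hπ p s hs)

theorem E1_const (hs : ∀ p, ∑ a ∈ V p, π p a = 1) (p : ℕ) (c : ℝ) :
    E1 V π p (fun _ => c) = fun _ => c := by
  funext v
  unfold E1
  rw [← sum_mul, hs, one_mul]

/-! ## `EA` -/

theorem EA_empty (f : (ℕ → α) → ℝ) : EA V π ∅ f = f := by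
  simp [EA, EL]

theorem EA_insert {p : ℕ} {A : Finset ℕ} (hp : p ∉ A) (f : (ℕ → α) → ℝ) :
    EA V π (insert p A) f = E1 V π p (EA V π A f) := by
  unfold EA
  rw [EL_perm (Finset.toList_insert hp)]
  rfl

theorem EA_singleton (p : ℕ) (f : (ℕ → α) → ℝ) : EA V π {p} f = E1 V π p f := by
  have h := EA_insert (V := V) (π := π) (notMem_empty p) f
  rw [EA_empty] at h
  simpa using h

theorem EA_union {A B : Finset ℕ} (h : Disjoint A B) (f : (ℕ → α) → ℝ) :
    EA V π (A ∪ B) f = EA V π A (EA V π B f) := by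
  induction A using Finset.induction_on with
  | empty => rw [empty_union, EA_empty]
  | insert p A hp ih =>
    rw [disjoint_insert_left] at h
    rw [insert_union, EA_insert, EA_insert hp, ih h.2]
    rw [mem_union]
    rintro (h1 | h1)
    · exact hp h1
    · exact h.1 h1

theorem EA_insert' {p : ℕ} {A : Finset ℕ} (hp : p ∉ A) (f : (ℕ → α) → ℝ) :
    EA V π (insert p A) f = EA V π A (E1 V π p f) := by
  rw [insert_eq, union_comm, EA_union (disjoint_singleton_right.2 hp), EA_singleton]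

theorem EA_sdiff {A B : Finset ℕ} (h : B ⊆ A) (f : (ℕ → α) → ℝ) :
    EA V π A f = EA V π (A \ B) (EA V π B f) := by
  rw [← EA_union sdiff_disjoint, sdiff_union_of_subset h]

theorem EA_sdiff' {A B : Finset ℕ} (h : B ⊆ A) (f : (ℕ → α) → ℝ) :
    EA V π A f = EA V π B (EA V π (A \ B) f) := by
  rw [← EA_union disjoint_sdiff, union_sdiff_of_subset h]

/-- induction principle for identities and inequalities about `EA` -/
theorem EA_comm (A B : Finset ℕ) (f : (ℕ → α) → ℝ) : EA V π A (EA V π B f) = EA V π B (EA V π A f) := by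
  unfold EA
  rw [← EL_append, ← EL_append]
  exact EL_perm List.perm_append_comm f

/-! ### Linearity -/

theorem E1_add (p : ℕ) (f g : (ℕ → α) → ℝ) : E1 V π p (f + g) = E1 V π p f + E1 V π p g := by
  funext v
  simp only [E1, Pi.add_apply, mul_add, sum_add_distrib]

theorem E1_sub (p : ℕ) (f g : (ℕ → α) → ℝ) : E1 V π p (f - g) = E1 V π p f - E1 V π p g := by
  funext v
  simp only [E1, Pi.sub_apply, mul_sub, sum_sub_distrib]

theorem E1_const_mul (p : ℕ) (c : ℝ) (f : (ℕ → α) → ℝ) :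
    E1 V π p (fun v => c * f v) = fun v => c * E1 V π p f v := by
  funext v
  simp only [E1, mul_sum]
  apply sum_congr rfl
  intro s _
  ring

theorem EA_add (A : Finset ℕ) (f g : (ℕ → α) → ℝ) : EA V π A (f + g) = EA V π A f + EA V π A g := by
  induction A using Finset.induction_on with
  | empty => simp only [EA_empty]
  | insert p A hp ih => rw [EA_insert hp, EA_insert hp, EA_insert hp, ih, E1_add]

theorem EA_sub (A : Finset ℕ) (f g : (ℕ → α) → ℝ) : EA V π A (f - g) = EA V π A f - EA V π A g := by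
  induction A using Finset.induction_on with
  | empty => simp only [EA_empty]
  | insert p A hp ih => rw [EA_insert hp, EA_insert hp, EA_insert hp, ih, E1_sub]

theorem EA_const_mul (A : Finset ℕ) (c : ℝ) (f : (ℕ → α) → ℝ) :
    EA V π A (fun v => c * f v) = fun v => c * EA V π A f v := by
  induction A using Finset.induction_on with
  | empty => simp only [EA_empty]
  | insert p A hp ih => rw [EA_insert hp, EA_insert hp, ih, E1_const_mul]

theorem EA_zero (A : Finset ℕ) : EA V π A (fun _ => (0 : ℝ)) = fun _ => 0 := by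
  have h := EA_const_mul (V := V) (π := π) A 0 (fun _ => (0 : ℝ))
  simpa using h

theorem EA_sum {ι : Type*} (A : Finset ℕ) (J : Finset ι) (f : ι → (ℕ → α) → ℝ) :
    EA V π A (fun v => ∑ j ∈ J, f j v) = fun v => ∑ j ∈ J, EA V π A (f j) v := by
  classical
  induction J using Finset.induction_on with
  | empty => simpa using EA_zero A
  | insert i J hi ih =>
    have h1 : (fun v => ∑ j ∈ insert i J, f j v) = f i + fun v => ∑ j ∈ J, f j v := by
      funext v
      simp [sum_insert hi]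
    rw [h1, EA_add, ih]
    funext v
    simp [sum_insert hi]

theorem EA_const (hs : ∀ p, ∑ a ∈ V p, π p a = 1) (A : Finset ℕ) (c : ℝ) :
    EA V π A (fun _ => c) = fun _ => c := by
  induction A using Finset.induction_on with
  | empty => rw [EA_empty]
  | insert p A hp ih => rw [EA_insert hp, ih, E1_const hs]

/-! ### Monotonicity -/

theorem EA_mono (hπ : ∀ p, ∀ a ∈ V p, 0 ≤ π p a) (A : Finset ℕ) {f g : (ℕ → α) → ℝ} (h : ∀ v, f v ≤ g v)
    (v : ℕ → α) : EA V π A f v ≤ EA V π A g v := by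
  induction A using Finset.induction_on generalizing v with
  | empty => simp only [EA_empty]; exact h v
  | insert p A hp ih =>
    rw [EA_insert hp, EA_insert hp]
    exact E1_mono hπ p ih v

/-- Only the configurations `w` which agree with `v` off `A` and have values in `sgn` on `A`
matter. -/
theorem EA_mono_on (hπ : ∀ p, ∀ a ∈ V p, 0 ≤ π p a) (A : Finset ℕ) {f g : (ℕ → α) → ℝ} (v : ℕ → α)
    (h : ∀ w : ℕ → α, (∀ p ∉ A, w p = v p) → (∀ p ∈ A, w p ∈ V p) → f w ≤ g w) :
    EA V π A f v ≤ EA V π A g v := by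
  induction A using Finset.induction_on generalizing v with
  | empty =>
    simp only [EA_empty]
    exact h v (fun _ _ => rfl) (fun p hp => absurd hp (notMem_empty p))
  | insert q A hq ih =>
    rw [EA_insert hq, EA_insert hq]
    apply sum_le_sum
    intro s hs
    apply mul_le_mul_of_nonneg_left _ (hπ q s hs)
    apply ih
    intro w hw1 hw2
    apply h w
    · intro p hp
      rw [mem_insert, not_or] at hp
      rw [hw1 p hp.2, Function.update_of_ne hp.1]
    · intro p hp
      rw [mem_insert] at hp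
      rcases hp with hp | hp
      · subst hp
        rw [hw1 p hq, Function.update_self]
        exact hs
      · exact hw2 p hp

theorem EA_congr_on (hπ : ∀ p, ∀ a ∈ V p, 0 ≤ π p a) (A : Finset ℕ) {f g : (ℕ → α) → ℝ} (v : ℕ → α)
    (h : ∀ w : ℕ → α, (∀ p ∉ A, w p = v p) → (∀ p ∈ A, w p ∈ V p) → f w = g w) :
    EA V π A f v = EA V π A g v :=
  le_antisymm (EA_mono_on hπ A v fun w h1 h2 => (h w h1 h2).le)
    (EA_mono_on hπ A v fun w h1 h2 => (h w h1 h2).ge)

theorem EA_nonneg (hπ : ∀ p, ∀ a ∈ V p, 0 ≤ π p a) (A : Finset ℕ) {f : (ℕ → α) → ℝ} (h : ∀ v, 0 ≤ f v)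
    (v : ℕ → α) : 0 ≤ EA V π A f v := by
  have h1 := EA_mono (V := V) (π := π) hπ A (f := fun _ => 0) (g := f) h v
  rwa [EA_zero] at h1

theorem EA_le_const (hπ : ∀ p, ∀ a ∈ V p, 0 ≤ π p a) (hs : ∀ p, ∑ a ∈ V p, π p a = 1)
    (A : Finset ℕ) {f : (ℕ → α) → ℝ} {c : ℝ} (h : ∀ v, f v ≤ c) (v : ℕ → α) :
    EA V π A f v ≤ c := by
  have h1 := EA_mono (V := V) (π := π) hπ A (f := f) (g := fun _ => c) h v
  rwa [EA_const hs] at h1

theorem EA_le_one (hπ : ∀ p, ∀ a ∈ V p, 0 ≤ π p a) (hs : ∀ p, ∑ a ∈ V p, π p a = 1)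
    (A : Finset ℕ) {f : (ℕ → α) → ℝ} (h : ∀ v, f v ≤ 1) (v : ℕ → α) : EA V π A f v ≤ 1 :=
  EA_le_const hπ hs A h v

theorem const_le_EA (hπ : ∀ p, ∀ a ∈ V p, 0 ≤ π p a) (hs : ∀ p, ∑ a ∈ V p, π p a = 1)
    (A : Finset ℕ) {f : (ℕ → α) → ℝ} {c : ℝ} (h : ∀ v, c ≤ f v) (v : ℕ → α) :
    c ≤ EA V π A f v := by
  have h1 := EA_mono (V := V) (π := π) hπ A (f := fun _ => c) (g := f) h v
  rwa [EA_const hs] at h1

/-! ### Dependence -/

theorem EA_dependsOn {f : (ℕ → α) → ℝ} {s : Set ℕ} (hf : DependsOn f s) (A : Finset ℕ) :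
    DependsOn (EA V π A f) (s \ (A : Set ℕ)) := by
  intro v v' h
  apply EL_congr_on hf
  intro i hi hiA
  apply h i
  rw [Finset.mem_toList] at hiA
  exact ⟨hi, hiA⟩

theorem EA_congr_off (A : Finset ℕ) (f : (ℕ → α) → ℝ) {v v' : ℕ → α} (h : ∀ p ∉ A, v p = v' p) :
    EA V π A f v = EA V π A f v' := by
  apply EA_dependsOn (dependsOn_univ f) A
  intro i hi
  exact h i hi.2

theorem E1_of_dependsOn (hs : ∀ p, ∑ a ∈ V p, π p a = 1) {f : (ℕ → α) → ℝ} {s : Set ℕ}
    (hf : DependsOn f s) {p : ℕ} (hp : p ∉ s) : E1 V π p f = f := by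
  funext v
  unfold E1
  have h1 : ∀ a ∈ V p, π p a * f (Function.update v p a) = π p a * f v := by
    intro a _
    congr 1
    apply hf
    intro i hi
    rw [Function.update_of_ne]
    rintro rfl
    exact hp hi
  rw [sum_congr rfl h1, ← sum_mul, hs, one_mul]

theorem EA_of_dependsOn (hs : ∀ p, ∑ a ∈ V p, π p a = 1) {f : (ℕ → α) → ℝ} {s : Set ℕ}
    (hf : DependsOn f s) {A : Finset ℕ} (h : Disjoint s (A : Set ℕ)) : EA V π A f = f := by
  induction A using Finset.induction_on with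
  | empty => rw [EA_empty]
  | insert p A hp ih =>
    rw [Finset.coe_insert, Set.disjoint_insert_right] at h
    rw [EA_insert hp, ih h.2, E1_of_dependsOn hs hf h.1]

theorem EA_restrict (hs : ∀ p, ∑ a ∈ V p, π p a = 1) {f : (ℕ → α) → ℝ} {s : Set ℕ}
    (hf : DependsOn f s) {A A' : Finset ℕ} (h1 : A' ⊆ A) (h2 : ∀ p ∈ A, p ∈ s → p ∈ A') :
    EA V π A f = EA V π A' f := by
  rw [EA_sdiff' h1, EA_of_dependsOn hs hf]
  rw [Set.disjoint_left]
  intro p hps hpA
  rw [Finset.mem_coe, mem_sdiff] at hpA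
  exact hpA.2 (h2 p hpA.1 hps)

theorem DependsOn_mul {f g : (ℕ → α) → ℝ} {s t : Set ℕ} (hf : DependsOn f s)
    (hg : DependsOn g t) : DependsOn (fun v => f v * g v) (s ∪ t) := by
  intro v v' h
  have h1 : f v = f v' := hf fun i hi => h i (Or.inl hi)
  have h2 : g v = g v' := hg fun i hi => h i (Or.inr hi)
  simp only [h1, h2]

theorem DependsOn_prod {ι : Type*} (J : Finset ι) {f : ι → (ℕ → α) → ℝ} {s : ι → Set ℕ}
    (hf : ∀ j ∈ J, DependsOn (f j) (s j)) :
    DependsOn (fun v => ∏ j ∈ J, f j v) (⋃ j ∈ J, s j) := by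
  intro v v' h
  apply prod_congr rfl
  intro j hj
  apply hf j hj
  intro i hi
  apply h i
  simp only [Set.mem_iUnion]
  exact ⟨j, hj, hi⟩

theorem DependsOn_sum {ι : Type*} (J : Finset ι) {f : ι → (ℕ → α) → ℝ} {s : ι → Set ℕ}
    (hf : ∀ j ∈ J, DependsOn (f j) (s j)) :
    DependsOn (fun v => ∑ j ∈ J, f j v) (⋃ j ∈ J, s j) := by
  intro v v' h
  apply sum_congr rfl
  intro j hj
  apply hf j hj
  intro i hi
  apply h i
  simp only [Set.mem_iUnion]
  exact ⟨j, hj, hi⟩

theorem E1_mul_left {g : (ℕ → α) → ℝ} {s : Set ℕ} (hg : DependsOn g s) {p : ℕ} (hp : p ∉ s)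
    (f : (ℕ → α) → ℝ) : E1 V π p (fun v => g v * f v) = fun v => g v * E1 V π p f v := by
  funext v
  unfold E1
  rw [mul_sum]
  apply sum_congr rfl
  intro a _
  have h1 : g (Function.update v p a) = g v := by
    apply hg
    intro i hi
    rw [Function.update_of_ne]
    rintro rfl
    exact hp hi
  simp only [h1]
  ring

theorem EA_mul_left {g : (ℕ → α) → ℝ} {s : Set ℕ} (hg : DependsOn g s) {A : Finset ℕ}
    (h : Disjoint s (A : Set ℕ)) (f : (ℕ → α) → ℝ) :
    EA V π A (fun v => g v * f v) = fun v => g v * EA V π A f v := by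
  induction A using Finset.induction_on with
  | empty => simp only [EA_empty]
  | insert p A hp ih =>
    rw [Finset.coe_insert, Set.disjoint_insert_right] at h
    rw [EA_insert hp, EA_insert hp, ih h.2, E1_mul_left hg h.1]

theorem EA_mul_right {g : (ℕ → α) → ℝ} {s : Set ℕ} (hg : DependsOn g s) {A : Finset ℕ}
    (h : Disjoint s (A : Set ℕ)) (f : (ℕ → α) → ℝ) :
    EA V π A (fun v => f v * g v) = fun v => EA V π A f v * g v := by
  have h1 := EA_mul_left (V := V) (π := π) hg h f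
  have h2 : (fun v => f v * g v) = fun v => g v * f v := by funext v; ring
  rw [h2, h1]
  funext v
  ring

/-- independence -/
theorem EA_mul_indep (hs : ∀ p, ∑ a ∈ V p, π p a = 1) {f g : (ℕ → α) → ℝ}
    {s t : Set ℕ} (hf : DependsOn f s) (hg : DependsOn g t) {A : Finset ℕ}
    (h : ∀ p ∈ A, p ∈ s → p ∉ t) :
    EA V π A (fun v => f v * g v) = fun v => EA V π A f v * EA V π A g v := by
  classical
  set A1 := A.filter (· ∈ s) with hA1
  have hsub : A1 ⊆ A := filter_subset _ _
  have hf1 : EA V π A f = EA V π A1 f :=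
    EA_restrict hs hf hsub fun p hp hps => mem_filter.2 ⟨hp, hps⟩
  have hg1 : EA V π A g = EA V π (A \ A1) g := by
    apply EA_restrict hs hg sdiff_subset
    intro p hp hpt
    rw [mem_sdiff]
    refine ⟨hp, fun hc => ?_⟩
    exact h p hp (mem_filter.1 hc).2 hpt
  have hd1 : Disjoint s ((A \ A1 : Finset ℕ) : Set ℕ) := by
    rw [Set.disjoint_left]
    intro p hps hpA
    rw [Finset.mem_coe, mem_sdiff] at hpA
    exact hpA.2 (mem_filter.2 ⟨hpA.1, hps⟩)
  have hd2 : Disjoint (t \ ((A \ A1 : Finset ℕ) : Set ℕ)) (A1 : Set ℕ) := by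
    rw [Set.disjoint_left]
    rintro p ⟨hpt, _⟩ hpA
    rw [Finset.mem_coe, mem_filter] at hpA
    exact h p hpA.1 hpA.2 hpt
  rw [EA_sdiff' hsub (fun v => f v * g v), EA_mul_left hf hd1,
    EA_mul_right (EA_dependsOn hg (A \ A1)) hd2, ← hf1, ← hg1]

theorem EA_prod_indep (hs : ∀ p, ∑ a ∈ V p, π p a = 1) {ι : Type*} (J : Finset ι)
    {f : ι → (ℕ → α) → ℝ} {s : ι → Set ℕ} (hf : ∀ j ∈ J, DependsOn (f j) (s j)) {A : Finset ℕ}
    (h : ∀ i ∈ J, ∀ j ∈ J, i ≠ j → ∀ p ∈ A, p ∈ s i → p ∉ s j) :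
    EA V π A (fun v => ∏ j ∈ J, f j v) = fun v => ∏ j ∈ J, EA V π A (f j) v := by
  classical
  induction J using Finset.induction_on with
  | empty =>
    simp only [prod_empty]
    exact EA_const hs A 1
  | insert i J hi ih =>
    have h1 : (fun v => ∏ j ∈ insert i J, f j v) = fun v => f i v * ∏ j ∈ J, f j v := by
      funext v
      rw [prod_insert hi]
    have h2 := ih (fun j hj => hf j (mem_insert_of_mem hj))
      (fun a ha b hb => h a (mem_insert_of_mem ha) b (mem_insert_of_mem hb))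
    rw [h1, EA_mul_indep hs (hf i (mem_insert_self _ _))
      (DependsOn_prod J fun j hj => hf j (mem_insert_of_mem hj)) _, h2]
    · funext v
      rw [prod_insert hi]
    · intro p hp hpi hpJ
      simp only [Set.mem_iUnion] at hpJ
      obtain ⟨j, hj, hpj⟩ := hpJ
      have hij : i ≠ j := fun e => hi (e ▸ hj)
      exact h i (mem_insert_self _ _) j (mem_insert_of_mem hj) hij p hp hpi hpj

/-- a single configuration -/
theorem EA_ge_point (hπ : ∀ p, ∀ a ∈ V p, 0 ≤ π p a) (A : Finset ℕ) {f : (ℕ → α) → ℝ}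
    (hf : ∀ v, 0 ≤ f v) (v w : ℕ → α) (h1 : ∀ p ∉ A, w p = v p) (h2 : ∀ p ∈ A, w p ∈ V p) :
    (∏ p ∈ A, π p (w p)) * f w ≤ EA V π A f v := by
  induction A using Finset.induction_on generalizing v with
  | empty =>
    rw [EA_empty, prod_empty, one_mul]
    have : w = v := by
      funext p
      exact h1 p (notMem_empty p)
    rw [this]
  | insert q A hq ih =>
    rw [EA_insert hq, prod_insert hq]
    have h3 := ih (Function.update v q (w q))
      (by
        intro p hp
        by_cases hpq : p = q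
        · subst hpq; simp
        · rw [Function.update_of_ne hpq]
          exact h1 p (by simp [hpq, hp]))
      (fun p hp => h2 p (mem_insert_of_mem hp))
    have h4 : π q (w q) * EA V π A f (Function.update v q (w q)) ≤ E1 V π q (EA V π A f) v := by
      unfold E1
      apply single_le_sum (f := fun s => π q s * EA V π A f (Function.update v q s))
      · intro s hs'
        exact mul_nonneg (hπ q s hs') (EA_nonneg hπ A hf _)
      · exact h2 q (mem_insert_self _ _)
    calc π q (w q) * (∏ p ∈ A, π p (w p)) * f w = π q (w q) * ((∏ p ∈ A, π p (w p)) * f w) := by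
          ring
      _ ≤ π q (w q) * EA V π A f (Function.update v q (w q)) :=
          mul_le_mul_of_nonneg_left h3 (hπ _ _ (h2 q (mem_insert_self _ _)))
      _ ≤ _ := h4

/-! ### Indicators -/

theorem ind_apply (S : Set (ℕ → α)) [DecidablePred (· ∈ S)] (v : ℕ → α) :
    ind S v = if v ∈ S then 1 else 0 := by
  unfold ind
  rw [Set.indicator_apply]
  simp

theorem ind_of_mem {S : Set (ℕ → α)} {v : ℕ → α} (h : v ∈ S) : ind S v = 1 := by
  unfold ind
  rw [Set.indicator_of_mem h]; rfl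

theorem ind_of_not_mem {S : Set (ℕ → α)} {v : ℕ → α} (h : v ∉ S) : ind S v = 0 := by
  unfold ind
  rw [Set.indicator_of_notMem h]

theorem ind_nonneg (S : Set (ℕ → α)) (v : ℕ → α) : 0 ≤ ind S v := by
  by_cases h : v ∈ S
  · rw [ind_of_mem h]; exact zero_le_one
  · rw [ind_of_not_mem h]

theorem ind_le_one (S : Set (ℕ → α)) (v : ℕ → α) : ind S v ≤ 1 := by
  by_cases h : v ∈ S
  · rw [ind_of_mem h]
  · rw [ind_of_not_mem h]; exact zero_le_one

theorem ind_mono {S T : Set (ℕ → α)} {v : ℕ → α} (h : v ∈ S → v ∈ T) : ind S v ≤ ind T v := by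
  by_cases h1 : v ∈ S
  · rw [ind_of_mem h1, ind_of_mem (h h1)]
  · rw [ind_of_not_mem h1]; exact ind_nonneg _ _

theorem ind_mul (S T : Set (ℕ → α)) : (fun v => ind S v * ind T v) = ind (S ∩ T) := by
  funext v
  by_cases h1 : v ∈ S
  · by_cases h2 : v ∈ T
    · rw [ind_of_mem h1, ind_of_mem h2, ind_of_mem (show v ∈ S ∩ T from ⟨h1, h2⟩), one_mul]
    · rw [ind_of_not_mem h2, ind_of_not_mem (fun h : v ∈ S ∩ T => h2 h.2), mul_zero]
  · rw [ind_of_not_mem h1, ind_of_not_mem (fun h : v ∈ S ∩ T => h1 h.1), zero_mul]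

theorem ind_compl (S : Set (ℕ → α)) : ind Sᶜ = fun v => 1 - ind S v := by
  funext v
  by_cases h1 : v ∈ S
  · rw [ind_of_mem h1, ind_of_not_mem (fun h : v ∈ Sᶜ => h h1), sub_self]
  · rw [ind_of_not_mem h1, ind_of_mem (show v ∈ Sᶜ from h1), sub_zero]

theorem ind_univ : ind (Set.univ : Set (ℕ → α)) = fun _ => 1 := by
  funext v
  exact ind_of_mem trivial

theorem prod_ind {ι : Type*} (J : Finset ι) (S : ι → Set (ℕ → α)) (v : ℕ → α) :
    ∏ j ∈ J, ind (S j) v = ind {w | ∀ j ∈ J, w ∈ S j} v := by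
  by_cases h : ∀ j ∈ J, v ∈ S j
  · rw [ind_of_mem (show v ∈ {w | ∀ j ∈ J, w ∈ S j} from h)]
    exact prod_eq_one fun j hj => ind_of_mem (h j hj)
  · rw [ind_of_not_mem (show v ∉ {w | ∀ j ∈ J, w ∈ S j} from h)]
    push Not at h
    obtain ⟨j, hj, hv⟩ := h
    exact prod_eq_zero hj (ind_of_not_mem hv)

theorem ind_dependsOn {S : Set (ℕ → α)} {s : Set ℕ}
    (h : ∀ v w : ℕ → α, (∀ i ∈ s, v i = w i) → (v ∈ S → w ∈ S)) : DependsOn (ind S) s := by
  intro v w hvw
  by_cases hv : v ∈ S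
  · rw [ind_of_mem hv, ind_of_mem (h v w hvw hv)]
  · rw [ind_of_not_mem hv, ind_of_not_mem fun hw => hv (h w v (fun i hi => (hvw i hi).symm) hw)]

/-- union bound -/
theorem ind_union_le (S T : Set (ℕ → α)) (v : ℕ → α) : ind (S ∪ T) v ≤ ind S v + ind T v := by
  by_cases h1 : v ∈ S
  · rw [ind_of_mem h1]
    have := ind_le_one (S ∪ T) v
    have := ind_nonneg T v
    linarith
  · by_cases h2 : v ∈ T
    · rw [ind_of_mem h2]
      have := ind_le_one (S ∪ T) v
      have := ind_nonneg S v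
      linarith
    · rw [ind_of_not_mem (fun h : v ∈ S ∪ T => h.elim h1 h2)]
      have := ind_nonneg S v
      have := ind_nonneg T v
      linarith

/-! ### Uniform choices and survival probabilities -/

variable {s : ℕ}

theorem unif_nonneg : ∀ p, ∀ a ∈ (univ : Finset (Fin s)), 0 ≤ unif s p a := by
  intro p a _
  unfold unif
  positivity

theorem unif_sum (hs : 0 < s) : ∀ p, ∑ a ∈ (univ : Finset (Fin s)), unif s p a = 1 := by
  intro p
  unfold unif
  rw [sum_const, card_univ, Fintype.card_fin, nsmul_eq_mul]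
  field_simp

/-- the event that `n` avoids the chosen classes of all primes of `A` -/
def AvU (c : ℕ → Fin s → ℕ) (A : Finset ℕ) (n : ℕ) : Set (ℕ → Fin s) :=
  {v | ∀ p ∈ A, ¬ n ≡ c p (v p) [MOD p]}

theorem AvU_dependsOn (c : ℕ → Fin s → ℕ) (A : Finset ℕ) (n : ℕ) :
    DependsOn (ind (AvU c A n)) (A : Set ℕ) := by
  apply ind_dependsOn
  intro v w h hv p hp
  rw [← h p hp]
  exact hv p hp

open Classical in
theorem E1_avU (hs : 0 < s) (c : ℕ → Fin s → ℕ) (p n : ℕ) (v : ℕ → Fin s) :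
    E1 (fun _ => univ) (unif s) p (ind {w | ¬ n ≡ c p (w p) [MOD p]}) v =
      1 - ((univ.filter fun i : Fin s => n ≡ c p i [MOD p]).card : ℝ) / s := by
  unfold E1 unif
  have h1 : ∀ i ∈ (univ : Finset (Fin s)), 1 / (s : ℝ) *
      ind {w : ℕ → Fin s | ¬ n ≡ c p (w p) [MOD p]} (Function.update v p i) =
      1 / s - (if n ≡ c p i [MOD p] then 1 / (s : ℝ) else 0) := by
    intro i _
    by_cases h : n ≡ c p i [MOD p]
    · rw [ind_of_not_mem (by simp [h]), if_pos h]; ring
    · rw [ind_of_mem (by simp [h]), if_neg h]; ring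
  have hs0 : (s : ℝ) ≠ 0 := by exact_mod_cast hs.ne'
  rw [sum_congr rfl h1, sum_sub_distrib, ← sum_filter, sum_const, sum_const, card_univ,
    Fintype.card_fin, nsmul_eq_mul, nsmul_eq_mul]
  field_simp

theorem EU_avU (hs : 0 < s) (c : ℕ → Fin s → ℕ) (A : Finset ℕ) (n : ℕ) (v : ℕ → Fin s) :
    EU s A (ind (AvU c A n)) v = PU c A n := by
  unfold EU
  have h1 : (fun w => ∏ p ∈ A, ind {w : ℕ → Fin s | ¬ n ≡ c p (w p) [MOD p]} w) =
      ind (AvU c A n) := by
    funext w
    rw [prod_ind]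
    rfl
  have hdep : ∀ p ∈ A, DependsOn (ind {w : ℕ → Fin s | ¬ n ≡ c p (w p) [MOD p]})
      ({p} : Set ℕ) := by
    intro p _
    apply ind_dependsOn
    intro v w h hv
    simp only [Set.mem_ofPred_eq] at hv ⊢
    rw [← h p (Set.mem_singleton p)]
    exact hv
  rw [← h1, EA_prod_indep (unif_sum hs) A hdep]
  · unfold PU
    apply prod_congr rfl
    intro p hp
    rw [EA_restrict (unif_sum hs) (hdep p hp) (A' := {p}) (by simpa using hp) (by simp),
      EA_singleton, E1_avU hs]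
  · intro p _ q _ hpq r _ hr1 hr2
    rw [Set.mem_singleton_iff] at hr1 hr2
    exact hpq (hr1 ▸ hr2)

open Classical in
theorem PU_factor_mem (c : ℕ → Fin s → ℕ) (p n : ℕ) :
    0 ≤ 1 - ((univ.filter fun i : Fin s => n ≡ c p i [MOD p]).card : ℝ) / s ∧
      1 - ((univ.filter fun i : Fin s => n ≡ c p i [MOD p]).card : ℝ) / s ≤ 1 := by
  have h1 : ((univ.filter fun i : Fin s => n ≡ c p i [MOD p]).card : ℝ) ≤ s := by
    have := card_filter_le (univ : Finset (Fin s)) fun i : Fin s => n ≡ c p i [MOD p]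
    rw [card_univ, Fintype.card_fin] at this
    exact_mod_cast this
  have h2 : ((univ.filter fun i : Fin s => n ≡ c p i [MOD p]).card : ℝ) / s ≤ 1 :=
    div_le_one_of_le₀ h1 (Nat.cast_nonneg _)
  have h3 : 0 ≤ ((univ.filter fun i : Fin s => n ≡ c p i [MOD p]).card : ℝ) / s := by positivity
  exact ⟨by linarith, by linarith⟩

theorem PU_nonneg (c : ℕ → Fin s → ℕ) (A : Finset ℕ) (n : ℕ) : 0 ≤ PU c A n :=
  prod_nonneg fun p _ => (PU_factor_mem c p n).1

theorem PU_le_one (c : ℕ → Fin s → ℕ) (A : Finset ℕ) (n : ℕ) : PU c A n ≤ 1 :=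
  prod_le_one (fun p _ => (PU_factor_mem c p n).1) fun p _ => (PU_factor_mem c p n).2

end Pool.Agent.Work.MP_b0c12c_nt_univ
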