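import Pool.Agent.Work.MP_b0c12c_nt_univ.Op

/-!
Block INU, first part: the second moment of the number of survivors.
-/

set_option autoImplicit false

namespace Pool.Agent.Work.MP_b0c12c_nt_univ

namespace INUaux

open Finset Filter

variable {V : ℕ → Finset ℕ} {π : ℕ → ℕ → ℝ}

open Classical in
/-- probability of the class of `n` at `p` -/
noncomputable def rp (V : ℕ → Finset ℕ) (π : ℕ → ℕ → ℝ) (p n : ℕ) : ℝ :=
  ∑ a ∈ V p, if n ≡ a [MOD p] then π p a else 0

/-- `n` avoids the classes of the primes of `T` -/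
def Av (T : Finset ℕ) (n : ℕ) : Set (ℕ → ℕ) := {w | ∀ p ∈ T, ¬ n ≡ w p [MOD p]}

theorem EA_box (hπ : IsLaw V π) (T : Finset ℕ) (B : ℕ → Set ℕ) (v : ℕ → ℕ) :
    EA V π T (ind {w | ∀ p ∈ T, w p ∈ B p}) v =
      ∏ p ∈ T, ∑ a ∈ V p, π p a * (B p).indicator 1 a := by
  have h1 : (fun w => ∏ p ∈ T, ind {w : ℕ → ℕ | w p ∈ B p} w) =
      ind {w | ∀ p ∈ T, w p ∈ B p} := by
    funext w
    rw [prod_ind]
    rfl
  have hdep : ∀ p ∈ T, DependsOn (ind {w : ℕ → ℕ | w p ∈ B p}) ({p} : Set ℕ) := by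
    intro p _
    apply ind_dependsOn
    intro v w h hv
    simp only [Set.mem_ofPred_eq] at hv ⊢
    rw [← h p (Set.mem_singleton p)]
    exact hv
  rw [← h1, EA_prod_indep hπ.sum_one T hdep]
  · apply prod_congr rfl
    intro p hp
    rw [EA_restrict hπ.sum_one (hdep p hp) (A' := {p}) (by simpa using hp) (by simp),
      EA_singleton]
    unfold E1
    apply sum_congr rfl
    intro a _
    congr 1
    by_cases h : a ∈ B p
    · rw [ind_of_mem (by simp [h]), Set.indicator_of_mem h]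
      rfl
    · rw [ind_of_not_mem (by simp [h]), Set.indicator_of_notMem h]
  · intro p _ q _ hpq r _ hr1 hr2
    rw [Set.mem_singleton_iff] at hr1 hr2
    exact hpq (hr1 ▸ hr2)

theorem EA_Av (hπ : IsLaw V π) (T : Finset ℕ) (n : ℕ) (v : ℕ → ℕ) :
    EA V π T (ind (Av T n)) v = ∏ p ∈ T, (1 - rp V π p n) := by
  have h := EA_box hπ T (fun p => {a | ¬ n ≡ a [MOD p]}) v
  have h2 : {w : ℕ → ℕ | ∀ p ∈ T, w p ∈ (fun p => {a | ¬ n ≡ a [MOD p]}) p} = Av T n := rfl
  rw [h2] at h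
  rw [h]
  apply prod_congr rfl
  intro p _
  rw [← hπ.sum_one p]
  unfold rp
  rw [← sum_sub_distrib]
  apply sum_congr rfl
  intro a _
  by_cases h : n ≡ a [MOD p]
  · rw [if_pos h, Set.indicator_of_notMem (by simp [h])]; ring
  · rw [if_neg h, Set.indicator_of_mem (by simp [h])]; simp

theorem rp_nonneg (hπ : IsLaw V π) (p n : ℕ) : 0 ≤ rp V π p n := by
  unfold rp
  apply sum_nonneg
  intro a ha
  split_ifs
  · exact hπ.nonneg p a ha
  · exact le_rfl

theorem rp_le_one (hπ : IsLaw V π) (p n : ℕ) : rp V π p n ≤ 1 := by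
  rw [← hπ.sum_one p]
  unfold rp
  apply sum_le_sum
  intro a ha
  split_ifs
  · exact le_rfl
  · exact hπ.nonneg p a ha

theorem rp_congr (p n m : ℕ) (h : n ≡ m [MOD p]) : rp V π p n = rp V π p m := by
  unfold rp
  apply sum_congr rfl
  intro a _
  have : n ≡ a [MOD p] ↔ m ≡ a [MOD p] := ⟨fun h1 => h.symm.trans h1, fun h1 => h.trans h1⟩
  simp only [this]

/-- at most one class, so small -/
theorem rp_le {p : ℕ} {δ : ℝ} (hδ : 0 ≤ 1 / 2 - δ) (hlt : ∀ a ∈ V p, a < p) (hat : ∀ a ∈ V p, π p a ≤ 1 / 2 - δ)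
    (n : ℕ) : rp V π p n ≤ 1 / 2 - δ := by
  unfold rp
  by_cases h : ∃ a ∈ V p, n ≡ a [MOD p]
  · obtain ⟨a, ha, hna⟩ := h
    rw [sum_eq_single a]
    · rw [if_pos hna]; exact hat a ha
    · intro b hb hba
      rw [if_neg]
      intro hnb
      apply hba
      have h1 : b ≡ a [MOD p] := hnb.symm.trans hna
      exact Nat.ModEq.eq_of_lt_of_lt h1 (hlt b hb) (hlt a ha)
    · intro h1; exact absurd ha h1
  · push Not at h
    rw [sum_eq_zero]
    · exact hδ
    · intro a ha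
      rw [if_neg (h a ha)]

theorem one_sub_prod_le {ι : Type*} (s : Finset ι) (f : ι → ℝ) (h0 : ∀ i ∈ s, 0 ≤ f i)
    (h1 : ∀ i ∈ s, f i ≤ 1) : 1 - ∏ i ∈ s, (1 - f i) ≤ ∑ i ∈ s, f i := by
  classical
  induction s using Finset.induction_on with
  | empty => simp
  | insert a s ha ih =>
    rw [prod_insert ha, sum_insert ha]
    have e1 := ih (fun i hi => h0 i (mem_insert_of_mem hi)) fun i hi => h1 i (mem_insert_of_mem hi)
    have e2 : 0 ≤ ∏ i ∈ s, (1 - f i) :=
      prod_nonneg fun i hi => by linarith [h1 i (mem_insert_of_mem hi)]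
    have e3 : ∏ i ∈ s, (1 - f i) ≤ 1 :=
      prod_le_one (fun i hi => by linarith [h1 i (mem_insert_of_mem hi)])
        fun i hi => by linarith [h0 i (mem_insert_of_mem hi)]
    have e4 := h0 a (mem_insert_self a s)
    nlinarith

/-- survival probability -/
noncomputable def PP (V : ℕ → Finset ℕ) (π : ℕ → ℕ → ℝ) (T : Finset ℕ) (n : ℕ) : ℝ :=
  ∏ p ∈ T, (1 - rp V π p n)

theorem PP_nonneg (hπ : IsLaw V π) (T : Finset ℕ) (n : ℕ) : 0 ≤ PP V π T n :=
  prod_nonneg fun p _ => by linarith [rp_le_one hπ p n]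

theorem PP_le_one (hπ : IsLaw V π) (T : Finset ℕ) (n : ℕ) : PP V π T n ≤ 1 :=
  prod_le_one (fun p _ => by linarith [rp_le_one hπ p n]) fun p _ => by linarith [rp_nonneg hπ p n]

open Classical in
/-- pairs -/
theorem EA_pair (hπ : IsLaw V π) (T : Finset ℕ) (n m : ℕ) (v : ℕ → ℕ) :
    EA V π T (fun w => ind (Av T n) w * ind (Av T m) w) v ≤
      PP V π T n * PP V π T m + PP V π T n * ∑ p ∈ T.filter (fun p => n ≡ m [MOD p]), rp V π p n := by
  rw [ind_mul]
  have h := EA_box hπ T (fun p => {a | ¬ n ≡ a [MOD p] ∧ ¬ m ≡ a [MOD p]}) v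
  have h2 : {w : ℕ → ℕ | ∀ p ∈ T, w p ∈ (fun p => {a | ¬ n ≡ a [MOD p] ∧ ¬ m ≡ a [MOD p]}) p} =
      Av T n ∩ Av T m := by
    ext w
    simp only [Set.mem_ofPred_eq, Set.mem_inter_iff, Av]
    constructor
    · intro hw
      exact ⟨fun p hp => (hw p hp).1, fun p hp => (hw p hp).2⟩
    · intro hw p hp
      exact ⟨hw.1 p hp, hw.2 p hp⟩
  rw [h2] at h
  rw [h]
  set F : ℕ → ℝ := fun p => if n ≡ m [MOD p] then 1 else 1 - rp V π p m with hF
  have hF0 : ∀ p, 0 ≤ F p := by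
    intro p
    simp only [hF]
    split_ifs
    · norm_num
    · linarith [rp_le_one hπ p m]
  have hF1 : ∀ p, F p ≤ 1 := by
    intro p
    simp only [hF]
    split_ifs
    · norm_num
    · linarith [rp_nonneg hπ p m]
  have hfac : ∀ p ∈ T, ∑ a ∈ V p, π p a *
      ({a | ¬ n ≡ a [MOD p] ∧ ¬ m ≡ a [MOD p]} : Set ℕ).indicator 1 a ≤ (1 - rp V π p n) * F p := by
    intro p _
    by_cases hnm : n ≡ m [MOD p]
    · simp only [hF, if_pos hnm, mul_one]
      rw [← hπ.sum_one p]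
      unfold rp
      rw [← sum_sub_distrib]
      apply sum_le_sum
      intro a ha
      by_cases h : n ≡ a [MOD p]
      · rw [if_pos h, Set.indicator_of_notMem (by simp [h])]; simp
      · have h3 : ¬ m ≡ a [MOD p] := fun h4 => h (hnm.trans h4)
        rw [if_neg h, Set.indicator_of_mem (by simp [h, h3])]; simp
    · simp only [hF, if_neg hnm]
      have h3 : ∑ a ∈ V p, π p a *
          ({a | ¬ n ≡ a [MOD p] ∧ ¬ m ≡ a [MOD p]} : Set ℕ).indicator 1 a ≤
          1 - rp V π p n - rp V π p m := by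
        rw [← hπ.sum_one p]
        unfold rp
        rw [← sum_sub_distrib, ← sum_sub_distrib]
        apply le_of_eq
        apply sum_congr rfl
        intro a ha
        by_cases h : n ≡ a [MOD p]
        · have h4 : ¬ m ≡ a [MOD p] := fun h4 => hnm (h.trans h4.symm)
          rw [if_pos h, if_neg h4, Set.indicator_of_notMem (by simp [h])]; ring
        · by_cases h4 : m ≡ a [MOD p]
          · rw [if_neg h, if_pos h4, Set.indicator_of_notMem (by simp [h4])]; ring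
          · rw [if_neg h, if_neg h4, Set.indicator_of_mem (by simp [h, h4])]; simp
      have h5 := rp_nonneg hπ p n
      have h6 := rp_nonneg hπ p m
      nlinarith
  have hprod : ∏ p ∈ T, ∑ a ∈ V p, π p a *
      ({a | ¬ n ≡ a [MOD p] ∧ ¬ m ≡ a [MOD p]} : Set ℕ).indicator 1 a ≤
      PP V π T n * ∏ p ∈ T, F p := by
    unfold PP
    rw [← prod_mul_distrib]
    apply Finset.prod_le_prod
    · intro p _
      apply sum_nonneg
      intro a ha
      apply mul_nonneg (hπ.nonneg p a ha)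
      apply Set.indicator_nonneg
      intro _ _
      simp
    · exact hfac
  have hm : PP V π T m = (∏ p ∈ T, F p) *
      ∏ p ∈ T.filter (fun p => n ≡ m [MOD p]), (1 - rp V π p m) := by
    unfold PP
    rw [prod_filter, ← prod_mul_distrib]
    apply prod_congr rfl
    intro p _
    simp only [hF]
    split_ifs <;> ring
  have hB0 : 0 ≤ ∏ p ∈ T, F p := prod_nonneg fun p _ => hF0 p
  have hB1 : ∏ p ∈ T, F p ≤ 1 := prod_le_one (fun p _ => hF0 p) fun p _ => hF1 p
  have hs := one_sub_prod_le (T.filter (fun p => n ≡ m [MOD p])) (fun p => rp V π p m)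
    (fun p _ => rp_nonneg hπ p m) (fun p _ => rp_le_one hπ p m)
  have hsum : ∑ p ∈ T.filter (fun p => n ≡ m [MOD p]), rp V π p m =
      ∑ p ∈ T.filter (fun p => n ≡ m [MOD p]), rp V π p n := by
    apply sum_congr rfl
    intro p hp
    exact (rp_congr p n m (mem_filter.1 hp).2).symm
  rw [hsum] at hs
  have hS0 : 0 ≤ ∑ p ∈ T.filter (fun p => n ≡ m [MOD p]), rp V π p n :=
    sum_nonneg fun p _ => rp_nonneg hπ p n
  refine hprod.trans ?_
  rw [← mul_add]
  apply mul_le_mul_of_nonneg_left _ (PP_nonneg hπ T n)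
  rw [hm]
  set B : ℝ := ∏ p ∈ T, F p
  set Q : ℝ := ∏ p ∈ T.filter (fun p => n ≡ m [MOD p]), (1 - rp V π p m)
  nlinarith

open Classical in
/-- Chebyshev -/
theorem cheb (hπ : IsLaw V π) (T S : Finset ℕ) (v : ℕ → ℕ) :
    EA V π T (ind {w | ∀ n ∈ S, w ∉ Av T n}) v * (∑ n ∈ S, PP V π T n) ^ 2 ≤
      ∑ n ∈ S, PP V π T n * ∑ p ∈ T, rp V π p n * ((S.filter fun m => n ≡ m [MOD p]).card : ℝ) := by
  set μ : ℝ := ∑ n ∈ S, PP V π T n with hμdef
  set X : (ℕ → ℕ) → ℝ := fun w => ∑ n ∈ S, ind (Av T n) w with hX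
  have h1 : EA V π T (ind {w | ∀ n ∈ S, w ∉ Av T n}) v * μ ^ 2 ≤
      EA V π T (fun w => (∑ t ∈ S ×ˢ S, ind (Av T t.1) w * ind (Av T t.2) w) +
        ((-2 * μ) * X w + μ ^ 2)) v := by
    have e1 : EA V π T (ind {w | ∀ n ∈ S, w ∉ Av T n}) v * μ ^ 2 =
        EA V π T (fun w => μ ^ 2 * ind {w | ∀ n ∈ S, w ∉ Av T n} w) v := by
      rw [EA_const_mul]
      ring
    rw [e1]
    apply EA_mono hπ.nonneg
    intro w
    have e2 : (∑ t ∈ S ×ˢ S, ind (Av T t.1) w * ind (Av T t.2) w) = X w * X w := by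
      rw [hX, Finset.sum_mul_sum, Finset.sum_product]
    rw [e2]
    by_cases hw : w ∈ {w | ∀ n ∈ S, w ∉ Av T n}
    · have hX0 : X w = 0 := by
        rw [hX]
        exact Finset.sum_eq_zero fun n hn => ind_of_not_mem (hw n hn)
      rw [ind_of_mem hw, hX0]
      linarith
    · rw [ind_of_not_mem hw]
      nlinarith [sq_nonneg (X w - μ)]
  refine h1.trans ?_
  have e3 : EA V π T (fun w => (∑ t ∈ S ×ˢ S, ind (Av T t.1) w * ind (Av T t.2) w) +
        ((-2 * μ) * X w + μ ^ 2)) v =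
      (∑ t ∈ S ×ˢ S, EA V π T (fun w => ind (Av T t.1) w * ind (Av T t.2) w) v) +
        ((-2 * μ) * μ + μ ^ 2) := by
    have a1 := EA_add (V := V) (π := π) T (fun w => ∑ t ∈ S ×ˢ S, ind (Av T t.1) w * ind (Av T t.2) w)
      (fun w => (-2 * μ) * X w + μ ^ 2)
    have a2 := EA_add (V := V) (π := π) T (fun w => (-2 * μ) * X w) (fun _ => μ ^ 2)
    have a3 : EA V π T X v = μ := by
      rw [hX, EA_sum]
      simp only [EA_Av hπ]
      rfl
    have b1 := congrFun a1 v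
    have b2 := congrFun a2 v
    simp only [Pi.add_apply] at b1 b2
    have b1' : EA V π T (fun w => (∑ t ∈ S ×ˢ S, ind (Av T t.1) w * ind (Av T t.2) w) +
        ((-2 * μ) * X w + μ ^ 2)) v = EA V π T (fun w => ∑ t ∈ S ×ˢ S, ind (Av T t.1) w * ind (Av T t.2) w) v +
        EA V π T (fun w => (-2 * μ) * X w + μ ^ 2) v := b1
    have b2' : EA V π T (fun w => (-2 * μ) * X w + μ ^ 2) v =
        EA V π T (fun w => (-2 * μ) * X w) v + EA V π T (fun _ => μ ^ 2) v := b2
    rw [b1', b2', EA_sum, EA_const_mul, EA_const hπ.sum_one]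
    beta_reduce
    rw [a3]
  rw [e3]
  have h2 : ∑ t ∈ S ×ˢ S, EA V π T (fun w => ind (Av T t.1) w * ind (Av T t.2) w) v ≤
      ∑ t ∈ S ×ˢ S, (PP V π T t.1 * PP V π T t.2 +
        PP V π T t.1 * ∑ p ∈ T.filter (fun p => t.1 ≡ t.2 [MOD p]), rp V π p t.1) :=
    Finset.sum_le_sum fun t _ => EA_pair hπ T t.1 t.2 v
  have h3 : ∑ t ∈ S ×ˢ S, (PP V π T t.1 * PP V π T t.2 +
        PP V π T t.1 * ∑ p ∈ T.filter (fun p => t.1 ≡ t.2 [MOD p]), rp V π p t.1) =
      μ * μ + ∑ n ∈ S, PP V π T n * ∑ p ∈ T, rp V π p n *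
        ((S.filter fun m => n ≡ m [MOD p]).card : ℝ) := by
    rw [Finset.sum_add_distrib, Finset.sum_product, ← Finset.sum_mul_sum, Finset.sum_product]
    congr 1
    apply sum_congr rfl
    intro n _
    dsimp only
    rw [← mul_sum]
    congr 1
    simp only [sum_filter]
    rw [sum_comm]
    apply sum_congr rfl
    intro p _
    rw [← sum_filter, sum_const, nsmul_eq_mul, mul_comm]
  rw [h3] at h2
  nlinarith

end INUaux

end Pool.Agent.Work.MP_b0c12c_nt_univ
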