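import Mathlib
import Pool.Agent.Work.MP_b0c12c_nt_shift.Defs
import Pool.Agent.Work.MP_b0c12c_nt_shift.Interface

/-!
# Universal random sieve: definitions

`E1 V π p f` is the average of `f` over the value at `p`, which is `a ∈ V p` with weight `π p a`;
`EA V π A f` is the average over the values at all members of `A`.
-/

set_option autoImplicit false

namespace Pool.Agent.Work.MP_b0c12c_nt_univ

open Finset Filter

/-! ## Finite averages over a general alphabet -/

/-- average over the value at `p` -/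
noncomputable def E1 {α : Type} (V : ℕ → Finset α) (π : ℕ → α → ℝ) (p : ℕ)
    (f : (ℕ → α) → ℝ) : (ℕ → α) → ℝ :=
  fun v => ∑ a ∈ V p, π p a * f (Function.update v p a)

/-- average over the values at the members of a list -/
noncomputable def EL {α : Type} (V : ℕ → Finset α) (π : ℕ → α → ℝ) :
    List ℕ → ((ℕ → α) → ℝ) → ((ℕ → α) → ℝ)
  | [], f => f
  | p :: l, f => E1 V π p (EL V π l f)

/-- average over the values at the members of `A` (the other coordinates of `v` are kept) -/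
noncomputable def EA {α : Type} (V : ℕ → Finset α) (π : ℕ → α → ℝ) (A : Finset ℕ)
    (f : (ℕ → α) → ℝ) : (ℕ → α) → ℝ :=
  EL V π A.toList f

/-- indicator function of a set of configurations -/
noncomputable def ind {α : Type} (S : Set (ℕ → α)) : (ℕ → α) → ℝ := S.indicator 1

/-- `V, π` is a family of probability laws. -/
structure IsLaw {α : Type} (V : ℕ → Finset α) (π : ℕ → α → ℝ) : Prop where
  nonneg : ∀ p, ∀ a ∈ V p, 0 ≤ π p a
  sum_one : ∀ p, ∑ a ∈ V p, π p a = 1

/-- uniform weights on `Fin s` -/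
noncomputable def unif (s : ℕ) : ℕ → Fin s → ℝ := fun _ _ => 1 / s

/-- average over uniformly distributed `v p ∈ Fin s`, `p ∈ A` -/
noncomputable def EU (s : ℕ) (A : Finset ℕ) (f : (ℕ → Fin s) → ℝ) : (ℕ → Fin s) → ℝ :=
  EA (fun _ => univ) (unif s) A f

/-! ## The model for fixed classes `c p i`, `i ∈ Fin s` -/

variable {s : ℕ}

/-- `n` avoids the chosen classes `c p (v p)` of all fixed primes `p ≤ √x` -/
def SurvU (c : ℕ → Fin s → ℕ) (v : ℕ → Fin s) (A : Finset ℕ) (x n : ℕ) : Prop :=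
  ∀ p : ℕ, p.Prime → p * p ≤ x → p ∉ A → ¬ n ≡ c p (v p) [MOD p]

open Classical in
/-- the probability that `n` avoids the chosen classes of all primes of `A` -/
noncomputable def PU (c : ℕ → Fin s → ℕ) (A : Finset ℕ) (n : ℕ) : ℝ :=
  ∏ p ∈ A, (1 - ((univ.filter fun i : Fin s => n ≡ c p i [MOD p]).card : ℝ) / s)

/-- the number of different classes at `p` -/
def dU (c : ℕ → Fin s → ℕ) (p : ℕ) : ℕ := (univ.image fun i : Fin s => c p i % p).card

/-- the window `(N + 1, N + U]` is empty -/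
def EmpU (c : ℕ → Fin s → ℕ) (x U N : ℕ) : Set (ℕ → Fin s) :=
  {v | ∀ n ∈ Ioc (N + 1) (N + U), ∃ p : ℕ, p.Prime ∧ p * p ≤ x ∧ n ≡ c p (v p) [MOD p]}

open Classical in
/-- the survivors of the fixed primes in the window `(N + 1, N + U]` -/
noncomputable def SurU (c : ℕ → Fin s → ℕ) (v : ℕ → Fin s) (A : Finset ℕ) (x U N : ℕ) : Finset ℕ :=
  (Ioc (N + 1) (N + U)).filter fun n => SurvU c v A x n

open Classical in
/-- the primes of `A` one of whose classes meets `[N, N + U + 1]` -/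
noncomputable def DU (c : ℕ → Fin s → ℕ) (A : Finset ℕ) (U N : ℕ) : Finset ℕ :=
  A.filter fun p => ∃ m ∈ Icc N (N + U + 1), ∃ i : Fin s, m ≡ c p i [MOD p]

/-- `b` is the class of the rows: `b ≡ c p (v p)` modulo all primes `p ≤ z` -/
def IsBU (c : ℕ → Fin s → ℕ) (v : ℕ → Fin s) (z b : ℕ) : Prop :=
  b < Pool.Agent.Work.MP_b0c12c_nt_shift.qq z 0 ∧
    ∀ p : ℕ, p.Prime → p ≤ z → b ≡ c p (v p) [MOD p]

/-! ## The general model -/

/-- The integers `n ≥ 2` which avoid the class `w p` modulo every prime `p ≤ √n`. -/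
def SU (w : ℕ → ℕ) : Set ℕ :=
  {n | 2 ≤ n ∧ ∀ p : ℕ, p.Prime → p * p ≤ n → ¬ n ≡ w p [MOD p]}

/-- `(V, π)` is a law of residue classes, with all atoms at most `1 / 2 - δ` from some point on. -/
structure CLaw (V : ℕ → Finset ℕ) (π : ℕ → ℕ → ℝ) (δ : ℝ) : Prop extends IsLaw V π where
  lt : ∀ p : ℕ, p.Prime → ∀ a ∈ V p, a < p
  atom : ∃ P : ℕ, ∀ p : ℕ, p.Prime → P ≤ p → ∀ a ∈ V p, π p a ≤ 1 / 2 - δ

/-- `s`-tuples of values -/
def Vs (s : ℕ) (V : ℕ → Finset ℕ) (p : ℕ) : Finset (Fin s → ℕ) :=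
  Fintype.piFinset fun _ : Fin s => V p

/-- the law of `s` independent copies -/
noncomputable def pis (s : ℕ) (π : ℕ → ℕ → ℝ) (p : ℕ) (t : Fin s → ℕ) : ℝ := ∏ i, π p (t i)

end Pool.Agent.Work.MP_b0c12c_nt_univ
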