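import Mathlib
import Pool.Agent.Work.MP_b0c12c_nt_univ.Defs

/-!
# Universal random sieve: the statements of the blocks (see BLUEPRINT.md)
-/

set_option autoImplicit false

namespace Pool.Agent.Work.MP_b0c12c_nt_univ

open Finset Filter
open Pool.Agent.Work.MP_b0c12c_nt_shift (qq AA w1 InR PX rows)

/-! ## Fixed classes -/

/-- Block MN. The sharp sieve (Brun–Titchmarsh with arbitrary classes): the mean in one class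
modulo the primorial. -/
def Stmt_MN : Prop :=
  ∀ δ : ℝ, 0 < δ → ∀ κ : ℝ, 0 < κ → κ ≤ 1 / 10 → ∀ B : ℕ, 2 ≤ B → ∃ z0 : ℕ, ∀ z : ℕ, z0 ≤ z →
    ∀ x : ℕ, InR κ z x → ∀ (s : ℕ), 0 < s → ∀ (c : ℕ → Fin s → ℕ) (v : ℕ → Fin s) (a : ℕ)
      (S : Finset ℕ), (∀ n ∈ S, n ∈ Ioc x (2 * x) ∧ n ≡ a [MOD qq z 0] ∧ SurvU c v (AA κ B z 0) x n) →
      ∑ n ∈ S, PU c (AA κ B z 0) n ≤ (1 + δ) * 2 * x / ((qq z 0).totient * Real.log x)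

/-- Block NK. No weak survivors: few integers have survival probability above `z ^ (-ρ)`. -/
def Stmt_NK : Prop :=
  ∀ s : ℕ, 0 < s → ∀ η : ℝ, 0 < η → ∃ ρ : ℝ, 0 < ρ ∧ ∃ κ0 : ℝ, 0 < κ0 ∧ κ0 ≤ 1 / 50 ∧
    ∀ κ : ℝ, 0 < κ → κ ≤ κ0 → ∀ B : ℕ, 2 ≤ B → ∃ z0 : ℕ, ∀ z : ℕ, z0 ≤ z → ∀ x : ℕ, InR κ z x →
    ∀ c : ℕ → Fin s → ℕ, (2 + η) * Real.log z ≤ ∑ p ∈ AA κ B z 0, (dU c p : ℝ) / p →
    ∀ (a : ℕ) (S : Finset ℕ), (∀ n ∈ S, n ∈ Ioc x (2 * x) ∧ n ≡ a [MOD qq z 0] ∧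
      (z : ℝ) ^ (-ρ) < PU c (AA κ B z 0) n) →
      (S.card : ℝ) ≤ x / qq z 0 * (z : ℝ) ^ (-(2 + 3 * κ) - ρ)

/-- Block LL. The local lemma: lower bound for the probability that a row is empty. -/
def Stmt_LL : Prop :=
  ∀ s : ℕ, 0 < s → ∀ ρ ε : ℝ, 0 < ρ → 0 < ε → ∃ z0 : ℕ, ∀ z : ℕ, z0 ≤ z → ∀ (A : Finset ℕ)
    (x U N : ℕ), U ≤ z ^ 3 → (∀ p ∈ A, p.Prime ∧ U < p ∧ p * p ≤ x) →
    ∀ (c : ℕ → Fin s → ℕ) (v : ℕ → Fin s),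
    (∀ n ∈ SurU c v A x U N, PU c A n ≤ (z : ℝ) ^ (-ρ)) →
      Real.exp (-((1 + ε) * ∑ n ∈ SurU c v A x U N, PU c A n + 1)) ≤
        EU s A (ind (EmpU c x U N)) v

/-- Block SMU. Second moment. -/
def Stmt_SMU : Prop :=
  ∀ s : ℕ, 0 < s → ∀ (A R : Finset ℕ) (S : ℕ → Set (ℕ → Fin s)) (D : ℕ → Finset ℕ) (H θ : ℝ)
    (v : ℕ → Fin s), R.Nonempty → 0 < θ →
    (∀ r ∈ R, D r ⊆ A ∧ DependsOn (ind (S r)) ((D r : Set ℕ) ∪ (A : Set ℕ)ᶜ)) →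
    (∀ r ∈ R, θ ≤ EU s A (ind (S r)) v) →
    EU s A (ind {w | ∀ r ∈ R, w ∉ S r}) v ≤
      (∑ rr ∈ (R ×ˢ R).filter (fun rr => ((∏ p ∈ D rr.1 ∩ D rr.2, p : ℕ) : ℝ) ≤ H),
          ((s : ℝ) ^ (D rr.1 ∩ D rr.2).card - 1) +
        (((R ×ˢ R).filter (fun rr => H < ((∏ p ∈ D rr.1 ∩ D rr.2, p : ℕ) : ℝ))).card : ℝ) / θ) /
        (R.card : ℝ) ^ 2

/-- Block PCU. Pairs of rows with common primes. -/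
def Stmt_PCU : Prop :=
  ∀ s : ℕ, 0 < s → ∀ η : ℝ, 0 < η → ∃ B0 : ℕ, ∀ B : ℕ, B0 ≤ B → ∀ κ : ℝ, 0 < κ → κ ≤ 1 / 50 →
    ∃ z0 : ℕ, ∀ z : ℕ, z0 ≤ z → ∀ x U b : ℕ, InR κ z x → U ≤ z ^ 3 → b < qq z 0 →
    ∀ c : ℕ → Fin s → ℕ,
    ∑ rr ∈ (rows x (qq z 0) b U ×ˢ rows x (qq z 0) b U).filter (fun rr =>
        ((∏ p ∈ DU c (AA κ B z 0) U (rr.1 * qq z 0 + b) ∩
          DU c (AA κ B z 0) U (rr.2 * qq z 0 + b), p : ℕ) : ℝ) ≤ x / qq z 0),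
      ((s : ℝ) ^ (DU c (AA κ B z 0) U (rr.1 * qq z 0 + b) ∩
          DU c (AA κ B z 0) U (rr.2 * qq z 0 + b)).card - 1) ≤ (x / qq z 0) ^ 2 / z ∧
    (((rows x (qq z 0) b U ×ˢ rows x (qq z 0) b U).filter (fun rr => (x : ℝ) / qq z 0 <
        ((∏ p ∈ DU c (AA κ B z 0) U (rr.1 * qq z 0 + b) ∩
          DU c (AA κ B z 0) U (rr.2 * qq z 0 + b), p : ℕ) : ℝ))).card : ℝ) ≤
      (x / qq z 0) ^ 2 * (x : ℝ) ^ (-(1 - η))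

/-- Block RWU (assembly of MN, NK and the column count). A positive proportion of the rows is
cheap and has no weak survivor. -/
def Stmt_RWU : Prop :=
  ∀ s : ℕ, 0 < s → ∀ η : ℝ, 0 < η → ∀ lam g : ℝ, 0 < g →
    g * Real.exp Real.eulerMascheroniConstant < lam →
    ∃ ρ : ℝ, 0 < ρ ∧ ∃ κ0 : ℝ, 0 < κ0 ∧ κ0 ≤ 1 / 50 ∧ ∀ κ : ℝ, 0 < κ → κ ≤ κ0 →
    ∀ B : ℕ, 2 ≤ B → ∃ z0 : ℕ, ∀ z : ℕ, z0 ≤ z → ∀ x U : ℕ, InR κ z x →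
    (z : ℝ) ^ (2 + 3 * κ) ≤ U → (U : ℝ) ≤ ((z : ℝ) + 1) ^ (2 + 3 * κ) →
    (U : ℝ) ≤ (1 + ρ) * g * Real.log x ^ 2 →
    ∀ c : ℕ → Fin s → ℕ, (2 + η) * Real.log z ≤ ∑ p ∈ AA κ B z 0, (dU c p : ℝ) / p →
    ∀ (v : ℕ → Fin s) (b : ℕ), IsBU c v z b →
    ∃ R : Finset ℕ, R ⊆ rows x (qq z 0) b U ∧ ρ * (x / qq z 0) ≤ R.card ∧ ∀ r ∈ R,
      ∑ n ∈ SurU c v (AA κ B z 0) x U (r * qq z 0 + b), PU c (AA κ B z 0) n ≤ lam * Real.log x ∧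
      ∀ n ∈ SurU c v (AA κ B z 0) x U (r * qq z 0 + b), PU c (AA κ B z 0) n ≤ (z : ℝ) ^ (-ρ)

/-- Block SCU (assembly of RWU, LL, SMU, PCU). -/
def Stmt_SCU : Prop :=
  ∀ s : ℕ, 0 < s → ∀ η : ℝ, 0 < η → ∀ g : ℝ, 0 < g → g < Real.exp (-Real.eulerMascheroniConstant) →
    ∃ κ0 : ℝ, 0 < κ0 ∧ κ0 ≤ 1 / 50 ∧ ∀ κ : ℝ, 0 < κ → κ ≤ κ0 → ∃ B : ℕ, 2 ≤ B ∧
    ∀ δ : ℝ, 0 < δ → ∃ z0 : ℕ, ∀ z : ℕ, z0 ≤ z → ∃ x U : ℕ, InR κ z x ∧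
      g * Real.log x ^ 2 + 1 ≤ U ∧
      ∀ c : ℕ → Fin s → ℕ, (2 + η) * Real.log z ≤ ∑ p ∈ AA κ B z 0, (dU c p : ℝ) / p →
      ∀ v : ℕ → Fin s,
        EU s (PX x) (ind {w | ∀ N : ℕ, x ≤ N → N + U ≤ 2 * x → w ∉ EmpU c x U N}) v ≤ δ

/-! ## Random classes -/

/-- Block DIS. Distinct values among `s` copies: more than two on average. -/
def Stmt_DIS : Prop :=
  ∀ δ : ℝ, 0 < δ → δ < 1 / 2 → ∃ s : ℕ, 0 < s ∧ ∀ (T : Finset ℕ) (π : ℕ → ℝ),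
    (∀ a ∈ T, 0 ≤ π a ∧ π a ≤ 1 / 2 - δ) → ∑ a ∈ T, π a = 1 →
    2 + 3 * δ ≤ ∑ a ∈ T, (1 - (1 - π a) ^ s)

/-- Block MIX. A random class is one of `s` independent copies, chosen uniformly. -/
def Stmt_MIX : Prop :=
  ∀ (s : ℕ), 0 < s → ∀ (V : ℕ → Finset ℕ) (π : ℕ → ℕ → ℝ), IsLaw V π → ∀ (T : Finset ℕ)
    (f : (ℕ → ℕ) → ℝ) (w : ℕ → ℕ) (c0 : ℕ → Fin s → ℕ) (v0 : ℕ → Fin s),
    EA V π T f w = EA (Vs s V) (pis s π) T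
      (fun c => EU s T (fun v => f (fun p => if p ∈ T then c p (v p) else w p)) v0) c0

/-- Block CHB (Chebyshev's inequality; uses DIS and the mass of the random primes). -/
def Stmt_CHB : Prop :=
  ∀ δ : ℝ, 0 < δ → δ < 1 / 2 → ∃ s : ℕ, 0 < s ∧ ∃ κ0 : ℝ, 0 < κ0 ∧ ∀ κ : ℝ, 0 < κ → κ ≤ κ0 →
    ∀ B : ℕ, 2 ≤ B → ∀ (V : ℕ → Finset ℕ) (π : ℕ → ℕ → ℝ), CLaw V π δ → ∀ ε : ℝ, 0 < ε →
    ∃ z0 : ℕ, ∀ z : ℕ, z0 ≤ z → ∀ (T : Finset ℕ), AA κ B z 0 ⊆ T → ∀ c0 : ℕ → Fin s → ℕ,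
      EA (Vs s V) (pis s π) T
        (ind {c | ¬ (2 + δ) * Real.log z ≤ ∑ p ∈ AA κ B z 0, (dU c p : ℝ) / p}) c0 ≤ ε

/-- Block SCA (assembly of SCU, MIX, CHB). At arbitrarily large scales the probability that
there is no empty window is small. -/
def Stmt_SCA : Prop :=
  ∀ (V : ℕ → Finset ℕ) (π : ℕ → ℕ → ℝ) (δ : ℝ), 0 < δ → CLaw V π δ → ∀ g : ℝ, 0 < g →
    g < Real.exp (-Real.eulerMascheroniConstant) → ∀ ε : ℝ, 0 < ε → ∀ x0 : ℕ, ∃ x U : ℕ,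
    x0 ≤ x ∧ g * Real.log x ^ 2 + 1 ≤ U ∧
      EA V π (PX x) (ind {w | ∀ N : ℕ, x ≤ N → N + U ≤ 2 * x →
        ∃ n ∈ Ioc (N + 1) (N + U), ∀ p : ℕ, p.Prime → p * p ≤ x → ¬ n ≡ w p [MOD p]}) (fun _ => 0) ≤ ε

/-- Block INU. With probability tending to one `(x, 2x]` contains a member of the set. -/
def Stmt_INU : Prop :=
  ∀ (V : ℕ → Finset ℕ) (π : ℕ → ℕ → ℝ) (δ : ℝ), 0 ≤ δ → CLaw V π δ → ∀ ε : ℝ, 0 < ε →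
    ∃ x0 : ℕ, ∀ x : ℕ, x0 ≤ x →
    EA V π (PX (2 * x)) (ind {w | ∀ n ∈ Ioc x (2 * x), n ∉ SU w}) (fun _ => 0) ≤ ε

/-- The residue classes of independent random integers: values modulo `p`. -/
noncomputable def resV (p : ℕ) : Finset ℕ := if p.Prime then range p else {0}

/-- the law of the class modulo `p` -/
noncomputable def resπ {Ω : Type*} [MeasurableSpace Ω] (μ : MeasureTheory.Measure Ω) (a : ℕ → Ω → ℤ)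
    (p c : ℕ) : ℝ :=
  if p.Prime then μ.real {ω | (p : ℤ) ∣ a p ω - c} else 1

/-- Block PRU. Link with independent random variables. -/
def Stmt_PRU.{u} : Prop :=
  ∀ {Ω : Type u} [MeasurableSpace Ω] (μ : MeasureTheory.Measure Ω)
    [MeasureTheory.IsProbabilityMeasure μ] (a : ℕ → Ω → ℤ), (∀ p, Measurable (a p)) →
    ProbabilityTheory.iIndepFun a μ →
    IsLaw resV (resπ μ a) ∧
    ∀ (T : Finset ℕ), (∀ p ∈ T, p.Prime) → ∀ S : Set (ℕ → ℕ), DependsOn (ind S) (T : Set ℕ) →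
      MeasurableSet {ω | (fun p => (a p ω % p).toNat) ∈ S} ∧
      μ.real {ω | (fun p => (a p ω % p).toNat) ∈ S} = EA resV (resπ μ a) T (ind S) (fun _ => 0)

end Pool.Agent.Work.MP_b0c12c_nt_univ
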