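import Mathlib
import Pool.Agent.Work.MP_b0c12c_nt_univ.Op
import Pool.Agent.Work.MP_b0c12c_nt_univ.Interface

/-!
# Block PRU: link with independent random variables
-/

set_option autoImplicit false

namespace Pool.Agent.Work.MP_b0c12c_nt_univ.PRUaux

open Finset MeasureTheory ProbabilityTheory

variable {Ω : Type*} [MeasurableSpace Ω] {μ : Measure Ω} [IsProbabilityMeasure μ]
  {u : ℕ → Ω → ℕ}

theorem mem_iff_of_dependsOn {S : Set (ℕ → ℕ)} {T : Set ℕ} (h : DependsOn (ind S) T)
    {v w : ℕ → ℕ} (hvw : ∀ p ∈ T, v p = w p) : v ∈ S ↔ w ∈ S := by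
  have h1 : ind S v = ind S w := h fun p hp => hvw p hp
  constructor
  · intro hv
    by_contra hw
    rw [ind_of_mem hv, ind_of_not_mem hw] at h1
    norm_num at h1
  · intro hw
    by_contra hv
    rw [ind_of_mem hw, ind_of_not_mem hv] at h1
    norm_num at h1

theorem meas (hu : ∀ p, Measurable (u p)) (T : Finset ℕ) (S : Set (ℕ → ℕ))
    (hS : DependsOn (ind S) (T : Set ℕ)) : MeasurableSet {ω | (fun p => u p ω) ∈ S} := by
  classical
  let F : Ω → (T → ℕ) := fun ω p => u p ω
  have hF : Measurable F := measurable_pi_lambda _ fun p => hu p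
  let S' : Set (T → ℕ) := {w | (fun p => if h : p ∈ T then w ⟨p, h⟩ else 0) ∈ S}
  have h1 : {ω | (fun p => u p ω) ∈ S} = F ⁻¹' S' := by
    ext ω
    simp only [Set.mem_ofPred_eq, Set.mem_preimage, S', F]
    refine mem_iff_of_dependsOn hS fun p hp => ?_
    have hp' : p ∈ T := hp
    simp [hp']
  rw [h1]
  exact hF (Set.Countable.measurableSet (Set.to_countable S'))

theorem claim (hu : ∀ p, Measurable (u p)) (hI : iIndepFun u μ) (V : ℕ → Finset ℕ)
    (π : ℕ → ℕ → ℝ) (T : Finset ℕ) :
    ∀ T' : Finset ℕ, (∀ p ∈ T ∪ T', ∀ ω, u p ω ∈ V p) →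
    (∀ p ∈ T ∪ T', ∀ s ∈ V p, μ.real {ω | u p ω = s} = π p s) → Disjoint T T' →
    ∀ v : ℕ → ℕ, (∀ p ∈ T', v p ∈ V p) → ∀ S : Set (ℕ → ℕ),
    DependsOn (ind S) ((T ∪ T' : Finset ℕ) : Set ℕ) →
    μ.real {ω | (∀ p ∈ T', u p ω = v p) ∧ (fun p => u p ω) ∈ S} =
      (∏ p ∈ T', π p (v p)) * EA V π T (ind S) v := by
  classical
  induction T using Finset.induction_on with
  | empty =>
    intro T' _ hπ _ v hv S hS
    rw [EA_empty]
    rw [Finset.empty_union] at hS hπ
    by_cases hvS : v ∈ S
    · rw [ind_of_mem hvS, mul_one]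
      have h1 : {ω | (∀ p ∈ T', u p ω = v p) ∧ (fun p => u p ω) ∈ S} =
          ⋂ p ∈ T', u p ⁻¹' {v p} := by
        ext ω
        simp only [Set.mem_ofPred_eq, Set.mem_iInter, Set.mem_preimage, Set.mem_singleton_iff]
        constructor
        · exact fun h => h.1
        · intro h
          exact ⟨h, (mem_iff_of_dependsOn hS (fun p hp => h p hp)).mpr hvS⟩
      rw [h1, measureReal_def,
        (iIndepFun_iff_measure_inter_preimage_eq_mul.mp hI) T' (fun _ _ => measurableSet_singleton _),
        ENNReal.toReal_prod]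
      refine Finset.prod_congr rfl fun p hp => ?_
      exact hπ p hp (v p) (hv p hp)
    · rw [ind_of_not_mem hvS, mul_zero]
      have h1 : {ω | (∀ p ∈ T', u p ω = v p) ∧ (fun p => u p ω) ∈ S} = ∅ := by
        rw [Set.eq_empty_iff_forall_notMem]
        rintro ω ⟨h2, h3⟩
        exact hvS ((mem_iff_of_dependsOn hS (fun p hp => h2 p hp)).mp h3)
      rw [h1]
      simp
  | insert p T hpT ih =>
    intro T' hsg hπ hd v hv S hS
    have hpT' : p ∉ T' := fun h =>
      (Finset.disjoint_left.mp hd (Finset.mem_insert_self p T)) h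
    have hne : ∀ q ∈ T', q ≠ p := by
      rintro q hq rfl
      exact hpT' hq
    have hun : T ∪ insert p T' = insert p T ∪ T' := by
      ext q; simp only [Finset.mem_union, Finset.mem_insert]; tauto
    have hd' : Disjoint T (insert p T') := by
      rw [Finset.disjoint_insert_right]
      exact ⟨hpT, Finset.disjoint_of_subset_left (Finset.subset_insert p T) hd⟩
    rw [EA_insert hpT]
    have key : ∀ s ∈ V p, μ.real {ω | (∀ q ∈ insert p T', u q ω = Function.update v p s q) ∧
        (fun q => u q ω) ∈ S} =
        (∏ q ∈ T', π q (v q)) * (π p s * EA V π T (ind S) (Function.update v p s)) := by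
      intro s hs
      rw [ih (insert p T') (by rw [hun]; exact hsg) (by rw [hun]; exact hπ) hd'
        (Function.update v p s) ?_ S (by rw [hun]; exact hS)]
      · rw [Finset.prod_insert hpT', Function.update_self]
        have h2 : ∏ q ∈ T', π q (Function.update v p s q) = ∏ q ∈ T', π q (v q) := by
          refine Finset.prod_congr rfl fun q hq => ?_
          rw [Function.update_of_ne (hne q hq)]
        rw [h2]
        ring
      · intro q hq
        rcases Finset.mem_insert.mp hq with h | h
        · subst h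
          rw [Function.update_self]
          exact hs
        · rw [Function.update_of_ne (hne q h)]
          exact hv q h
    have hmeas : ∀ s ∈ V p, MeasurableSet {ω | (∀ q ∈ insert p T', u q ω = Function.update v p s q) ∧
        (fun q => u q ω) ∈ S} := by
      intro s _
      have h3 : {ω | (∀ q ∈ insert p T', u q ω = Function.update v p s q) ∧
          (fun q => u q ω) ∈ S} = (⋂ q ∈ insert p T', u q ⁻¹' {Function.update v p s q}) ∩
          {ω | (fun q => u q ω) ∈ S} := by
        ext ω
        simp only [Set.mem_ofPred_eq, Set.mem_inter_iff, Set.mem_iInter, Set.mem_preimage,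
          Set.mem_singleton_iff]
      rw [h3]
      refine MeasurableSet.inter ?_ (meas hu _ S hS)
      exact Finset.measurableSet_biInter _ fun q _ => hu q (measurableSet_singleton _)
    have hdis : Set.PairwiseDisjoint (V p : Set ℕ)
        (fun s => {ω | (∀ q ∈ insert p T', u q ω = Function.update v p s q) ∧
        (fun q => u q ω) ∈ S}) := by
      intro s _ t _ hst
      rw [Function.onFun, Set.disjoint_left]
      rintro ω ⟨h1, _⟩ ⟨h2, _⟩
      have h3 := h1 p (Finset.mem_insert_self p T')
      have h4 := h2 p (Finset.mem_insert_self p T')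
      rw [Function.update_self] at h3 h4
      exact hst (h3.symm.trans h4)
    have hae : {ω | (∀ q ∈ T', u q ω = v q) ∧ (fun q => u q ω) ∈ S} =
        (⋃ s ∈ V p, {ω | (∀ q ∈ insert p T', u q ω = Function.update v p s q) ∧
        (fun q => u q ω) ∈ S}) := by
      ext ω
      simp only [Set.mem_iUnion, Set.mem_ofPred_eq, exists_prop]
      constructor
      · rintro ⟨h1, h2⟩
        refine ⟨u p ω, hsg p (Finset.mem_union_left _ (Finset.mem_insert_self p T)) ω, ?_, h2⟩
        intro q hq
        rcases Finset.mem_insert.mp hq with h | h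
        · subst h
          rw [Function.update_self]
        · rw [Function.update_of_ne (hne q h)]
          exact h1 q h
      · rintro ⟨s, _, h1, h2⟩
        refine ⟨fun q hq => ?_, h2⟩
        have h3 := h1 q (Finset.mem_insert_of_mem hq)
        rwa [Function.update_of_ne (hne q hq)] at h3
    rw [hae, measureReal_biUnion_finset hdis hmeas, Finset.sum_congr rfl key, ← Finset.mul_sum]
    rfl

/-- the residue of an integer -/
theorem res_eq_iff {p : ℕ} (hp : 0 < p) {c : ℕ} (hc : c < p) (a : ℤ) :
    (a % p).toNat = c ↔ (p : ℤ) ∣ a - c := by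
  have hp' : (p : ℤ) ≠ 0 := by exact_mod_cast hp.ne'
  have h0 : 0 ≤ a % p := Int.emod_nonneg _ hp'
  constructor
  · intro h
    have h1 : a % p = (c : ℤ) := by
      rw [← h, Int.toNat_of_nonneg h0]
    rw [← h1]
    exact Int.dvd_self_sub_emod
  · intro h
    have h1 : a % p = (c : ℤ) % p := Int.emod_emod_of_dvd a (dvd_refl (p : ℤ)) ▸
      (Int.emod_emod_of_dvd a (dvd_refl (p : ℤ))).symm.trans (by
      rw [Int.emod_emod_of_dvd a (dvd_refl _)]
      exact Int.ModEq.symm ((Int.modEq_iff_dvd).2 h))
    rw [h1, Int.emod_eq_of_lt (by positivity) (by exact_mod_cast hc)]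
    simp

end Pool.Agent.Work.MP_b0c12c_nt_univ.PRUaux

namespace Pool.Agent.Work.MP_b0c12c_nt_univ

open Finset MeasureTheory ProbabilityTheory

/-- Block PRU. -/
theorem stmt_PRU.{u} : Stmt_PRU.{u} := by
  intro Ω _ μ _ a ha hI
  set b : ℕ → Ω → ℕ := fun p ω => (a p ω % p).toNat with hb
  have hbm : ∀ p, Measurable (b p) := by
    intro p
    have h1 : Measurable (fun z : ℤ => (z % (p : ℤ)).toNat) := measurable_from_top
    exact h1.comp (ha p)
  have hbI : iIndepFun b μ := by
    have h1 : ∀ p : ℕ, Measurable (fun z : ℤ => (z % (p : ℤ)).toNat) := fun p => measurable_from_top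
    exact hI.comp (fun p z => (z % (p : ℤ)).toNat) h1
  have hset : ∀ p : ℕ, p.Prime → ∀ c ∈ range p, {ω | b p ω = c} = {ω | (p : ℤ) ∣ a p ω - c} := by
    intro p hp c hc
    ext ω
    simp only [Set.mem_ofPred_eq, hb]
    exact PRUaux.res_eq_iff hp.pos (mem_range.1 hc) (a p ω)
  have hmem : ∀ p : ℕ, p.Prime → ∀ ω, b p ω ∈ range p := by
    intro p hp ω
    have hp' : (p : ℤ) ≠ 0 := by exact_mod_cast hp.ne_zero
    have h0 : 0 ≤ a p ω % p := Int.emod_nonneg _ hp'
    have h1 : a p ω % p < p := Int.emod_lt_of_pos _ (by exact_mod_cast hp.pos)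
    rw [mem_range]
    simp only [hb]
    omega
  refine ⟨⟨?_, ?_⟩, ?_⟩
  · intro p c _
    unfold resπ
    split_ifs
    · exact measureReal_nonneg
    · exact zero_le_one
  · intro p
    by_cases hp : p.Prime
    · unfold resV
      rw [if_pos hp]
      have h1 : ∀ c ∈ range p, resπ μ a p c = μ.real {ω | b p ω = c} := by
        intro c hc
        unfold resπ
        rw [if_pos hp, hset p hp c hc]
      rw [sum_congr rfl h1, ← measureReal_biUnion_finset]
      · have h2 : (⋃ c ∈ range p, {ω | b p ω = c}) = Set.univ := by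
          ext ω
          simp only [Set.mem_iUnion, Set.mem_univ, iff_true, exists_prop]
          exact ⟨b p ω, hmem p hp ω, rfl⟩
        rw [h2]
        simp
      · intro s _ t _ hst
        rw [Function.onFun, Set.disjoint_left]
        intro ω h1 h2
        exact hst (h1.symm.trans h2)
      · intro c _
        exact hbm p (measurableSet_singleton c)
    · unfold resV
      rw [if_neg hp]
      unfold resπ
      simp [hp]
  · intro T hT S hS
    refine ⟨PRUaux.meas hbm T S hS, ?_⟩
    have h := PRUaux.claim hbm hbI resV (resπ μ a) T ∅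
      (by
        intro p hp ω
        rw [union_empty] at hp
        unfold resV
        rw [if_pos (hT p hp)]
        exact hmem p (hT p hp) ω)
      (by
        intro p hp c hc
        rw [union_empty] at hp
        unfold resV at hc
        rw [if_pos (hT p hp)] at hc
        unfold resπ
        rw [if_pos (hT p hp), hset p (hT p hp) c hc])
      (Finset.disjoint_empty_right T) (fun _ => 0) (by simp) S (by simpa using hS)
    simpa using h

end Pool.Agent.Work.MP_b0c12c_nt_univ
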