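import Mathlib
import Pool.Agent.Work.MP_b0c12c_nt_univ.Interface

/-!
# Block DIS: distinct values among `s` copies
-/

set_option autoImplicit false

namespace Pool.Agent.Work.MP_b0c12c_nt_univ

open Finset Filter

theorem stmt_DIS : Stmt_DIS := by
  intro δ hδ hδ2
  set m : ℝ := 1 / 2 - δ with hm
  have hm0 : 0 < m := by linarith
  have hr0 : 0 ≤ 1 - m := by linarith
  have hr1 : 1 - m < 1 := by linarith
  -- choose s
  have hlt : 0 < 1 - (2 + 3 * δ) * m := by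
    rw [hm]
    nlinarith
  obtain ⟨s, hs⟩ := exists_pow_lt_of_lt_one hlt hr1
  refine ⟨s + 1, Nat.succ_pos s, ?_⟩
  have hs' : (1 - m) ^ (s + 1) ≤ 1 - (2 + 3 * δ) * m := by
    refine le_trans ?_ hs.le
    exact pow_le_pow_of_le_one hr0 hr1.le (Nat.le_succ s)
  intro T π hπ hsum
  have key : ∀ a ∈ T, (2 + 3 * δ) * π a ≤ 1 - (1 - π a) ^ (s + 1) := by
    intro a ha
    obtain ⟨h0, h1⟩ := hπ a ha
    set lam : ℝ := π a / m with hlam
    have hl0 : 0 ≤ lam := div_nonneg h0 hm0.le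
    have hl1 : lam ≤ 1 := (div_le_one hm0).2 h1
    have hla : lam * m = π a := div_mul_cancel₀ _ hm0.ne'
    have hconv := (convexOn_pow (𝕜 := ℝ) (s + 1)).2 (show (1 - m) ∈ Set.Ici (0 : ℝ) from hr0)
      (show (1 : ℝ) ∈ Set.Ici (0 : ℝ) from Set.mem_Ici.2 zero_le_one) hl0 (by linarith : (0 : ℝ) ≤ 1 - lam)
      (by ring)
    simp only [smul_eq_mul, one_pow, mul_one] at hconv
    have h2 : lam * (1 - m) + (1 - lam) = 1 - π a := by rw [← hla]; ring
    rw [h2] at hconv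
    have h3 : lam * (1 - m) ^ (s + 1) ≤ lam * (1 - (2 + 3 * δ) * m) :=
      mul_le_mul_of_nonneg_left hs' hl0
    have h4 : lam * (1 - (2 + 3 * δ) * m) = lam - (2 + 3 * δ) * π a := by rw [← hla]; ring
    linarith
  calc 2 + 3 * δ = ∑ a ∈ T, (2 + 3 * δ) * π a := by rw [← mul_sum, hsum, mul_one]
    _ ≤ _ := sum_le_sum key

end Pool.Agent.Work.MP_b0c12c_nt_univ
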