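import Mathlib
import Pool.Agent.Work.MP_b0c12c_nt_univ.Interface
import Pool.Agent.Work.MP_b0c12c_nt_univ.Op

/-!
# The law of `s` independent copies
-/

set_option autoImplicit false

namespace Pool.Agent.Work.MP_b0c12c_nt_univ

open Finset Filter

namespace Tup

variable {s : ℕ} {V : ℕ → Finset ℕ} {π : ℕ → ℕ → ℝ}

theorem pis_nonneg (hπ : ∀ p, ∀ a ∈ V p, 0 ≤ π p a) :
    ∀ p, ∀ t ∈ Vs s V p, 0 ≤ pis s π p t := by
  intro p t ht
  unfold Vs at ht
  rw [Fintype.mem_piFinset] at ht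
  exact prod_nonneg fun i _ => hπ p _ (ht i)

theorem pis_sum (hs : ∀ p, ∑ a ∈ V p, π p a = 1) :
    ∀ p, ∑ t ∈ Vs s V p, pis s π p t = 1 := by
  intro p
  unfold Vs pis
  have h := Finset.prod_univ_sum (fun _ : Fin s => V p) (fun _ a => π p a)
  rw [← h]
  simp [hs p]

/-- one coordinate of the tuple has the law `π` -/
theorem tuple_sum {W : Finset ℕ} {ρ : ℕ → ℝ} (hs : ∑ a ∈ W, ρ a = 1) (i : Fin s) (K : ℕ → ℝ) :
    ∑ t ∈ Fintype.piFinset (fun _ : Fin s => W), (∏ j, ρ (t j)) * K (t i) =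
      ∑ a ∈ W, ρ a * K a := by
  have h := Finset.prod_univ_sum (fun _ : Fin s => W)
    (fun j a => ρ a * (if j = i then K a else 1))
  have h1 : ∀ t ∈ Fintype.piFinset (fun _ : Fin s => W),
      (∏ j, ρ (t j)) * K (t i) = ∏ j, ρ (t j) * (if j = i then K (t j) else 1) := by
    intro t _
    rw [prod_mul_distrib]
    congr 1
    rw [prod_ite_eq' univ i fun j => K (t j)]
    simp
  rw [sum_congr rfl h1, ← h, ← mul_prod_erase univ _ (mem_univ i)]
  have h2 : ∏ j ∈ univ.erase i, (∑ a ∈ W, ρ a * (if j = i then K a else 1)) = 1 := by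
    apply prod_eq_one
    intro j hj
    have hji : j ≠ i := (mem_erase.1 hj).1
    simp [hji, hs]
  rw [h2, mul_one]
  simp

/-- the probability that the tuple avoids the value `a` -/
theorem tuple_avoid {W : Finset ℕ} {ρ : ℕ → ℝ} (hs : ∑ a ∈ W, ρ a = 1) {a : ℕ} (ha : a ∈ W) :
    ∑ t ∈ Fintype.piFinset (fun _ : Fin s => W), (∏ j, ρ (t j)) * (if ∀ i, t i ≠ a then 1 else 0) =
      (1 - ρ a) ^ s := by
  have h := Finset.prod_univ_sum (fun _ : Fin s => W)
    (fun _ b => ρ b * (if b ≠ a then 1 else 0))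
  have h1 : ∀ t ∈ Fintype.piFinset (fun _ : Fin s => W),
      (∏ j, ρ (t j)) * (if ∀ i, t i ≠ a then 1 else 0) =
        ∏ j, ρ (t j) * (if t j ≠ a then 1 else 0) := by
    intro t _
    rw [prod_mul_distrib]
    congr 1
    by_cases hall : ∀ i, t i ≠ a
    · rw [if_pos hall]
      symm
      exact prod_eq_one fun j _ => if_pos (hall j)
    · rw [if_neg hall]
      push Not at hall
      obtain ⟨i, hi⟩ := hall
      symm
      exact prod_eq_zero (mem_univ i) (by simp [hi])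
  rw [sum_congr rfl h1, ← h]
  have h2 : ∑ b ∈ W, ρ b * (if b ≠ a then 1 else 0) = 1 - ρ a := by
    have h3 : ∀ b ∈ W, ρ b * (if b ≠ a then (1 : ℝ) else 0) = ρ b - (if b = a then ρ b else 0) := by
      intro b _
      by_cases hb : b = a
      · simp [hb]
      · simp [hb]
    rw [sum_congr rfl h3, sum_sub_distrib, hs, sum_ite_eq' W a]
    simp [ha]
  rw [h2]
  simp

end Tup

end Pool.Agent.Work.MP_b0c12c_nt_univ
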