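import Mathlib
import Pool.Agent.Work.MP_b0c12c_nt_univ.Tup
import Pool.Agent.Work.MP_b0c12c_nt_univ.DIS
import Pool.Agent.Work.MP_b0c12c_nt_shift.MT

/-!
# Block CHB: Chebyshev's inequality for the number of different classes
-/

set_option autoImplicit false

namespace Pool.Agent.Work.MP_b0c12c_nt_univ

open Finset Filter
open Pool.Agent.Work.MP_b0c12c_nt_shift (AA stmt_MT)

namespace CHBaux

variable {s : ℕ} {V : ℕ → Finset ℕ} {π : ℕ → ℕ → ℝ}

/-- the mass at `p` -/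
noncomputable def X (p : ℕ) (c : ℕ → Fin s → ℕ) : ℝ := (dU c p : ℝ) / p

/-- the mean of the mass at `p` -/
noncomputable def mX (s : ℕ) (V : ℕ → Finset ℕ) (π : ℕ → ℕ → ℝ) (p : ℕ) : ℝ :=
  ∑ t ∈ Vs s V p, pis s π p t * (((univ.image fun i : Fin s => t i % p).card : ℝ) / p)

theorem X_dep (p : ℕ) : DependsOn (X (s := s) p) ({p} : Set ℕ) := by
  intro c c' h
  have h1 : c p = c' p := h p (Set.mem_singleton p)
  unfold X dU
  rw [h1]

theorem E1_X (p : ℕ) (c : ℕ → Fin s → ℕ) :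
    E1 (Vs s V) (pis s π) p (X p) c = mX s V π p := by
  unfold E1 mX
  apply sum_congr rfl
  intro t _
  unfold X dU
  rw [Function.update_self]

theorem EA_X (hL : IsLaw V π) {T : Finset ℕ} {p : ℕ} (hp : p ∈ T) (c : ℕ → Fin s → ℕ) :
    EA (Vs s V) (pis s π) T (X p) c = mX s V π p := by
  rw [EA_restrict (Tup.pis_sum hL.sum_one) (X_dep p) (A' := {p}) (by simpa using hp) (by simp),
    EA_singleton, E1_X]

theorem dU_le (c : ℕ → Fin s → ℕ) (p : ℕ) : dU c p ≤ s := by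
  unfold dU
  have := card_image_le (s := (univ : Finset (Fin s))) (f := fun i : Fin s => c p i % p)
  rwa [card_univ, Fintype.card_fin] at this

theorem X_nonneg (p : ℕ) (c : ℕ → Fin s → ℕ) : 0 ≤ X p c := by
  unfold X; positivity

theorem X_le (p : ℕ) (c : ℕ → Fin s → ℕ) : X p c ≤ s / p := by
  unfold X
  apply div_le_div_of_nonneg_right _ (Nat.cast_nonneg p)
  exact_mod_cast dU_le c p

theorem mX_nonneg (hL : IsLaw V π) (p : ℕ) : 0 ≤ mX s V π p := by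
  unfold mX
  apply sum_nonneg
  intro t ht
  exact mul_nonneg (Tup.pis_nonneg hL.nonneg p t ht) (by positivity)

theorem mX_le (hL : IsLaw V π) (p : ℕ) : mX s V π p ≤ s / p := by
  have h := EA_le_const (Tup.pis_nonneg hL.nonneg) (Tup.pis_sum hL.sum_one) {p}
    (X_le (s := s) p) (fun _ _ => 0)
  rwa [EA_X hL (mem_singleton_self p)] at h

/-- the centred mass -/
noncomputable def Y (s : ℕ) (V : ℕ → Finset ℕ) (π : ℕ → ℕ → ℝ) (p : ℕ) (c : ℕ → Fin s → ℕ) : ℝ :=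
  X p c - mX s V π p

theorem Y_dep (p : ℕ) : DependsOn (Y s V π p) ({p} : Set ℕ) := by
  intro c c' h
  unfold Y
  rw [X_dep p h]

theorem EA_Y (hL : IsLaw V π) {T : Finset ℕ} {p : ℕ} (hp : p ∈ T) (c : ℕ → Fin s → ℕ) :
    EA (Vs s V) (pis s π) T (Y s V π p) c = 0 := by
  have h1 : Y s V π p = X p - fun _ => mX s V π p := rfl
  rw [h1, EA_sub, Pi.sub_apply, EA_X hL hp, EA_const (Tup.pis_sum hL.sum_one), sub_self]

theorem Y_sq_le (hL : IsLaw V π) (p : ℕ) (c : ℕ → Fin s → ℕ) :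
    Y s V π p c * Y s V π p c ≤ (s : ℝ) ^ 2 * (1 / (p : ℝ) ^ 2) := by
  have h1 := X_nonneg p c
  have h2 := X_le p c
  have h3 := mX_nonneg (s := s) hL p
  have h4 := mX_le (s := s) hL p
  have h5 : |Y s V π p c| ≤ s / p := by
    unfold Y
    rw [abs_le]
    constructor <;> linarith
  have h6 : Y s V π p c * Y s V π p c = |Y s V π p c| ^ 2 := by rw [sq_abs]; ring
  rw [h6]
  calc |Y s V π p c| ^ 2 ≤ ((s : ℝ) / p) ^ 2 := pow_le_pow_left₀ (abs_nonneg _) h5 2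
    _ = _ := by rw [div_pow]; ring

/-- the variance -/
theorem variance (hL : IsLaw V π) {T A : Finset ℕ} (hA : A ⊆ T) (c : ℕ → Fin s → ℕ) :
    EA (Vs s V) (pis s π) T (fun c => (∑ p ∈ A, Y s V π p c) ^ 2) c ≤
      (s : ℝ) ^ 2 * ∑ p ∈ A, 1 / (p : ℝ) ^ 2 := by
  have h1 : (fun c => (∑ p ∈ A, Y s V π p c) ^ 2) =
      fun c => ∑ p ∈ A, ∑ q ∈ A, Y s V π p c * Y s V π q c := by
    funext c
    rw [sq, sum_mul_sum]
  rw [h1, EA_sum]
  simp only
  rw [mul_sum]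
  apply sum_le_sum
  intro p hp
  rw [EA_sum]
  simp only
  have h2 : ∀ q ∈ A, EA (Vs s V) (pis s π) T (fun c => Y s V π p c * Y s V π q c) c =
      if q = p then EA (Vs s V) (pis s π) T (fun c => Y s V π p c * Y s V π p c) c else 0 := by
    intro q hq
    by_cases hqp : q = p
    · rw [if_pos hqp, hqp]
    · rw [if_neg hqp, EA_mul_indep (Tup.pis_sum hL.sum_one) (Y_dep p) (Y_dep q)]
      · simp only
        rw [EA_Y hL (hA hp), zero_mul]
      · intro r _ hr1 hr2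
        rw [Set.mem_singleton_iff] at hr1 hr2
        exact hqp (hr2 ▸ hr1 ▸ rfl)
  rw [sum_congr rfl h2, sum_ite_eq' A p, if_pos hp]
  exact EA_le_const (Tup.pis_nonneg hL.nonneg) (Tup.pis_sum hL.sum_one) T (Y_sq_le hL p) c

theorem sum_inv_sq (A : Finset ℕ) : ∑ p ∈ A, 1 / (p : ℝ) ^ 2 ≤ 2 := by
  have h1 : Summable fun n : ℕ => 1 / (n : ℝ) ^ 2 := Real.summable_one_div_nat_pow.2 (by norm_num)
  have h2 : ∑ p ∈ A, 1 / (p : ℝ) ^ 2 ≤ ∑' n : ℕ, 1 / (n : ℝ) ^ 2 :=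
    h1.sum_le_tsum A fun n _ => by positivity
  have h3 : ∑' n : ℕ, 1 / (n : ℝ) ^ 2 = Real.pi ^ 2 / 6 := hasSum_zeta_two.tsum_eq
  have h4 := Real.pi_lt_d2
  have h5 := Real.pi_pos
  rw [h3] at h2
  nlinarith

/-- the mean number of different values -/
theorem mX_ge {δ : ℝ} (hL : IsLaw V π) {p : ℕ} (hp : 0 < p) (hlt : ∀ a ∈ V p, a < p)
    (hD : ∀ (T : Finset ℕ) (ρ : ℕ → ℝ),
      (∀ a ∈ T, 0 ≤ ρ a ∧ ρ a ≤ 1 / 2 - δ) → ∑ a ∈ T, ρ a = 1 →
        2 + 3 * δ ≤ ∑ a ∈ T, (1 - (1 - ρ a) ^ s))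
    (hat : ∀ a ∈ V p, π p a ≤ 1 / 2 - δ) :
    (2 + 3 * δ) * (1 / (p : ℝ)) ≤ mX s V π p := by
  have h1 := hD (V p) (π p) (fun a ha => ⟨hL.nonneg p a ha, hat a ha⟩) (hL.sum_one p)
  have h2 : ∀ a ∈ V p, 1 - (1 - π p a) ^ s =
      ∑ t ∈ Vs s V p, pis s π p t * (if ∀ i, t i ≠ a then 0 else 1) := by
    intro a ha
    have h3 := Tup.tuple_avoid (s := s) (hL.sum_one p) ha
    have h4 := Tup.pis_sum (s := s) hL.sum_one p
    have h0 : 1 - (1 - π p a) ^ s = (∑ t ∈ Vs s V p, pis s π p t) -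
        ∑ t ∈ Fintype.piFinset (fun _ : Fin s => V p),
          (∏ j, π p (t j)) * (if ∀ i, t i ≠ a then 1 else 0) := by rw [h3, h4]
    rw [h0]
    unfold Vs pis
    rw [← sum_sub_distrib]
    apply sum_congr rfl
    intro t _
    by_cases hall : ∀ i, t i ≠ a
    · rw [if_pos hall, if_pos hall]; ring
    · rw [if_neg hall, if_neg hall]; ring
  rw [sum_congr rfl h2, sum_comm] at h1
  have h5 : ∀ t ∈ Vs s V p, ∑ a ∈ V p, pis s π p t * (if ∀ i, t i ≠ a then (0 : ℝ) else 1) =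
      pis s π p t * ((univ.image fun i : Fin s => t i % p).card : ℝ) := by
    intro t ht
    rw [← mul_sum]
    congr 1
    have h6 : (univ.image fun i : Fin s => t i % p) = (V p).filter fun a => ¬ ∀ i, t i ≠ a := by
      unfold Vs at ht
      rw [Fintype.mem_piFinset] at ht
      ext a
      rw [mem_image, mem_filter]
      constructor
      · rintro ⟨i, _, hi⟩
        rw [Nat.mod_eq_of_lt (hlt _ (ht i))] at hi
        refine ⟨hi ▸ ht i, ?_⟩
        push Not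
        exact ⟨i, hi⟩
      · rintro ⟨_, ha2⟩
        push Not at ha2
        obtain ⟨i, hi⟩ := ha2
        exact ⟨i, mem_univ i, by rw [Nat.mod_eq_of_lt (hlt _ (ht i)), hi]⟩
    rw [h6, card_filter]
    push_cast
    apply sum_congr rfl
    intro a _
    by_cases hall : ∀ i, t i ≠ a
    · rw [if_pos hall, if_neg (not_not.2 hall)]
    · rw [if_neg hall, if_pos hall]
  rw [sum_congr rfl h5] at h1
  have hp' : (0 : ℝ) < p := by exact_mod_cast hp
  have h7 : mX s V π p =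
      (∑ t ∈ Vs s V p, pis s π p t * ((univ.image fun i : Fin s => t i % p).card : ℝ)) / p := by
    unfold mX
    rw [sum_div]
    apply sum_congr rfl
    intro t _
    ring
  rw [h7, mul_one_div]
  exact div_le_div_of_nonneg_right h1 hp'.le

end CHBaux

open CHBaux in
theorem stmt_CHB : Stmt_CHB := by
  intro δ hδ hδ2
  obtain ⟨s, hs, hD⟩ := stmt_DIS δ hδ hδ2
  refine ⟨s, hs, min (1 / 10) (δ / 4), by positivity, ?_⟩
  intro κ hκ hκ0 B hB V π hC ε hε
  have hκ1 : κ ≤ 1 / 10 := hκ0.trans (min_le_left _ _)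
  have hκ2 : κ ≤ δ / 4 := hκ0.trans (min_le_right _ _)
  obtain ⟨P, hP⟩ := hC.atom
  have hL : IsLaw V π := hC.toIsLaw
  obtain ⟨C, hCC⟩ := stmt_MT.1 κ hκ hκ1 B hB
  -- the gap tends to infinity
  set G : ℝ := Real.sqrt ((s : ℝ) ^ 2 * 2 / ε) + 1 with hG
  have hG1 : 0 < G := by positivity
  have hG2 : (s : ℝ) ^ 2 * 2 / ε ≤ G ^ 2 := by
    have h1 : Real.sqrt ((s : ℝ) ^ 2 * 2 / ε) ^ 2 = (s : ℝ) ^ 2 * 2 / ε :=
      Real.sq_sqrt (by positivity)
    have h2 : 0 ≤ Real.sqrt ((s : ℝ) ^ 2 * 2 / ε) := Real.sqrt_nonneg _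
    rw [hG]
    nlinarith
  have hc : 0 < δ / (2 * (2 + 3 * δ)) := by positivity
  have hlog1 : ∀ᶠ u : ℝ in atTop, Real.log u ≤ δ / (2 * (2 + 3 * δ)) * u := by
    have h1 := Real.isLittleO_log_id_atTop.def hc
    filter_upwards [h1, eventually_ge_atTop 0] with u hu hu0
    rw [id, Real.norm_of_nonneg hu0] at hu
    exact (le_abs_self _).trans hu
  have hlog2 : ∀ᶠ u : ℝ in atTop, G + (2 + 3 * δ) * C ≤ δ / 2 * u := by
    have h1 : Tendsto (fun u : ℝ => δ / 2 * u) atTop atTop :=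
      tendsto_id.const_mul_atTop (half_pos hδ)
    exact h1.eventually_ge_atTop _
  have hlogz : Tendsto (fun z : ℕ => Real.log (z : ℝ)) atTop atTop :=
    Real.tendsto_log_atTop.comp tendsto_natCast_atTop_atTop
  have hev := hlogz.eventually (hlog1.and (hlog2.and (eventually_ge_atTop 0)))
  obtain ⟨z0, hz0⟩ := eventually_atTop.1 hev
  refine ⟨max z0 (max P 16), ?_⟩
  intro z hz T hAT c0
  have hz1 : z0 ≤ z := (le_max_left _ _).trans hz
  have hz2 : P ≤ z := (le_max_left _ _).trans ((le_max_right _ _).trans hz)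
  have hz3 : 16 ≤ z := (le_max_right _ _).trans ((le_max_right _ _).trans hz)
  obtain ⟨hu1, hu2, hu0⟩ := hz0 z hz1
  set u := Real.log (z : ℝ) with hu
  set A := AA κ B z 0 with hA
  have hmass := (hCC z 0 hz3 (Or.inl rfl)).1
  rw [← hA, ← hu] at hmass
  have hAp : ∀ p ∈ A, p.Prime ∧ P ≤ p := by
    intro p hp
    rw [hA] at hp
    unfold AA at hp
    rw [mem_erase, mem_filter, mem_Ioc] at hp
    refine ⟨hp.2.2, ?_⟩
    have h1 : z ≤ z ^ B := Nat.le_self_pow (by omega) z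
    omega
  -- the mean
  have hmean : (2 + 3 * δ) * ∑ p ∈ A, 1 / (p : ℝ) ≤ ∑ p ∈ A, mX s V π p := by
    rw [mul_sum]
    apply sum_le_sum
    intro p hp
    obtain ⟨hp1, hp2⟩ := hAp p hp
    exact mX_ge hL hp1.pos (hC.lt p hp1) hD (hP p hp1 hp2)
  have hgap : (2 + δ) * u + G ≤ ∑ p ∈ A, mX s V π p := by
    have h23 : 0 < 2 + 3 * δ := by positivity
    have h1 : (2 + 3 * δ) * ((1 - κ) * u - Real.log u - C) ≤ ∑ p ∈ A, mX s V π p :=
      (mul_le_mul_of_nonneg_left hmass h23.le).trans hmean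
    have h2 : (2 + 3 * δ) * Real.log u ≤ δ / 2 * u := by
      have := mul_le_mul_of_nonneg_left hu1 h23.le
      have h3 : (2 + 3 * δ) * (δ / (2 * (2 + 3 * δ)) * u) = δ / 2 * u := by
        field_simp
      linarith
    have h3 : (2 + 3 * δ) * ((1 - δ / 4) * u) ≤ (2 + 3 * δ) * ((1 - κ) * u) := by
      apply mul_le_mul_of_nonneg_left _ h23.le
      apply mul_le_mul_of_nonneg_right _ hu0
      linarith
    have h4 : (2 + 3 / 2 * δ) * u ≤ (2 + 3 * δ) * ((1 - δ / 4) * u) - δ / 2 * u := by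
      have h5 : 0 ≤ δ * u * (1 / 2 - δ) := mul_nonneg (mul_nonneg hδ.le hu0) (by linarith)
      nlinarith [mul_nonneg hδ.le hu0]
    nlinarith
  -- Chebyshev
  have hcheb : ∀ c : ℕ → Fin s → ℕ,
      ind {c : ℕ → Fin s → ℕ | ¬ (2 + δ) * u ≤ ∑ p ∈ A, (dU c p : ℝ) / p} c ≤
        1 / G ^ 2 * (∑ p ∈ A, Y s V π p c) ^ 2 := by
    intro c
    by_cases h : c ∈ {c : ℕ → Fin s → ℕ | ¬ (2 + δ) * u ≤ ∑ p ∈ A, (dU c p : ℝ) / p}
    · rw [ind_of_mem h]
      have h1 : ∑ p ∈ A, (dU c p : ℝ) / p < (2 + δ) * u := not_le.1 h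
      have h2 : ∑ p ∈ A, Y s V π p c = ∑ p ∈ A, (dU c p : ℝ) / p - ∑ p ∈ A, mX s V π p := by
        rw [← sum_sub_distrib]
        rfl
      have h3 : ∑ p ∈ A, Y s V π p c ≤ -G := by linarith
      have h4 : G ^ 2 ≤ (∑ p ∈ A, Y s V π p c) ^ 2 := by nlinarith
      rw [one_div, inv_mul_eq_div, le_div_iff₀ (by positivity), one_mul]
      exact h4
    · rw [ind_of_not_mem h]
      positivity
  calc EA (Vs s V) (pis s π) T
        (ind {c | ¬ (2 + δ) * u ≤ ∑ p ∈ A, (dU c p : ℝ) / p}) c0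
      ≤ EA (Vs s V) (pis s π) T (fun c => 1 / G ^ 2 * (∑ p ∈ A, Y s V π p c) ^ 2) c0 :=
        EA_mono (Tup.pis_nonneg hL.nonneg) T hcheb c0
    _ = 1 / G ^ 2 * EA (Vs s V) (pis s π) T (fun c => (∑ p ∈ A, Y s V π p c) ^ 2) c0 := by
        rw [EA_const_mul]
    _ ≤ 1 / G ^ 2 * ((s : ℝ) ^ 2 * 2) := by
        apply mul_le_mul_of_nonneg_left _ (by positivity)
        refine (variance hL hAT c0).trans ?_
        exact mul_le_mul_of_nonneg_left (sum_inv_sq A) (by positivity)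
    _ ≤ ε := by
        rw [div_le_iff₀ hε] at hG2
        rw [one_div, inv_mul_eq_div, div_le_iff₀ (by positivity)]
        linarith

end Pool.Agent.Work.MP_b0c12c_nt_univ
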