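import Mathlib
import Pool.Agent.Work.MP_b0c12c_nt_univ.Interface
import Pool.Agent.Work.MP_b0c12c_nt_univ.Op
import Pool.Agent.Work.MP_b0c12c_nt_helper63.BlockD

/-!
# Final assembly (adapted from the block FIN of the shift project)
-/

set_option autoImplicit false

namespace Pool.Agent.Work.MP_b0c12c_nt_univ.FINU

open Finset Filter MeasureTheory ProbabilityTheory Topology
open Pool.Agent.Work.MP_b0c12c_nt_helper63 (limsupOfWindows)
open Pool.Agent.Work.MP_b0c12c_nt_shift (PX)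

/-- The integers `n ≥ 2` which are not congruent to `u p` modulo `p` for any prime `p ≤ √n`. -/
def Sieve (u : ℕ → ℤ) : Set ℕ :=
  {n | 2 ≤ n ∧ ∀ p : ℕ, p.Prime → p * p ≤ n → ¬ (n : ℤ) ≡ u p [ZMOD p]}

/-- `limsup (q_{k+1} - q_k) / (log q_k)^2` -/
noncomputable def gapLim (Q : Set ℕ) : EReal :=
  limsup (fun k : ℕ =>
      ((((Nat.nth (· ∈ Q) (k + 1) : ℝ) - (Nat.nth (· ∈ Q) k : ℝ)) /
        Real.log (Nat.nth (· ∈ Q) k) ^ 2 : ℝ) : EReal)) atTop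

theorem le_gapLim_of {Q : Set ℕ} {c : ℝ}
    (h : ∀ n : ℕ, ((c * (1 - 1 / ((n : ℝ) + 2)) : ℝ) : EReal) ≤ gapLim Q) :
    ((c : ℝ) : EReal) ≤ gapLim Q := by
  have h1 : Tendsto (fun n : ℕ => c * (1 - 1 / ((n : ℝ) + 2))) atTop (𝓝 (c * (1 - 0))) := by
    apply Tendsto.const_mul
    apply Tendsto.const_sub
    apply tendsto_const_nhds.div_atTop
    exact tendsto_atTop_add_const_right _ _ tendsto_natCast_atTop_atTop
  rw [sub_zero, mul_one] at h1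
  have h2 := (continuous_coe_real_ereal.tendsto c).comp h1
  exact le_of_tendsto' h2 h

variable {Ω : Type*} [MeasurableSpace Ω] {μ : Measure Ω} [IsProbabilityMeasure μ]
  {a : ℕ → Ω → ℤ}

/-- the residue classes as natural numbers -/
def res (a : ℕ → Ω → ℤ) (ω : Ω) : ℕ → ℕ := fun p => (a p ω % p).toNat

theorem res_modEq {p : ℕ} (hp : p.Prime) (ω : Ω) (n : ℕ) :
    n ≡ res a ω p [MOD p] ↔ (n : ℤ) ≡ a p ω [ZMOD p] := by
  have hp0 : (0 : ℤ) < p := by exact_mod_cast hp.pos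
  have h1 : ((res a ω p : ℕ) : ℤ) = a p ω % p := Int.toNat_of_nonneg (Int.emod_nonneg _ hp0.ne')
  rw [← Int.natCast_modEq_iff, h1]
  constructor
  · intro h; exact h.trans (Int.mod_modEq _ _)
  · intro h; exact h.trans (Int.mod_modEq _ _).symm

theorem SU_eq (ω : Ω) : SU (res a ω) = Sieve fun p => a p ω := by
  ext n
  simp only [SU, Sieve, Set.mem_ofPred_eq]
  constructor
  · rintro ⟨h1, h2⟩
    exact ⟨h1, fun p hp hpn h => h2 p hp hpn ((res_modEq hp ω n).2 h)⟩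
  · rintro ⟨h1, h2⟩
    exact ⟨h1, fun p hp hpn h => h2 p hp hpn ((res_modEq hp ω n).1 h)⟩

theorem mem_PX {x p : ℕ} (hp : p.Prime) : p ∈ PX x ↔ p * p ≤ x := by
  unfold PX
  rw [mem_filter, mem_Icc, Nat.le_sqrt]
  have := hp.one_lt
  constructor
  · rintro ⟨⟨_, h⟩, _⟩; exact h
  · intro h; exact ⟨⟨by omega, h⟩, hp⟩

theorem prime_of_mem_PX (x : ℕ) : ∀ p ∈ PX x, p.Prime := by
  intro p hp
  unfold PX at hp
  exact (mem_filter.1 hp).2

theorem dep_fail (x U : ℕ) :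
    DependsOn (ind {w : ℕ → ℕ | ∀ N : ℕ, x ≤ N → N + U ≤ 2 * x →
        ∃ n ∈ Ioc (N + 1) (N + U), ∀ p : ℕ, p.Prime → p * p ≤ x → ¬ n ≡ w p [MOD p]})
      (PX x : Set ℕ) := by
  apply ind_dependsOn
  intro v w hvw hv N h1 h2
  obtain ⟨n, hn, h3⟩ := hv N h1 h2
  refine ⟨n, hn, fun p hp hpx h => ?_⟩
  apply h3 p hp hpx
  rw [hvw p ((mem_PX hp).2 hpx)]
  exact h

theorem dep_none (x : ℕ) :
    DependsOn (ind {w : ℕ → ℕ | ∀ n ∈ Ioc x (2 * x), n ∉ SU w}) (PX (2 * x) : Set ℕ) := by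
  apply ind_dependsOn
  intro v w hvw hv n hn hw
  apply hv n hn
  refine ⟨hw.1, fun p hp hpn => ?_⟩
  rw [mem_Ioc] at hn
  rw [hvw p ((mem_PX hp).2 (by omega))]
  exact hw.2 p hp hpn

theorem ae_of_small {P : Ω → Prop} (h : ∀ δ : ℝ, 0 < δ → μ.real {ω | ¬ P ω} ≤ δ) :
    ∀ᵐ ω ∂μ, P ω := by
  have h1 : μ.real {ω | ¬ P ω} ≤ 0 := le_of_forall_pos_le_add fun δ hδ => by
    have := h δ hδ
    linarith
  rw [ae_iff]
  have h2 : μ.real {ω | ¬ P ω} = 0 := le_antisymm h1 measureReal_nonneg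
  rwa [measureReal_eq_zero_iff] at h2

/-- the law of the classes -/
theorem cLaw (hLaw : IsLaw resV (resπ μ a)) {δ : ℝ}
    (hatom : ∀ᶠ p : ℕ in atTop, p.Prime → ∀ c : ℤ,
      μ.real {ω | a p ω ≡ c [ZMOD p]} ≤ 1 / 2 - δ) : CLaw resV (resπ μ a) δ := by
  refine { toIsLaw := hLaw, lt := ?_, atom := ?_ }
  · intro p hp c hc
    unfold resV at hc
    rw [if_pos hp, mem_range] at hc
    exact hc
  · obtain ⟨P, hP⟩ := eventually_atTop.1 hatom
    refine ⟨P, fun p hp hPp c _ => ?_⟩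
    unfold resπ
    rw [if_pos hp]
    refine le_trans (le_of_eq ?_) (hP p hPp hp c)
    congr 1
    ext ω
    simp only [Set.mem_ofPred_eq]
    rw [Int.modEq_comm, Int.modEq_iff_dvd]

theorem main (hSC : Stmt_SCA) (hIN : Stmt_INU)
    (hLaw : IsLaw resV (resπ μ a))
    (hPR : ∀ (T : Finset ℕ), (∀ p ∈ T, p.Prime) → ∀ S : Set (ℕ → ℕ),
      DependsOn (ind S) (T : Set ℕ) →
      μ.real {ω | res a ω ∈ S} = EA resV (resπ μ a) T (ind S) (fun _ => 0))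
    {δ : ℝ} (hδ : 0 < δ)
    (hatom : ∀ᶠ p : ℕ in atTop, p.Prime → ∀ c : ℤ,
      μ.real {ω | a p ω ≡ c [ZMOD p]} ≤ 1 / 2 - δ) :
    ∀ᵐ ω ∂μ, (Sieve fun p => a p ω).Infinite ∧
      ((Real.exp (-Real.eulerMascheroniConstant) : ℝ) : EReal) ≤
        gapLim (Sieve fun p => a p ω) := by
  have hC := cLaw hLaw hatom
  -- the set is infinite
  have hinf : ∀ n0 : ℕ, ∀ᵐ ω ∂μ, ∃ n, n0 < n ∧ n ∈ SU (res a ω) := by
    intro n0
    apply ae_of_small
    intro ε hε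
    obtain ⟨x0, hx0⟩ := hIN resV (resπ μ a) δ hδ.le hC ε hε
    have h1 := hx0 (max x0 n0) (le_max_left _ _)
    rw [← hPR _ (prime_of_mem_PX _) _ (dep_none _)] at h1
    refine le_trans (measureReal_mono ?_) h1
    intro ω hω n hn hns
    apply hω
    rw [mem_Ioc] at hn
    exact ⟨n, lt_of_le_of_lt (le_max_right _ _) hn.1, hns⟩
  -- windows
  have hwin : ∀ g : ℝ, 0 < g → g < Real.exp (-Real.eulerMascheroniConstant) →
      ∀ n0 : ℕ, ∀ᵐ ω ∂μ, ∃ x : ℝ, (n0 : ℝ) ≤ x ∧ ∃ t : ℕ, x ≤ (t : ℝ) ∧ (t : ℝ) ≤ 4 * x ∧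
        ∀ m : ℕ, t < m → (m : ℝ) ≤ t + g * Real.log x ^ 2 → m ∉ SU (res a ω) := by
    intro g hg0 hg n0
    apply ae_of_small
    intro ε hε
    obtain ⟨x, U, hx0, hU, h1⟩ := hSC resV (resπ μ a) δ hδ hC g hg0 hg ε hε (n0 + 1)
    rw [← hPR _ (prime_of_mem_PX _) _ (dep_fail x U)] at h1
    refine le_trans (measureReal_mono ?_) h1
    intro ω hω N hN1 hN2
    by_contra hcon
    push Not at hcon
    apply hω
    refine ⟨x, by exact_mod_cast (by omega : n0 ≤ x), N + 1, ?_, ?_, ?_⟩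
    · exact_mod_cast (by omega : x ≤ N + 1)
    · exact_mod_cast (by omega : N + 1 ≤ 4 * x)
    · intro m hm1 hm2 hms
      have hm3 : m ≤ N + U := by
        have : (m : ℝ) ≤ ((N + U : ℕ) : ℝ) := by
          push_cast at hm2 ⊢
          linarith
        exact_mod_cast this
      obtain ⟨p, hp, hpx, hpm⟩ := hcon m (by rw [mem_Ioc]; omega)
      exact hms.2 p hp (by omega) hpm
  have hc : 0 < Real.exp (-Real.eulerMascheroniConstant) := by positivity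
  have hwin' : ∀ᵐ ω ∂μ, ∀ k n0 : ℕ, ∃ x : ℝ, (n0 : ℝ) ≤ x ∧ ∃ t : ℕ, x ≤ (t : ℝ) ∧
      (t : ℝ) ≤ 4 * x ∧ ∀ m : ℕ, t < m →
        (m : ℝ) ≤ t + (Real.exp (-Real.eulerMascheroniConstant) * (1 - 1 / ((k : ℝ) + 2))) *
          Real.log x ^ 2 → m ∉ SU (res a ω) := by
    rw [ae_all_iff]
    intro k
    rw [ae_all_iff]
    intro n0
    have hk0 : (0 : ℝ) ≤ k := Nat.cast_nonneg k
    have hk1 : 0 < 1 - 1 / ((k : ℝ) + 2) := by
      rw [sub_pos, div_lt_one (by linarith)]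
      linarith
    apply hwin
    · positivity
    · have : 0 < 1 / ((k : ℝ) + 2) := by positivity
      nlinarith
  filter_upwards [ae_all_iff.2 hinf, hwin'] with ω h1 h2
  have hI' : (SU (res a ω)).Infinite := by
    rw [Set.infinite_iff_exists_gt]
    intro b
    obtain ⟨n, h3, h4⟩ := h1 b
    exact ⟨n, h4, h3⟩
  rw [← SU_eq]
  refine ⟨hI', ?_⟩
  apply le_gapLim_of
  intro k
  have hk0 : (0 : ℝ) ≤ k := Nat.cast_nonneg k
  have hk1 : 0 < 1 - 1 / ((k : ℝ) + 2) := by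
    rw [sub_pos, div_lt_one (by linarith)]
    linarith
  refine limsupOfWindows _ hI' _ (by positivity) ?_
  intro y
  obtain ⟨x, h3, h4⟩ := h2 k ⌈y⌉₊
  exact ⟨x, (Nat.le_ceil y).trans h3, h4⟩

end Pool.Agent.Work.MP_b0c12c_nt_univ.FINU
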