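import Pool.Agent.Work.MP_b0c12c_nt_univ.Interface
import Pool.Agent.Work.MP_b0c12c_nt_univ.INUa
import Pool.Agent.Work.MP_b0c12c_nt_univ.INUb

/-!
Block INU: with probability tending to one `(x, 2x]` contains a member of the random set.

The primes up to `W = exp (sqrt (log x))` are fixed. By the sieve there are at least `x Q / 2`
survivors, and at most `C (x / p) Q` in each class modulo a larger prime `p`
(`Q` = Mertens product), so the mean of the mass at the larger primes over the survivors is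
`O(loglog x)`; the second moment does the rest.
-/

set_option autoImplicit false

namespace Pool.Agent.Work.MP_b0c12c_nt_univ

open Finset Filter
open Pool.Agent.Work.MP_b0c12c_nt_shift (PX)

namespace INUaux

variable {V : ℕ → Finset ℕ} {π : ℕ → ℕ → ℝ}

open Classical in
/-- the survivors of the primes up to `W` -/
noncomputable def S1 (x W : ℕ) (v : ℕ → ℕ) : Finset ℕ :=
  (Ioc x (2 * x)).filter fun n => ∀ p ∈ Pr W, ¬ n ≡ v p [MOD p]

theorem mul_exp_neg_le (t : ℝ) : Real.exp (-t) * t ≤ 1 := by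
  have h1 := Real.add_one_le_exp t
  have h2 : Real.exp (-t) * Real.exp t = 1 := by rw [← Real.exp_add]; simp
  have h3 := Real.exp_pos (-t)
  nlinarith

theorem PP_le_exp (hπ : IsLaw V π) (T : Finset ℕ) (n : ℕ) :
    PP V π T n ≤ Real.exp (-∑ p ∈ T, rp V π p n) := by
  unfold PP
  rw [← sum_neg_distrib, Real.exp_sum]
  apply Finset.prod_le_prod
  · intro p _
    linarith [rp_le_one hπ p n]
  · intro p _
    have := Real.add_one_le_exp (-(rp V π p n))
    linarith

theorem PP_ge_exp (hπ : IsLaw V π) (T : Finset ℕ) (n : ℕ) (h : ∀ p ∈ T, rp V π p n ≤ 1 / 2) :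
    Real.exp (-(2 * ∑ p ∈ T, rp V π p n)) ≤ PP V π T n := by
  unfold PP
  rw [mul_sum, ← sum_neg_distrib, Real.exp_sum]
  apply Finset.prod_le_prod
  · intro p _
    positivity
  · intro p hp
    exact Pool.Agent.Work.MP_18694c_nt.one_sub_ge_exp (rp_nonneg hπ p n) (h p hp)

/-- tangent line -/
theorem sum_PP_ge (hπ : IsLaw V π) (T S : Finset ℕ) (h : ∀ n ∈ S, ∀ p ∈ T, rp V π p n ≤ 1 / 2)
    (μ : ℝ) (hμ : ∑ n ∈ S, ∑ p ∈ T, rp V π p n ≤ S.card * μ) :
    S.card * Real.exp (-(2 * μ)) ≤ ∑ n ∈ S, PP V π T n := by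
  have h1 : ∀ n ∈ S, Real.exp (-(2 * μ)) * (1 + 2 * μ - 2 * ∑ p ∈ T, rp V π p n) ≤
      PP V π T n := by
    intro n hn
    refine le_trans ?_ (PP_ge_exp hπ T n (h n hn))
    have h2 := Real.add_one_le_exp (2 * μ - 2 * ∑ p ∈ T, rp V π p n)
    calc Real.exp (-(2 * μ)) * (1 + 2 * μ - 2 * ∑ p ∈ T, rp V π p n)
        ≤ Real.exp (-(2 * μ)) * Real.exp (2 * μ - 2 * ∑ p ∈ T, rp V π p n) := by
          apply mul_le_mul_of_nonneg_left _ (Real.exp_pos _).le
          linarith
      _ = Real.exp (-(2 * ∑ p ∈ T, rp V π p n)) := by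
          rw [← Real.exp_add]
          congr 1
          ring
  refine le_trans ?_ (sum_le_sum h1)
  rw [← mul_sum, sum_sub_distrib, sum_const, nsmul_eq_mul, ← mul_sum, mul_comm]
  apply mul_le_mul_of_nonneg_left _ (Real.exp_pos _).le
  linarith

open Classical in
/-- the mass of the large primes over the survivors -/
theorem mass_le (hπ : IsLaw V π) (T S : Finset ℕ) (B : ℕ → ℝ)
    (h : ∀ p ∈ T, ∀ a : ℕ, ((S.filter fun n => n ≡ a [MOD p]).card : ℝ) ≤ B p) :
    ∑ n ∈ S, ∑ p ∈ T, rp V π p n ≤ ∑ p ∈ T, B p := by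
  rw [sum_comm]
  apply sum_le_sum
  intro p hp
  unfold rp
  rw [sum_comm]
  calc ∑ a ∈ V p, ∑ n ∈ S, (if n ≡ a [MOD p] then π p a else 0)
      = ∑ a ∈ V p, π p a * ((S.filter fun n => n ≡ a [MOD p]).card : ℝ) := by
        apply sum_congr rfl
        intro a _
        rw [← sum_filter, sum_const, nsmul_eq_mul, mul_comm]
    _ ≤ ∑ a ∈ V p, π p a * B p := by
        apply sum_le_sum
        intro a ha
        exact mul_le_mul_of_nonneg_left (h p hp a) (hπ.nonneg p a ha)
    _ = B p := by rw [← sum_mul, hπ.sum_one, one_mul]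

theorem mem_PX {x p : ℕ} : p ∈ PX x ↔ p.Prime ∧ p * p ≤ x := by
  unfold PX
  rw [mem_filter, mem_Icc, Nat.le_sqrt]
  constructor
  · rintro ⟨⟨_, h1⟩, h2⟩
    exact ⟨h2, h1⟩
  · rintro ⟨h1, h2⟩
    exact ⟨⟨h1.one_lt.le, h2⟩, h1⟩

open Classical in
theorem core {δ : ℝ} (hδ : 0 ≤ δ) (hV : CLaw V π δ) {ε : ℝ} (hε : 0 < ε) : ∃ x0 : ℕ, ∀ x : ℕ, x0 ≤ x →
    ∃ W : ℕ, ∀ v : ℕ → ℕ,
    EA V π ((PX (2 * x)) \ (PX (2 * x)).filter (fun p => p ≤ W))
      (ind {w | ∀ n ∈ S1 x W v, w ∉ Av ((PX (2 * x)) \ (PX (2 * x)).filter (fun p => p ≤ W)) n}) v ≤ ε := by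
  have hπ : IsLaw V π := hV.toIsLaw
  obtain ⟨P, hP⟩ := hV.atom
  obtain ⟨C1, hC1, hsum⟩ := sum_Pr
  obtain ⟨xa, hlow⟩ := surv_low
  obtain ⟨C, hC, D, hD2, hup⟩ := surv_up
  set K1 : ℝ := 2 * (1 + 4 * C) with hK1
  set K2 : ℝ := 2 * ((2 + 4 * C) * C1) with hK2
  set K3 : ℝ := Real.log (8 * C / ε) + K2 with hK3
  have hK1pos : 0 < K1 := by positivity
  have hll : Tendsto (fun x : ℕ => Real.log (Real.log (x : ℝ))) atTop atTop :=
    Real.tendsto_log_atTop.comp (Real.tendsto_log_atTop.comp tendsto_natCast_atTop_atTop)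
  obtain ⟨x0, hx0⟩ := eventually_atTop.mp
    ((hll.eventually_ge_atTop (100 + 4 * C1 + 8 * (K1 + 1) + |K3| + P + 2 * D)).and
      ((eventually_ge_atTop 3).and (eventually_ge_atTop xa)))
  refine ⟨x0, ?_⟩
  intro x hx
  obtain ⟨h1, h4, hxa⟩ := hx0 x hx
  set l : ℝ := Real.log (x : ℝ) with hl
  set ll : ℝ := Real.log l with hlldef
  have hP0 : (0 : ℝ) ≤ P := by positivity
  have hD0 : (0 : ℝ) ≤ D := by positivity
  have hK30 := abs_nonneg K3
  have hK31 := le_abs_self K3
  have hxpos : (0 : ℝ) < x := by exact_mod_cast (by omega : 0 < x)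
  have hl1 : 1 < l := by
    by_contra hcon
    have h5 : 0 < l := by
      rw [hl]
      exact Real.log_pos (by exact_mod_cast (by omega : 1 < x))
    have : ll ≤ 0 := Real.log_nonpos h5.le (not_lt.mp hcon)
    linarith
  have hl0 : 0 < l := by linarith
  have hexpll : Real.exp ll = l := Real.exp_log hl0
  have hxe : (x : ℝ) = Real.exp l := (Real.exp_log hxpos).symm
  -- the square root
  set r : ℝ := Real.sqrt l with hr
  have hr2 : r * r = l := Real.mul_self_sqrt hl0.le
  have hre : r = Real.exp (ll / 2) := by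
    rw [hr, Real.sqrt_eq_iff_mul_self_eq hl0.le (Real.exp_pos _).le, ← Real.exp_add, ← hexpll]
    congr 1; ring
  have hr0 : 0 < r := by rw [hre]; exact Real.exp_pos _
  have hrq : 1 + ll / 2 + (ll / 2) ^ 2 / 2 ≤ r := by
    rw [hre]
    exact Real.quadratic_le_exp_of_nonneg (by linarith)
  have hrll : ll ≤ r := by nlinarith
  have hrK : K1 * ll + K3 ≤ r := by nlinarith
  set W : ℕ := ⌊Real.exp r⌋₊ with hW
  have hWle : (W : ℝ) ≤ Real.exp r := Nat.floor_le (Real.exp_pos _).le
  have hWlt : Real.exp r < (W : ℝ) + 1 := Nat.lt_floor_add_one _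
  have hexpr : r + 1 ≤ Real.exp r := Real.add_one_le_exp r
  have hWP : (P : ℝ) + 3 ≤ W := by linarith
  have hW3 : 3 ≤ W := by
    have : (3 : ℝ) ≤ W := by linarith
    exact_mod_cast this
  have hWPn : P ≤ W := by
    have : (P : ℝ) ≤ W := by linarith
    exact_mod_cast this
  have hW2 : 2 ≤ W := by omega
  have hWpos : (0 : ℝ) < W := by exact_mod_cast (by omega : 0 < W)
  have hWhalf : Real.exp r / 2 ≤ W := by
    have : (1 : ℝ) ≤ W := by linarith
    linarith
  refine ⟨W, fun v => ?_⟩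
  set T : Finset ℕ := (PX (2 * x)) \ (PX (2 * x)).filter (fun p => p ≤ W) with hT
  have hmemT : ∀ p ∈ T, p.Prime ∧ p * p ≤ 2 * x ∧ W < p := by
    intro p hp
    rw [hT, Finset.mem_sdiff, mem_filter] at hp
    obtain ⟨h5, h6⟩ := hp
    obtain ⟨h7, h8⟩ := mem_PX.1 h5
    refine ⟨h7, h8, ?_⟩
    by_contra h9
    exact h6 ⟨h5, by omega⟩
  -- sizes
  have hpx : ∀ p ∈ T, p ≤ x := by
    intro p hp
    obtain ⟨_, h6, h7⟩ := hmemT p hp
    by_contra h8
    have : 3 * p ≤ p * p := Nat.mul_le_mul_right p (by omega)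
    omega
  have hWD : ∀ p ∈ T, W ^ D * p ≤ x := by
    intro p hp
    obtain ⟨_, h6, h7⟩ := hmemT p hp
    have h8 : (2 : ℝ) * (W : ℝ) ^ (2 * D) ≤ x := by
      have h9 : (2 : ℝ) ≤ Real.exp 1 := by
        have := Real.add_one_le_exp (1 : ℝ)
        linarith
      calc (2 : ℝ) * (W : ℝ) ^ (2 * D) ≤ Real.exp 1 * (Real.exp r) ^ (2 * D) := by gcongr
        _ = Real.exp (1 + 2 * D * r) := by
            rw [← Real.exp_nat_mul, ← Real.exp_add]
            push_cast
            ring_nf
        _ ≤ Real.exp l := by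
            apply Real.exp_le_exp.2
            rw [← hr2]
            have : 2 * (D : ℝ) + 1 ≤ r := by linarith
            nlinarith
        _ = x := hxe.symm
    have h8' : 2 * W ^ (2 * D) ≤ x := by exact_mod_cast h8
    have h10 : (W ^ D * p) * (W ^ D * p) ≤ x * x := by
      calc (W ^ D * p) * (W ^ D * p) = W ^ (2 * D) * (p * p) := by ring
        _ ≤ W ^ (2 * D) * (2 * x) := Nat.mul_le_mul_left _ h6
        _ = (2 * W ^ (2 * D)) * x := by ring
        _ ≤ x * x := Nat.mul_le_mul_right _ h8'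
    exact Nat.mul_self_le_mul_self_iff.1 h10
  set S : Finset ℕ := S1 x W v with hS
  have hScard : (x : ℝ) * QW W / 2 ≤ (S.card : ℝ) := hlow x hxa W hW2 hWle v
  have hSx : (S.card : ℝ) ≤ x := by
    have h5 : S.card ≤ x := by
      have := card_filter_le (Ioc x (2 * x)) fun n => ∀ p ∈ Pr W, ¬ n ≡ v p [MOD p]
      rw [Nat.card_Ioc] at this
      rw [hS]
      unfold S1
      omega
    exact_mod_cast h5
  have hSmem : ∀ n ∈ S, n ∈ Ioc x (2 * x) ∧ ∀ p ∈ Pr W, ¬ n ≡ v p [MOD p] := by
    intro n hn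
    exact mem_filter.1 hn
  have hclass : ∀ p ∈ T, ∀ a : ℕ, ((S.filter fun n => n ≡ a [MOD p]).card : ℝ) ≤ C * (x / p) * QW W := by
    intro p hp a
    obtain ⟨h5, h6, h7⟩ := hmemT p hp
    apply hup p W x h5 h7 hW3 (hWD p hp) v a
    intro n hn
    rw [mem_filter] at hn
    exact ⟨(hSmem n hn.1).1, hn.2, (hSmem n hn.1).2⟩
  have hQ0 := QW_pos W
  have hQ1 : QW W ≤ 1 := by
    unfold QW
    apply prod_le_one
    · intro p hp
      have hp2 : (2 : ℝ) ≤ p := by exact_mod_cast (mem_filter.1 hp).2.two_le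
      have : 1 / (p : ℝ) ≤ 1 := by
        rw [div_le_one (by linarith)]
        linarith
      linarith
    · intro p _
      have : 0 ≤ 1 / (p : ℝ) := by positivity
      linarith
  -- the mass
  have hinv : ∑ p ∈ T, 1 / (p : ℝ) ≤ ll + C1 := by
    refine le_trans ?_ (hsum x (by omega))
    apply sum_le_sum_of_subset_of_nonneg
    · intro p hp
      exact mem_filter.2 ⟨mem_Icc.2 ⟨(hmemT p hp).1.one_lt.le, hpx p hp⟩, (hmemT p hp).1⟩
    · intro p _ _
      positivity
  set μ : ℝ := 2 * C * (ll + C1) with hμ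
  have hmass : ∑ n ∈ S, ∑ p ∈ T, rp V π p n ≤ S.card * μ := by
    refine (mass_le hπ T S _ hclass).trans ?_
    calc ∑ p ∈ T, C * (x / (p : ℝ)) * QW W = C * x * QW W * ∑ p ∈ T, 1 / (p : ℝ) := by
          rw [mul_sum]
          apply sum_congr rfl
          intro p _
          ring
      _ ≤ C * x * QW W * (ll + C1) := by gcongr
      _ = (x * QW W / 2) * μ := by rw [hμ]; ring
      _ ≤ S.card * μ := by
          apply mul_le_mul_of_nonneg_right hScard
          rw [hμ]
          have : 0 ≤ ll + C1 := by linarith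
          positivity
  have hrp : ∀ n ∈ S, ∀ p ∈ T, rp V π p n ≤ 1 / 2 := by
    intro n _ p hp
    obtain ⟨h5, _, h7⟩ := hmemT p hp
    have h8 := rp_le (V := V) (π := π) (p := p) (δ := 0) (by norm_num) (hV.lt p h5)
      (fun a ha => by
        have := hP p h5 (by omega) a ha
        linarith) n
    linarith
  have hM := sum_PP_ge hπ T S hrp μ hmass
  set M : ℝ := ∑ n ∈ S, PP V π T n with hMdef
  -- lower bound of the first moment
  have hQlow : Real.exp (-(ll + 2 * C1)) ≤ QW W := by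
    refine le_trans ?_ (QW_ge hsum W hW2)
    apply Real.exp_le_exp.2
    have hlw : Real.log W ≤ r := by
      have := Real.log_le_log hWpos hWle
      rwa [Real.log_exp] at this
    have hlw0 : 0 < Real.log W := Real.log_pos (by exact_mod_cast (by omega : 1 < W))
    have h6 : Real.log (Real.log W) ≤ Real.log r := Real.log_le_log hlw0 hlw
    rw [hre, Real.log_exp] at h6
    linarith
  have hMlow : (x : ℝ) / 2 * Real.exp (-((K1 * ll + K2) / 2)) ≤ M := by
    refine le_trans ?_ hM
    calc (x : ℝ) / 2 * Real.exp (-((K1 * ll + K2) / 2))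
        = x / 2 * (Real.exp (-(ll + 2 * C1)) * Real.exp (-(2 * μ))) := by
          rw [← Real.exp_add]
          congr 2
          rw [hK1, hK2, hμ]
          ring
      _ ≤ x / 2 * (QW W * Real.exp (-(2 * μ))) := by gcongr
      _ = (x * QW W / 2) * Real.exp (-(2 * μ)) := by ring
      _ ≤ S.card * Real.exp (-(2 * μ)) := by gcongr
  have hMpos : 0 < M := lt_of_lt_of_le (by positivity) hMlow
  -- second moment
  have hch := cheb hπ T S v
  have hvar : ∑ n ∈ S, PP V π T n * ∑ p ∈ T, rp V π p n * ((S.filter fun m => n ≡ m [MOD p]).card : ℝ) ≤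
      C * x / W * x := by
    calc ∑ n ∈ S, PP V π T n * ∑ p ∈ T, rp V π p n * ((S.filter fun m => n ≡ m [MOD p]).card : ℝ)
        ≤ ∑ n ∈ S, C * x / W := by
          apply sum_le_sum
          intro n hn
          have h5 : ∀ p ∈ T, rp V π p n * ((S.filter fun m => n ≡ m [MOD p]).card : ℝ) ≤
              rp V π p n * (C * x / W) := by
            intro p hp
            obtain ⟨h6, h7, h8⟩ := hmemT p hp
            apply mul_le_mul_of_nonneg_left _ (rp_nonneg hπ p n)
            have h9 : (S.filter fun m => n ≡ m [MOD p]) = (S.filter fun m => m ≡ n [MOD p]) := by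
              apply filter_congr
              intro m _
              exact ⟨fun h => h.symm, fun h => h.symm⟩
            rw [h9]
            have h10 : (W : ℝ) ≤ p := by exact_mod_cast h8.le
            calc ((S.filter fun m => m ≡ n [MOD p]).card : ℝ) ≤ C * (x / p) * QW W := hclass p hp n
              _ ≤ C * (x / p) * 1 := by gcongr
              _ = C * x / p := by ring
              _ ≤ C * x / W := by gcongr
          calc PP V π T n * ∑ p ∈ T, rp V π p n * ((S.filter fun m => n ≡ m [MOD p]).card : ℝ)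
              ≤ PP V π T n * ∑ p ∈ T, rp V π p n * (C * x / W) :=
                mul_le_mul_of_nonneg_left (sum_le_sum h5) (PP_nonneg hπ T n)
            _ = (PP V π T n * ∑ p ∈ T, rp V π p n) * (C * x / W) := by
                rw [← sum_mul]; ring
            _ ≤ 1 * (C * x / W) := by
                apply mul_le_mul_of_nonneg_right _ (by positivity)
                calc PP V π T n * ∑ p ∈ T, rp V π p n
                    ≤ Real.exp (-∑ p ∈ T, rp V π p n) * ∑ p ∈ T, rp V π p n := by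
                      apply mul_le_mul_of_nonneg_right (PP_le_exp hπ T n)
                      exact sum_nonneg fun p _ => rp_nonneg hπ p n
                  _ ≤ 1 := mul_exp_neg_le _
            _ = C * x / W := one_mul _
      _ = S.card * (C * x / W) := by rw [sum_const, nsmul_eq_mul]
      _ ≤ x * (C * x / W) := by gcongr
      _ = C * x / W * x := by ring
  have hfin : EA V π T (ind {w | ∀ n ∈ S, w ∉ Av T n}) v * M ^ 2 ≤ ε * M ^ 2 := by
    refine (hch.trans hvar).trans ?_
    have h5 : ((x : ℝ) / 2 * Real.exp (-((K1 * ll + K2) / 2))) ^ 2 ≤ M ^ 2 :=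
      pow_le_pow_left₀ (by positivity) hMlow 2
    have h6 : ((x : ℝ) / 2 * Real.exp (-((K1 * ll + K2) / 2))) ^ 2 =
        x ^ 2 / 4 * Real.exp (-(K1 * ll + K2)) := by
      rw [mul_pow, ← Real.exp_nat_mul]
      push_cast
      ring_nf
    rw [h6] at h5
    have h7 : C * x / W * x ≤ ε * (x ^ 2 / 4 * Real.exp (-(K1 * ll + K2))) := by
      have h8 : 4 * C / ε * Real.exp (K1 * ll + K2) ≤ W := by
        refine le_trans ?_ hWhalf
        have h9 : 8 * C / ε = Real.exp (Real.log (8 * C / ε)) := (Real.exp_log (by positivity)).symm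
        have h10 : 4 * C / ε * Real.exp (K1 * ll + K2) =
            (8 * C / ε) * Real.exp (K1 * ll + K2) / 2 := by ring
        rw [h10, h9, ← Real.exp_add]
        apply div_le_div_of_nonneg_right _ (by norm_num)
        apply Real.exp_le_exp.2
        linarith
      have h11 : Real.exp (K1 * ll + K2) * Real.exp (-(K1 * ll + K2)) = 1 := by
        rw [← Real.exp_add]; simp
      have h12 : 4 * C / ε ≤ W * Real.exp (-(K1 * ll + K2)) := by
        calc 4 * C / ε = 4 * C / ε * (Real.exp (K1 * ll + K2) * Real.exp (-(K1 * ll + K2))) := by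
              rw [h11, mul_one]
          _ = 4 * C / ε * Real.exp (K1 * ll + K2) * Real.exp (-(K1 * ll + K2)) := by ring
          _ ≤ W * Real.exp (-(K1 * ll + K2)) := by gcongr
      have h13 : 4 * C ≤ ε * (W * Real.exp (-(K1 * ll + K2))) := by
        rw [div_le_iff₀ hε] at h12
        linarith
      have h14 : C * x / W * x = x ^ 2 / (4 * W) * (4 * C) := by
        field_simp
      rw [h14]
      calc (x : ℝ) ^ 2 / (4 * W) * (4 * C) ≤ x ^ 2 / (4 * W) * (ε * (W * Real.exp (-(K1 * ll + K2)))) := by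
            gcongr
        _ = ε * (x ^ 2 / 4 * Real.exp (-(K1 * ll + K2))) := by
            field_simp
    refine h7.trans ?_
    gcongr
  exact le_of_mul_le_mul_right hfin (by positivity)

end INUaux

open INUaux in
theorem stmt_INU : Stmt_INU := by
  classical
  intro V π δ hδ hV ε hε
  have hπ : IsLaw V π := hV.toIsLaw
  obtain ⟨x0, hx0⟩ := core hδ hV hε
  refine ⟨max x0 2, fun x hx => ?_⟩
  obtain ⟨W, hW⟩ := hx0 x (le_trans (le_max_left _ _) hx)
  have hx2 : 2 ≤ x := le_trans (le_max_right _ _) hx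
  rw [EA_sdiff' (filter_subset (fun p => p ≤ W) (PX (2 * x)))]
  apply EA_le_const hπ.nonneg hπ.sum_one
  intro v
  refine le_trans ?_ (hW v)
  apply EA_mono_on hπ.nonneg
  intro w hw _
  apply ind_mono
  intro h n hn hwn
  have hn' := mem_filter.1 hn
  rw [mem_Ioc] at hn'
  apply h n (mem_Ioc.2 hn'.1)
  refine ⟨by omega, fun p hp hpn => ?_⟩
  by_cases hpW : p ≤ W
  · rw [hw p]
    · exact hn'.2 p (mem_filter.2 ⟨mem_Icc.2 ⟨hp.one_lt.le, hpW⟩, hp⟩)
    · intro h1
      rw [Finset.mem_sdiff, mem_filter] at h1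
      exact h1.2 ⟨h1.1, hpW⟩
  · apply hwn p
    rw [Finset.mem_sdiff, mem_filter]
    exact ⟨mem_PX.2 ⟨hp, by omega⟩, fun h1 => hpW h1.2⟩

end Pool.Agent.Work.MP_b0c12c_nt_univ
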