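import Pool.Agent.Work.MP_b0c12c_nt_univ.Interface
import Pool.Agent.Work.MP_b0c12c_nt_univ.Op

/-!
# Block LL: the local lemma
-/

set_option autoImplicit false

namespace Pool.Agent.Work.MP_b0c12c_nt_univ

namespace LLaux

open Finset Filter

set_option linter.unusedSectionVars false
set_option linter.unusedVariables false

section gen

variable {Ω : Type*} {ι : Type*} [DecidableEq ι]

/-- none of the events `E j`, `j ∈ J` happens -/
def NoE (E : ι → Set Ω) (J : Finset ι) : Set Ω := ⋂ j ∈ J, (E j)ᶜ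

theorem NoE_empty (E : ι → Set Ω) : NoE E ∅ = Set.univ := by simp [NoE]

theorem NoE_insert (E : ι → Set Ω) (i : ι) (J : Finset ι) :
    NoE E (insert i J) = (E i)ᶜ ∩ NoE E J := by
  simp [NoE]

theorem NoE_anti (E : ι → Set Ω) {J J' : Finset ι} (h : J ⊆ J') : NoE E J' ⊆ NoE E J := by
  intro ω hω
  simp only [NoE, Set.mem_iInter] at hω ⊢
  exact fun j hj => hω j (h hj)

variable {P : Set Ω → ℝ}

theorem P_mono (h0 : ∀ S, 0 ≤ P S) (hadd : ∀ S T, P S = P (S ∩ T) + P (S \ T)) {S T : Set Ω}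
    (h : S ⊆ T) : P S ≤ P T := by
  rw [hadd T S, Set.inter_eq_self_of_subset_right h]
  linarith [h0 (T \ S)]

theorem P_insert (hadd : ∀ S T, P S = P (S ∩ T) + P (S \ T)) (E : ι → Set Ω) (i : ι)
    (J : Finset ι) : P (NoE E (insert i J)) = P (NoE E J) - P (E i ∩ NoE E J) := by
  rw [NoE_insert, hadd (NoE E J) (E i), Set.inter_comm (NoE E J) (E i), Set.sdiff_eq,
    Set.inter_comm (NoE E J) (E i)ᶜ]
  ring

/-- The local lemma: conditional probabilities. -/
theorem lll_cond (h0 : ∀ S, 0 ≤ P S) (hadd : ∀ S T, P S = P (S ∩ T) + P (S \ T))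
    {E : ι → Set Ω} (I : Finset ι)
    (N : ι → Finset ι) (x : ι → ℝ) (hx0 : ∀ i ∈ I, 0 ≤ x i) (hx1 : ∀ i ∈ I, x i ≤ 1)
    (hN : ∀ i ∈ I, N i ⊆ I)
    (hind : ∀ i ∈ I, ∀ J : Finset ι, J ⊆ I → i ∉ J → Disjoint J (N i) →
      P (E i ∩ NoE E J) = P (E i) * P (NoE E J))
    (h : ∀ i ∈ I, P (E i) ≤ x i * ∏ j ∈ N i, (1 - x j)) :
    ∀ n : ℕ, ∀ J : Finset ι, J.card = n → J ⊆ I → ∀ i ∈ I, i ∉ J →
      P (E i ∩ NoE E J) ≤ x i * P (NoE E J) := by
  intro n
  induction n using Nat.strong_induction_on with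
  | _ n ih =>
    intro J hJn hJI i hi hiJ
    have key : ∀ K : Finset ι, K ⊆ J ∩ N i →
        (∏ j ∈ K, (1 - x j)) * P (NoE E (J \ N i)) ≤ P (NoE E (K ∪ (J \ N i))) := by
      intro K
      induction K using Finset.induction_on with
      | empty => intro _; simp
      | insert k K hkK ihK =>
        intro hK
        have hk : k ∈ J ∩ N i := hK (mem_insert_self _ _)
        have hKs : K ⊆ J ∩ N i := (subset_insert _ _).trans hK
        have h1 := ihK hKs
        rw [mem_inter] at hk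
        have hkI : k ∈ I := hJI hk.1
        have hsub : K ∪ (J \ N i) ⊆ J := by
          intro a ha
          rw [mem_union] at ha
          rcases ha with ha | ha
          · exact (mem_inter.1 (hKs ha)).1
          · exact (mem_sdiff.1 ha).1
        have hknot : k ∉ K ∪ (J \ N i) := by
          rw [mem_union]
          rintro (ha | ha)
          · exact hkK ha
          · exact (mem_sdiff.1 ha).2 hk.2
        have hcard : (K ∪ (J \ N i)).card < n := by
          rw [← hJn]
          apply card_lt_card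
          refine ⟨hsub, fun hcon => hknot (hcon hk.1)⟩
        have h2 := ih _ hcard (K ∪ (J \ N i)) rfl (hsub.trans hJI) k hkI hknot
        rw [insert_union, P_insert hadd, prod_insert hkK]
        have h3 : 0 ≤ 1 - x k := by linarith [hx1 k hkI]
        calc (1 - x k) * (∏ j ∈ K, (1 - x j)) * P (NoE E (J \ N i))
            = (1 - x k) * ((∏ j ∈ K, (1 - x j)) * P (NoE E (J \ N i))) := by ring
          _ ≤ (1 - x k) * P (NoE E (K ∪ (J \ N i))) := mul_le_mul_of_nonneg_left h1 h3
          _ ≤ _ := by linarith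
    have h4 := key (J ∩ N i) subset_rfl
    have hJ : (J ∩ N i) ∪ (J \ N i) = J := by
      ext a
      simp only [mem_union, mem_inter, Finset.mem_sdiff]
      tauto
    rw [hJ] at h4
    have h5 : P (E i ∩ NoE E J) ≤ P (E i ∩ NoE E (J \ N i)) := by
      apply P_mono h0 hadd
      exact Set.inter_subset_inter_right _ (NoE_anti E sdiff_subset)
    rw [hind i hi (J \ N i) (sdiff_subset.trans hJI) (fun hc => hiJ (mem_sdiff.1 hc).1)
      sdiff_disjoint] at h5
    have h6 : ∏ j ∈ N i, (1 - x j) ≤ ∏ j ∈ J ∩ N i, (1 - x j) := by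
      rw [← prod_sdiff (inter_subset_right : J ∩ N i ⊆ N i)]
      have h7 : ∏ j ∈ N i \ (J ∩ N i), (1 - x j) ≤ 1 := by
        apply prod_le_one
        · intro j hj
          linarith [hx1 j (hN i hi (mem_sdiff.1 hj).1)]
        · intro j hj
          linarith [hx0 j (hN i hi (mem_sdiff.1 hj).1)]
      have h8 : 0 ≤ ∏ j ∈ J ∩ N i, (1 - x j) := by
        apply prod_nonneg
        intro j hj
        linarith [hx1 j (hN i hi (mem_inter.1 hj).2)]
      calc _ ≤ 1 * ∏ j ∈ J ∩ N i, (1 - x j) := mul_le_mul_of_nonneg_right h7 h8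
        _ = _ := one_mul _
    calc P (E i ∩ NoE E J) ≤ P (E i) * P (NoE E (J \ N i)) := h5
      _ ≤ (x i * ∏ j ∈ N i, (1 - x j)) * P (NoE E (J \ N i)) :=
        mul_le_mul_of_nonneg_right (h i hi) (h0 _)
      _ ≤ (x i * ∏ j ∈ J ∩ N i, (1 - x j)) * P (NoE E (J \ N i)) := by
        apply mul_le_mul_of_nonneg_right _ (h0 _)
        exact mul_le_mul_of_nonneg_left h6 (hx0 i hi)
      _ = x i * ((∏ j ∈ J ∩ N i, (1 - x j)) * P (NoE E (J \ N i))) := by ring
      _ ≤ x i * P (NoE E J) := mul_le_mul_of_nonneg_left h4 (hx0 i hi)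

/-- The local lemma. -/
theorem lll (h0 : ∀ S, 0 ≤ P S) (hadd : ∀ S T, P S = P (S ∩ T) + P (S \ T))
    {E : ι → Set Ω} (I : Finset ι)
    (N : ι → Finset ι) (x : ι → ℝ) (hx0 : ∀ i ∈ I, 0 ≤ x i) (hx1 : ∀ i ∈ I, x i ≤ 1)
    (hN : ∀ i ∈ I, N i ⊆ I)
    (hind : ∀ i ∈ I, ∀ J : Finset ι, J ⊆ I → i ∉ J → Disjoint J (N i) →
      P (E i ∩ NoE E J) = P (E i) * P (NoE E J))
    (h : ∀ i ∈ I, P (E i) ≤ x i * ∏ j ∈ N i, (1 - x j)) :
    (∏ j ∈ I, (1 - x j)) * P Set.univ ≤ P (NoE E I) := by
  have main : ∀ K : Finset ι, K ⊆ I →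
      (∏ j ∈ K, (1 - x j)) * P Set.univ ≤ P (NoE E K) := by
    intro K
    induction K using Finset.induction_on with
    | empty => intro _; simp [NoE_empty]
    | insert k K hkK ihK =>
      intro hK
      have hkI : k ∈ I := hK (mem_insert_self _ _)
      have hKs : K ⊆ I := (subset_insert _ _).trans hK
      have h1 := ihK hKs
      have h2 := lll_cond h0 hadd I N x hx0 hx1 hN hind h _ K rfl hKs k hkI hkK
      rw [P_insert hadd, prod_insert hkK]
      have h3 : 0 ≤ 1 - x k := by linarith [hx1 k hkI]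
      calc (1 - x k) * (∏ j ∈ K, (1 - x j)) * P Set.univ
          = (1 - x k) * ((∏ j ∈ K, (1 - x j)) * P Set.univ) := by ring
        _ ≤ (1 - x k) * P (NoE E K) := mul_le_mul_of_nonneg_left h1 h3
        _ ≤ _ := by linarith
  exact main I subset_rfl

end gen

variable {s : ℕ}

open Classical in
/-- the primes of `A` which may hit `n` -/
noncomputable def KK (c : ℕ → Fin s → ℕ) (A : Finset ℕ) (n : ℕ) : Finset ℕ :=
  A.filter fun p => ∃ i : Fin s, n ≡ c p i [MOD p]

theorem AvU_dependsOn_KK (c : ℕ → Fin s → ℕ) (A : Finset ℕ) (n : ℕ) :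
    DependsOn (ind (AvU c A n)) (KK c A n : Set ℕ) := by
  classical
  apply ind_dependsOn
  intro v w h hv p hp hcon
  have hpK : p ∈ KK c A n := mem_filter.2 ⟨hp, _, hcon⟩
  apply hv p hp
  rw [h p hpK]
  exact hcon

theorem PU_le_pow (c : ℕ → Fin s → ℕ) (A : Finset ℕ) (n : ℕ) :
    PU c A n ≤ (1 - 1 / (s : ℝ)) ^ (KK c A n).card := by
  classical
  unfold PU
  have h1 : ∏ p ∈ A, (1 - ((univ.filter fun i : Fin s => n ≡ c p i [MOD p]).card : ℝ) / s) =
      ∏ p ∈ KK c A n,
        (1 - ((univ.filter fun i : Fin s => n ≡ c p i [MOD p]).card : ℝ) / s) := by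
    symm
    apply prod_subset (filter_subset _ _)
    intro p hp hpK
    have h2 : (univ.filter fun i : Fin s => n ≡ c p i [MOD p]) = ∅ := by
      apply filter_eq_empty_iff.2
      intro i _ hi
      exact hpK (mem_filter.2 ⟨hp, i, hi⟩)
    rw [h2]
    simp
  rw [h1, ← prod_const]
  apply Finset.prod_le_prod
  · intro p _
    exact (PU_factor_mem c p n).1
  · intro p hp
    obtain ⟨i, hi⟩ := (mem_filter.1 hp).2
    have h3 : (1 : ℝ) ≤ ((univ.filter fun i : Fin s => n ≡ c p i [MOD p]).card : ℝ) := by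
      have : 0 < (univ.filter fun i : Fin s => n ≡ c p i [MOD p]).card :=
        card_pos.2 ⟨i, mem_filter.2 ⟨mem_univ _, hi⟩⟩
      exact_mod_cast this
    have h4 : 1 / (s : ℝ) ≤
        ((univ.filter fun i : Fin s => n ≡ c p i [MOD p]).card : ℝ) / s := by
      gcongr
    linarith

theorem PU_le_exp (hs : 0 < s) (c : ℕ → Fin s → ℕ) (A : Finset ℕ) (n : ℕ) :
    PU c A n ≤ Real.exp (-((KK c A n).card / (s : ℝ))) := by
  refine (PU_le_pow c A n).trans ?_
  have h1 : (1 - 1 / (s : ℝ)) ≤ Real.exp (-(1 / (s : ℝ))) := by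
    have := Real.add_one_le_exp (-(1 / (s : ℝ)))
    linarith
  have h0 : 0 ≤ 1 - 1 / (s : ℝ) := by
    have : 1 / (s : ℝ) ≤ 1 := by
      rw [div_le_one (by exact_mod_cast hs)]
      exact_mod_cast hs
    linarith
  calc (1 - 1 / (s : ℝ)) ^ (KK c A n).card ≤ (Real.exp (-(1 / (s : ℝ)))) ^ (KK c A n).card :=
        pow_le_pow_left₀ h0 h1 _
    _ = _ := by
      rw [← Real.exp_nat_mul]
      congr 1
      ring

/-- neighbours -/
noncomputable def Nb (c : ℕ → Fin s → ℕ) (A I : Finset ℕ) (n : ℕ) : Finset ℕ :=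
  I.filter fun m => m ≠ n ∧ ¬ Disjoint (KK c A n) (KK c A m)

theorem card_Nb (c : ℕ → Fin s → ℕ) (A I : Finset ℕ) (U N : ℕ)
    (hI : ∀ m ∈ I, m ∈ Ioc (N + 1) (N + U)) (hA : ∀ p ∈ A, U < p) (n : ℕ) :
    (Nb c A I n).card ≤ s * (KK c A n).card := by
  classical
  have hsub : Nb c A I n ⊆ (KK c A n ×ˢ (univ : Finset (Fin s))).biUnion
      fun pi => I.filter fun m => m ≡ c pi.1 pi.2 [MOD pi.1] := by
    intro m hm
    obtain ⟨hmI, _, hdis⟩ := mem_filter.1 hm
    rw [disjoint_left] at hdis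
    push Not at hdis
    obtain ⟨p, hp1, hp2⟩ := hdis
    obtain ⟨i, hi⟩ := (mem_filter.1 hp2).2
    rw [mem_biUnion]
    exact ⟨(p, i), mem_product.2 ⟨hp1, mem_univ _⟩, mem_filter.2 ⟨hmI, hi⟩⟩
  refine (card_le_card hsub).trans ?_
  refine (card_biUnion_le_card_mul _ _ 1 ?_).trans ?_
  · rintro ⟨p, i⟩ hpi
    rw [mem_product] at hpi
    have hpA : p ∈ A := (mem_filter.1 hpi.1).1
    rw [card_le_one]
    intro a ha b hb
    obtain ⟨haI, ha2⟩ := mem_filter.1 ha
    obtain ⟨hbI, hb2⟩ := mem_filter.1 hb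
    have ha3 := mem_Ioc.1 (hI a haI)
    have hb3 := mem_Ioc.1 (hI b hbI)
    have hU := hA p hpA
    have hab : a ≡ b [MOD p] := ha2.trans hb2.symm
    rcases le_total a b with h | h
    · have h1 := (Nat.modEq_iff_dvd' h).1 hab
      have h2 : b - a < p := by omega
      have h3 := Nat.eq_zero_of_dvd_of_lt h1 h2
      omega
    · have h1 := (Nat.modEq_iff_dvd' h).1 hab.symm
      have h2 : a - b < p := by omega
      have h3 := Nat.eq_zero_of_dvd_of_lt h1 h2
      omega
  · rw [card_product, card_univ, Fintype.card_fin, mul_one, mul_comm]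

theorem exp_le_one_sub {x : ℝ} (h0 : 0 ≤ x) (h1 : x ≤ 1 / 2) :
    Real.exp (-(x * (1 + 2 * x))) ≤ 1 - x := by
  have h2 : 0 < 1 - x := by linarith
  rw [← Real.le_log_iff_exp_le h2]
  have h3 := Real.one_sub_inv_le_log_of_pos h2
  refine le_trans ?_ h3
  have h4 : 1 - (1 - x)⁻¹ = -(x / (1 - x)) := by field_simp; ring
  rw [h4, neg_le_neg_iff, div_le_iff₀ h2]
  nlinarith [sq_nonneg x, mul_nonneg (sq_nonneg x) (by linarith : (0 : ℝ) ≤ 1 - 2 * x)]

theorem exp_two_le_one_sub {x : ℝ} (h0 : 0 ≤ x) (h1 : x ≤ 1 / 2) :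
    Real.exp (-(2 * x)) ≤ 1 - x := by
  refine le_trans ?_ (exp_le_one_sub h0 h1)
  apply Real.exp_le_exp.2
  nlinarith

/-- the local lemma for the events `AvU` -/
theorem core (hs : 0 < s) (c : ℕ → Fin s → ℕ) (A I : Finset ℕ) (U N : ℕ)
    (hI : ∀ m ∈ I, m ∈ Ioc (N + 1) (N + U)) (hA : ∀ p ∈ A, U < p) (xm : ℝ) (hxm0 : 0 ≤ xm)
    (hxm1 : xm ≤ 1 / (4 * (s : ℝ) ^ 2)) (hP : ∀ n ∈ I, PU c A n ≤ xm ^ 2) (v : ℕ → Fin s) :
    Real.exp (-((1 + 2 * xm) *
      ∑ n ∈ I, PU c A n * Real.exp (2 * s * (KK c A n).card * xm))) ≤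
      EU s A (ind (NoE (fun n => AvU c A n) I)) v := by
  classical
  have hs' : (0 : ℝ) < s := by exact_mod_cast hs
  have hs1 : (1 : ℝ) ≤ s := by exact_mod_cast hs
  have hxm4 : xm ≤ 1 / 4 := by
    refine hxm1.trans ?_
    apply one_div_le_one_div_of_le (by norm_num)
    nlinarith
  set x : ℕ → ℝ := fun n => PU c A n * Real.exp (2 * s * (KK c A n).card * xm) with hx
  have hx0 : ∀ n, 0 ≤ x n := fun n => mul_nonneg (PU_nonneg c A n) (Real.exp_pos _).le
  -- `x n ≤ √PU`
  have hxsqrt : ∀ n, x n ≤ Real.sqrt (PU c A n) := by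
    intro n
    have h1 : Real.sqrt (PU c A n) ≤ Real.exp (-((KK c A n).card / (2 * (s : ℝ)))) := by
      rw [Real.sqrt_le_left (Real.exp_pos _).le]
      refine (PU_le_exp hs c A n).trans (le_of_eq ?_)
      rw [← Real.exp_nat_mul]
      congr 1
      field_simp
      norm_num
    have h2 : Real.exp (2 * s * (KK c A n).card * xm) ≤
        Real.exp ((KK c A n).card / (2 * (s : ℝ))) := by
      apply Real.exp_le_exp.2
      calc 2 * s * (KK c A n).card * xm ≤ 2 * s * (KK c A n).card * (1 / (4 * (s : ℝ) ^ 2)) := by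
            gcongr
        _ = _ := by field_simp; ring
    calc x n = Real.sqrt (PU c A n) * (Real.sqrt (PU c A n) *
          Real.exp (2 * s * (KK c A n).card * xm)) := by
          rw [hx, ← mul_assoc, Real.mul_self_sqrt (PU_nonneg c A n)]
      _ ≤ Real.sqrt (PU c A n) * (Real.exp (-((KK c A n).card / (2 * (s : ℝ)))) *
          Real.exp ((KK c A n).card / (2 * (s : ℝ)))) := by
          gcongr
      _ = Real.sqrt (PU c A n) := by
          rw [← Real.exp_add, neg_add_cancel, Real.exp_zero, mul_one]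
  have hxle : ∀ n ∈ I, x n ≤ xm := by
    intro n hn
    refine (hxsqrt n).trans ?_
    rw [Real.sqrt_le_left hxm0]
    exact hP n hn
  have hadd : ∀ S T : Set (ℕ → Fin s), EU s A (ind S) v =
      EU s A (ind (S ∩ T)) v + EU s A (ind (S \ T)) v := by
    intro S T
    unfold EU
    have h1 : ind S = ind (S ∩ T) + ind (S \ T) := by
      funext w
      rw [Pi.add_apply]
      by_cases hS : w ∈ S
      · by_cases hT : w ∈ T
        · rw [ind_of_mem hS, ind_of_mem (show w ∈ S ∩ T from ⟨hS, hT⟩),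
            ind_of_not_mem (show w ∉ S \ T from fun h => h.2 hT), add_zero]
        · rw [ind_of_mem hS, ind_of_not_mem (show w ∉ S ∩ T from fun h => hT h.2),
            ind_of_mem (show w ∈ S \ T from ⟨hS, hT⟩), zero_add]
      · rw [ind_of_not_mem hS, ind_of_not_mem (show w ∉ S ∩ T from fun h => hS h.1),
          ind_of_not_mem (show w ∉ S \ T from fun h => hS h.1), zero_add]
    rw [h1, EA_add, Pi.add_apply]
  have h0 : ∀ S : Set (ℕ → Fin s), 0 ≤ EU s A (ind S) v := fun S =>
    EA_nonneg unif_nonneg A (ind_nonneg S) v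
  have hL := lll (P := fun S => EU s A (ind S) v) h0 hadd (E := fun n => AvU c A n) I
    (fun n => Nb c A I n) x (fun i _ => hx0 i) (fun i hi => by linarith [hxle i hi])
    (fun i _ => filter_subset _ _)
    (by
      intro i hi J hJI hiJ hdis
      change EU s A (ind (AvU c A i ∩ NoE (fun n => AvU c A n) J)) v =
        EU s A (ind (AvU c A i)) v * EU s A (ind (NoE (fun n => AvU c A n) J)) v
      unfold EU
      rw [← ind_mul]
      have hdepJ : DependsOn (ind (NoE (fun n => AvU c A n) J))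
          (⋃ j ∈ J, (KK c A j : Set ℕ)) := by
        apply ind_dependsOn
        intro w w' hw hwN
        simp only [NoE, Set.mem_iInter, Set.mem_compl_iff] at hwN ⊢
        intro j hj hcon
        apply hwN j hj
        have h1 : ind (AvU c A j) w = ind (AvU c A j) w' :=
          AvU_dependsOn_KK c A j fun q hq => hw q (by
            simp only [Set.mem_iUnion]; exact ⟨j, hj, hq⟩)
        rw [ind_of_mem hcon] at h1
        by_contra h2
        rw [ind_of_not_mem h2] at h1
        norm_num at h1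
      rw [EA_mul_indep (unif_sum hs) (AvU_dependsOn_KK c A i) hdepJ]
      intro p hpA hpi hpJ
      simp only [Set.mem_iUnion] at hpJ
      obtain ⟨j, hj, hpj⟩ := hpJ
      rw [disjoint_left] at hdis
      apply hdis hj
      refine mem_filter.2 ⟨hJI hj, fun h => hiJ (h ▸ hj), fun h => ?_⟩
      rw [disjoint_left] at h
      exact h hpi hpj)
    (by
      intro i hi
      rw [EU_avU hs]
      have h1 : Real.exp (-(2 * s * (KK c A i).card * xm)) ≤ ∏ j ∈ Nb c A I i, (1 - x j) := by
        calc Real.exp (-(2 * s * (KK c A i).card * xm))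
            ≤ Real.exp (-(2 * ((Nb c A I i).card : ℝ) * xm)) := by
              apply Real.exp_le_exp.2
              have : ((Nb c A I i).card : ℝ) ≤ s * (KK c A i).card := by
                exact_mod_cast card_Nb c A I U N hI hA i
              have h2 : 2 * ((Nb c A I i).card : ℝ) * xm ≤ 2 * (s * (KK c A i).card) * xm := by
                gcongr
              linarith
          _ = ∏ j ∈ Nb c A I i, Real.exp (-(2 * xm)) := by
              rw [prod_const, ← Real.exp_nat_mul]
              congr 1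
              ring
          _ ≤ ∏ j ∈ Nb c A I i, (1 - x j) := by
              apply Finset.prod_le_prod
              · intro j _; exact (Real.exp_pos _).le
              · intro j hj
                have hjI : j ∈ I := (mem_filter.1 hj).1
                have h3 := hxle j hjI
                refine le_trans ?_ (exp_two_le_one_sub (hx0 j) (by linarith))
                apply Real.exp_le_exp.2
                linarith
      calc PU c A i = x i * Real.exp (-(2 * s * (KK c A i).card * xm)) := by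
            rw [hx]
            simp only
            rw [mul_assoc, ← Real.exp_add, add_neg_cancel, Real.exp_zero, mul_one]
        _ ≤ x i * ∏ j ∈ Nb c A I i, (1 - x j) := mul_le_mul_of_nonneg_left h1 (hx0 i))
  have huniv : EU s A (ind (Set.univ : Set (ℕ → Fin s))) v = 1 := by
    unfold EU
    rw [ind_univ, EA_const (unif_sum hs)]
  simp only [huniv, mul_one] at hL
  refine le_trans ?_ hL
  calc Real.exp (-((1 + 2 * xm) * ∑ n ∈ I, x n))
      = ∏ n ∈ I, Real.exp (-((1 + 2 * xm) * x n)) := by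
        rw [← Real.exp_sum, mul_sum, sum_neg_distrib]
    _ ≤ ∏ n ∈ I, (1 - x n) := by
        apply Finset.prod_le_prod
        · intro n _; exact (Real.exp_pos _).le
        · intro n hn
          have h3 := hxle n hn
          refine le_trans ?_ (exp_le_one_sub (hx0 n) (by linarith))
          apply Real.exp_le_exp.2
          have := hx0 n
          nlinarith

end LLaux

open LLaux Finset Filter in
theorem stmt_LL : Stmt_LL := by
  classical
  intro s hs ρ ε hρ hε
  have hs' : (0 : ℝ) < s := by exact_mod_cast hs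
  -- the eventual inequalities
  have hzt : Tendsto (fun z : ℕ => (z : ℝ)) atTop atTop := tendsto_natCast_atTop_atTop
  have hlim1 : Tendsto (fun z : ℕ => (z : ℝ) ^ (-(ρ / 2))) atTop (nhds 0) :=
    (tendsto_rpow_neg_atTop (by positivity)).comp hzt
  have hlim2 : Tendsto (fun z : ℕ => Real.exp (2 * s * (z : ℝ) ^ (-(ρ / 4)))) atTop
      (nhds 1) := by
    have h1 : Tendsto (fun z : ℕ => 2 * s * (z : ℝ) ^ (-(ρ / 4))) atTop (nhds (2 * s * 0)) :=
      ((tendsto_rpow_neg_atTop (by positivity : 0 < ρ / 4)).comp hzt).const_mul _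
    rw [mul_zero] at h1
    have h2 := (Real.continuous_exp.tendsto 0).comp h1
    rw [Real.exp_zero] at h2
    exact h2
  have hlim3 : Tendsto (fun z : ℕ => (z : ℝ) ^ (3 : ℝ) *
      Real.exp (-((z : ℝ) ^ (ρ / 4) / (2 * s)))) atTop (nhds 0) := by
    -- put `t = z ^ (ρ/4)`
    have h1 : Tendsto (fun t : ℝ => t ^ (12 / ρ) * Real.exp (-(1 / (2 * s)) * t)) atTop (nhds 0) :=
      tendsto_rpow_mul_exp_neg_mul_atTop_nhds_zero _ _ (by positivity)
    have h2 : Tendsto (fun z : ℕ => (z : ℝ) ^ (ρ / 4)) atTop atTop :=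
      (tendsto_rpow_atTop (by positivity)).comp hzt
    refine (h1.comp h2).congr fun z => ?_
    simp only [Function.comp]
    rw [← Real.rpow_mul (Nat.cast_nonneg z)]
    congr 2
    · field_simp
      norm_num
    · ring
  have e1 : ∀ᶠ z : ℕ in atTop, (z : ℝ) ^ (-(ρ / 2)) ≤ 1 / (4 * (s : ℝ) ^ 2) :=
    (hlim1.eventually (ge_mem_nhds (by positivity)))
  have e2 : ∀ᶠ z : ℕ in atTop, (z : ℝ) ^ (-(ρ / 2)) ≤ 3 * ε / (8 * (1 + ε / 4)) :=
    (hlim1.eventually (ge_mem_nhds (by positivity)))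
  have e3 : ∀ᶠ z : ℕ in atTop, Real.exp (2 * s * (z : ℝ) ^ (-(ρ / 4))) ≤ 1 + ε / 4 :=
    (hlim2.eventually (ge_mem_nhds (by linarith)))
  have e4 : ∀ᶠ z : ℕ in atTop, (z : ℝ) ^ (3 : ℝ) *
      Real.exp (-((z : ℝ) ^ (ρ / 4) / (2 * s))) ≤ 1 / 2 :=
    (hlim3.eventually (ge_mem_nhds (by norm_num)))
  obtain ⟨z0, hz0⟩ := eventually_atTop.1 ((e1.and e2).and (e3.and (e4.and (eventually_ge_atTop 1))))
  refine ⟨z0, fun z hz A x U N hU hA c v hPU => ?_⟩
  obtain ⟨⟨h1, h2⟩, h3, h4, h5⟩ := hz0 z hz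
  have hzpos : (0 : ℝ) < z := by exact_mod_cast h5
  set xm : ℝ := (z : ℝ) ^ (-(ρ / 2)) with hxm
  have hxm0 : 0 ≤ xm := by positivity
  set I := SurU c v A x U N with hI
  have hIw : ∀ m ∈ I, m ∈ Ioc (N + 1) (N + U) := fun m hm => (mem_filter.1 hm).1
  have hs1 : (1 : ℝ) ≤ s := by exact_mod_cast hs
  have hxm4 : xm ≤ 1 / 4 := by
    refine h1.trans ?_
    apply one_div_le_one_div_of_le (by norm_num)
    nlinarith
  have hP2 : ∀ n ∈ I, PU c A n ≤ xm ^ 2 := by
    intro n hn
    refine (hPU n hn).trans (le_of_eq ?_)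
    rw [hxm, ← Real.rpow_natCast, ← Real.rpow_mul hzpos.le]
    congr 1
    push_cast
    ring
  have hcore := core hs c A I U N hIw (fun p hp => (hA p hp).2.1) xm hxm0 h1 hP2 v
  -- comparison of the events
  have hcmp : EU s A (ind (NoE (fun n => AvU c A n) I)) v ≤ EU s A (ind (EmpU c x U N)) v := by
    unfold EU
    apply EA_mono_on unif_nonneg
    intro w hw1 _
    apply ind_mono
    intro hw n hn
    by_cases hnI : n ∈ I
    · simp only [NoE, Set.mem_iInter, Set.mem_compl_iff] at hw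
      have h6 := hw n hnI
      simp only [AvU, Set.mem_ofPred_eq] at h6
      push Not at h6
      obtain ⟨p, hp, hp2⟩ := h6
      exact ⟨p, (hA p hp).1, (hA p hp).2.2, hp2⟩
    · have h6 : ¬ SurvU c v A x n := fun h => hnI (mem_filter.2 ⟨hn, h⟩)
      unfold SurvU at h6
      push Not at h6
      obtain ⟨p, hp1, hp2, hp3, hp4⟩ := h6
      exact ⟨p, hp1, hp2, by rw [hw1 p hp3]; exact hp4⟩
  refine le_trans ?_ (hcore.trans hcmp)
  apply Real.exp_le_exp.2
  rw [neg_le_neg_iff]
  -- the sum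
  set δ0 : ℝ := Real.exp (-((z : ℝ) ^ (ρ / 4) / (2 * s))) with hδ0
  have hterm : ∀ n ∈ I, PU c A n * Real.exp (2 * s * (KK c A n).card * xm) ≤
      (1 + ε / 4) * PU c A n + δ0 := by
    intro n hn
    have hP0 := PU_nonneg c A n
    have hd0 : 0 ≤ δ0 := (Real.exp_pos _).le
    by_cases hk : ((KK c A n).card : ℝ) ≤ (z : ℝ) ^ (ρ / 4)
    · have h6 : Real.exp (2 * s * (KK c A n).card * xm) ≤ 1 + ε / 4 := by
        refine le_trans (Real.exp_le_exp.2 ?_) h3
        calc 2 * s * (KK c A n).card * xm ≤ 2 * s * (z : ℝ) ^ (ρ / 4) * xm := by gcongr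
          _ = 2 * s * (z : ℝ) ^ (-(ρ / 4)) := by
            rw [hxm, mul_assoc, ← Real.rpow_add hzpos]
            congr 2
            ring
      calc PU c A n * Real.exp (2 * s * (KK c A n).card * xm)
          ≤ PU c A n * (1 + ε / 4) := mul_le_mul_of_nonneg_left h6 hP0
        _ ≤ _ := by linarith
    · push Not at hk
      have h6 : PU c A n * Real.exp (2 * s * (KK c A n).card * xm) ≤ δ0 := by
        calc PU c A n * Real.exp (2 * s * (KK c A n).card * xm)
            ≤ Real.exp (-((KK c A n).card / (s : ℝ))) *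
              Real.exp ((KK c A n).card / (2 * (s : ℝ))) := by
              apply mul_le_mul (PU_le_exp hs c A n) _ (Real.exp_pos _).le (Real.exp_pos _).le
              apply Real.exp_le_exp.2
              calc 2 * s * (KK c A n).card * xm
                  ≤ 2 * s * (KK c A n).card * (1 / (4 * (s : ℝ) ^ 2)) := by gcongr
                _ = _ := by field_simp; ring
          _ = Real.exp (-((KK c A n).card / (2 * (s : ℝ)))) := by
              rw [← Real.exp_add]
              congr 1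
              field_simp
              ring
          _ ≤ δ0 := by
              apply Real.exp_le_exp.2
              rw [neg_le_neg_iff]
              gcongr
      have : 0 ≤ (1 + ε / 4) * PU c A n := by positivity
      linarith
  have hcardI : (I.card : ℝ) ≤ (z : ℝ) ^ (3 : ℝ) := by
    have h6 : I.card ≤ U := by
      calc I.card ≤ (Ioc (N + 1) (N + U)).card := card_le_card (filter_subset _ _)
        _ ≤ U := by rw [Nat.card_Ioc]; omega
    have h7 : (I.card : ℝ) ≤ (z : ℝ) ^ (3 : ℕ) := by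
      exact_mod_cast h6.trans hU
    refine h7.trans (le_of_eq ?_)
    rw [← Real.rpow_natCast]
    norm_num
  set SP := ∑ n ∈ I, PU c A n with hSP
  have hSP0 : 0 ≤ SP := sum_nonneg fun n _ => PU_nonneg c A n
  have hsum : ∑ n ∈ I, PU c A n * Real.exp (2 * s * (KK c A n).card * xm) ≤
      (1 + ε / 4) * SP + 1 / 2 := by
    calc _ ≤ ∑ n ∈ I, ((1 + ε / 4) * PU c A n + δ0) := sum_le_sum hterm
      _ = (1 + ε / 4) * SP + I.card * δ0 := by
        rw [sum_add_distrib, ← mul_sum, sum_const, nsmul_eq_mul]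
      _ ≤ (1 + ε / 4) * SP + 1 / 2 := by
        have : (I.card : ℝ) * δ0 ≤ (z : ℝ) ^ (3 : ℝ) * δ0 :=
          mul_le_mul_of_nonneg_right hcardI (Real.exp_pos _).le
        linarith
  have hfac : (1 + 2 * xm) * (1 + ε / 4) ≤ 1 + ε := by
    have h6 : xm * (8 * (1 + ε / 4)) ≤ 3 * ε := by
      rwa [le_div_iff₀ (by positivity)] at h2
    nlinarith
  calc (1 + 2 * xm) * ∑ n ∈ I, PU c A n * Real.exp (2 * s * (KK c A n).card * xm)
      ≤ (1 + 2 * xm) * ((1 + ε / 4) * SP + 1 / 2) :=
        mul_le_mul_of_nonneg_left hsum (by positivity)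
    _ = ((1 + 2 * xm) * (1 + ε / 4)) * SP + (1 + 2 * xm) / 2 := by ring
    _ ≤ (1 + ε) * SP + 1 := by
        have h6 := mul_le_mul_of_nonneg_right hfac hSP0
        linarith

end Pool.Agent.Work.MP_b0c12c_nt_univ
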