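import Mathlib
import Pool.Agent.Work.MP_b0c12c_nt_univ.Op
import Pool.Agent.Work.MP_b0c12c_nt_univ.Interface

/-!
# Block MIX: a random class is one of `s` independent copies
-/

set_option autoImplicit false

namespace Pool.Agent.Work.MP_b0c12c_nt_univ

open Finset Filter

namespace MIXaux

/-- marginals of a product law -/
theorem marginal (s : ℕ) (Vq : Finset ℕ) (ρ : ℕ → ℝ) (h1 : ∑ a ∈ Vq, ρ a = 1) (H : ℕ → ℝ)
    (i : Fin s) :
    ∑ t ∈ Fintype.piFinset (fun _ : Fin s => Vq), (∏ j, ρ (t j)) * H (t i) =
      ∑ a ∈ Vq, ρ a * H a := by
  classical
  have h2 := Finset.prod_univ_sum (fun _ : Fin s => Vq)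
    (fun (j : Fin s) (a : ℕ) => if j = i then ρ a * H a else ρ a)
  have h3 : ∏ j : Fin s, ∑ a ∈ Vq, (if j = i then ρ a * H a else ρ a) =
      ∑ a ∈ Vq, ρ a * H a := by
    rw [← Finset.mul_prod_erase univ _ (mem_univ i)]
    rw [Finset.prod_eq_one]
    · simp
    · intro j hj
      have hji : j ≠ i := (Finset.mem_erase.1 hj).1
      simp only [if_neg hji, h1]
  rw [← h3, h2]
  apply sum_congr rfl
  intro t _
  rw [← Finset.mul_prod_erase univ (fun j => ρ (t j)) (mem_univ i),
    ← Finset.mul_prod_erase univ (fun j => if j = i then ρ (t j) * H (t j) else ρ (t j))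
      (mem_univ i)]
  simp only [if_true]
  have h4 : ∏ j ∈ univ.erase i, (if j = i then ρ (t j) * H (t j) else ρ (t j)) =
      ∏ j ∈ univ.erase i, ρ (t j) := by
    apply prod_congr rfl
    intro j hj
    rw [if_neg (Finset.mem_erase.1 hj).1]
  rw [h4]
  ring

theorem pis_nonneg' {V : ℕ → Finset ℕ} {π : ℕ → ℕ → ℝ} (h : IsLaw V π) (s : ℕ) :
    ∀ p, ∀ t ∈ Vs s V p, 0 ≤ pis s π p t := by
  intro p t ht
  unfold Vs at ht
  rw [Fintype.mem_piFinset] at ht
  exact prod_nonneg fun i _ => h.nonneg p _ (ht i)

end MIXaux

open MIXaux in
theorem stmt_MIX : Stmt_MIX := by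
  classical
  intro s hs V π hL T
  induction T using Finset.induction_on with
  | empty =>
    intro f w c0 v0
    unfold EU
    simp only [EA_empty]
    rfl
  | insert q T hq ih =>
    intro f w c0 v0
    -- the value at the configuration `t` at `q`
    have hF : ∀ (t : Fin s → ℕ) (c : ℕ → Fin s → ℕ), c q = t →
        EU s (insert q T) (fun v => f (fun p => if p ∈ insert q T then c p (v p) else w p)) v0 =
        ∑ i : Fin s, (1 / (s : ℝ)) * EU s T (fun v => f (fun p => if p ∈ T then c p (v p) else
          Function.update w q (t i) p)) v0 := by
      intro t c hct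
      unfold EU
      rw [EA_insert hq]
      unfold E1
      apply sum_congr rfl
      intro i _
      unfold unif
      congr 1
      have e1 : EA (fun _ => (univ : Finset (Fin s))) (unif s) T
          (fun v => f (fun p => if p ∈ insert q T then c p (v p) else w p))
            (Function.update v0 q i) =
          EA (fun _ => (univ : Finset (Fin s))) (unif s) T
          (fun v => f (fun p => if p ∈ T then c p (v p) else Function.update w q (t i) p))
            (Function.update v0 q i) := by
        apply EA_congr_on unif_nonneg
        intro v hv1 _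
        congr 1
        funext p
        by_cases hpq : p = q
        · subst hpq
          rw [if_pos (mem_insert_self _ _), if_neg hq, Function.update_self, hv1 p hq,
            Function.update_self, hct]
        · by_cases hpT : p ∈ T
          · rw [if_pos (mem_insert_of_mem hpT), if_pos hpT]
          · rw [if_neg (by simp [hpq, hpT]), if_neg hpT, Function.update_of_ne hpq]
      refine e1.trans ?_
      have hdep : DependsOn (fun v : ℕ → Fin s => f (fun p => if p ∈ T then c p (v p) else
          Function.update w q (t i) p)) (T : Set ℕ) := by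
        intro v v' h
        simp only
        congr 1
        funext p
        by_cases hpT : p ∈ T
        · rw [if_pos hpT, if_pos hpT, h p hpT]
        · rw [if_neg hpT, if_neg hpT]
      have h2 := EA_dependsOn (V := fun _ => (univ : Finset (Fin s))) (π := unif s) hdep T
      apply h2
      intro p hp
      exact absurd hp.1 hp.2
    -- right side
    rw [EA_insert hq, EA_insert hq]
    unfold E1
    have hR : ∀ t ∈ Vs s V q, pis s π q t * EA (Vs s V) (pis s π) T
        (fun c => EU s (insert q T)
          (fun v => f (fun p => if p ∈ insert q T then c p (v p) else w p)) v0)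
          (Function.update c0 q t) =
        ∑ i : Fin s, (1 / (s : ℝ)) * ((∏ j, π q (t j)) *
          EA V π T f (Function.update w q (t i))) := by
      intro t _
      have e1 : EA (Vs s V) (pis s π) T
          (fun c => EU s (insert q T)
            (fun v => f (fun p => if p ∈ insert q T then c p (v p) else w p)) v0)
            (Function.update c0 q t) =
          EA (Vs s V) (pis s π) T
          (fun c => ∑ i : Fin s, (1 / (s : ℝ)) * EU s T (fun v => f (fun p => if p ∈ T then
            c p (v p) else Function.update w q (t i) p)) v0) (Function.update c0 q t) := by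
        apply EA_congr_on (pis_nonneg' hL s)
        intro c hc1 _
        apply hF t c
        rw [hc1 q hq, Function.update_self]
      rw [e1, EA_sum]
      simp only
      rw [mul_sum]
      apply sum_congr rfl
      intro i _
      rw [EA_const_mul]
      simp only
      rw [← ih f (Function.update w q (t i)) (Function.update c0 q t) v0]
      unfold pis
      ring
    rw [sum_congr rfl hR, sum_comm]
    have hM : ∀ i : Fin s, ∑ t ∈ Vs s V q, (1 / (s : ℝ)) * ((∏ j, π q (t j)) *
          EA V π T f (Function.update w q (t i))) =
        (1 / (s : ℝ)) * ∑ a ∈ V q, π q a * EA V π T f (Function.update w q a) := by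
      intro i
      rw [← mul_sum]
      congr 1
      exact marginal s (V q) (π q) (hL.sum_one q)
        (fun a => EA V π T f (Function.update w q a)) i
    rw [sum_congr rfl fun i _ => hM i, sum_const, card_univ, Fintype.card_fin, nsmul_eq_mul]
    have hs0 : (s : ℝ) ≠ 0 := by exact_mod_cast hs.ne'
    field_simp

end Pool.Agent.Work.MP_b0c12c_nt_univ
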