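import Pool.Agent.Work.MP_b0c12c_nt_univ.Interface
import Pool.Agent.Work.MP_b0c12c_nt_univ.Op
import Pool.Agent.Work.MP_b0c12c_nt_shift.WSap
import Pool.Agent.Work.MP_b0c12c_nt_helper55.GSharp
import Pool.Agent.Work.MP_b0c12c_nt_helper41.ApSieve
import Pool.Agent.Work.MP_b0c12c_nt_helper41.Count

/-!
# Block MN: the sharp sieve with arbitrary classes
-/

set_option autoImplicit false

namespace Pool.Agent.Work.MP_b0c12c_nt_univ

open Finset Filter
open Pool.Agent.Work.MP_b0c12c_nt_shift (qq AA w1 InR PX rows)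

namespace MN

open Pool.Agent.Work.MP_b0c12c_nt_helper41 (PQ PP mem_PQ GG)
open Pool.Agent.Work.MP_b0c12c_nt_helper55 (PW mem_PW)

theorem qq_primeFactors (z : ℕ) : (qq z 0).primeFactors = PW z := by
  unfold qq
  rw [Nat.primeFactors_prod]
  · ext p
    rw [mem_erase, mem_filter, mem_Icc, mem_PW]
    constructor
    · rintro ⟨_, ⟨_, h2⟩, h3⟩; exact ⟨h2, h3⟩
    · rintro ⟨h1, h2⟩; exact ⟨h2.ne_zero, ⟨h2.one_lt.le, h1⟩, h2⟩
  · intro p hp
    exact (mem_filter.1 (mem_erase.1 hp).2).2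

theorem totient_qq (z : ℕ) :
    ((qq z 0).totient : ℝ) = qq z 0 * ∏ p ∈ PW z, (1 - 1 / (p : ℝ)) := by
  have h := Nat.totient_eq_mul_prod_factors (qq z 0)
  have h2 : (((qq z 0).totient : ℚ) : ℝ) =
      ((((qq z 0 : ℕ) : ℚ) * ∏ p ∈ (qq z 0).primeFactors, (1 - (p : ℚ)⁻¹) : ℚ) : ℝ) := by
    rw [h]
  rw [qq_primeFactors] at h2
  push_cast at h2
  rw [h2]
  congr 1
  apply prod_congr rfl
  intro p _
  rw [one_div]

/-- a shift which moves the classes `cl p` to `0` -/
theorem exists_shift (T : Finset ℕ) (hT : ∀ p ∈ T, p.Prime) (cl : ℕ → ℕ) :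
    ∃ t : ℕ, ∀ p ∈ T, ∀ n : ℕ, p ∣ n + t → n ≡ cl p [MOD p] := by
  have hco : Set.Pairwise (T : Set ℕ) (Function.onFun Nat.Coprime fun p => p) := by
    intro p hp q hq hpq
    exact (Nat.coprime_primes (hT p hp) (hT q hq)).2 hpq
  obtain ⟨t, ht⟩ := Nat.chineseRemainderOfFinset (fun p => p - cl p % p) (fun p => p) T
    (fun p hp => (hT p hp).ne_zero) hco
  refine ⟨t, fun p hp n hn => ?_⟩
  have h1 := ht p hp
  have hp0 := (hT p hp).pos
  have hlt := Nat.mod_lt (cl p) hp0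
  have h2 : n + (p - cl p % p) ≡ 0 [MOD p] := by
    have h3 : n + t ≡ n + (p - cl p % p) [MOD p] := Nat.ModEq.add_left _ h1
    exact h3.symm.trans ((Nat.modEq_zero_iff_dvd).2 hn)
  have h4 : n + (p - cl p % p) + cl p % p ≡ 0 + cl p % p [MOD p] := Nat.ModEq.add_right _ h2
  have h5 : n + (p - cl p % p) + cl p % p = n + p := by omega
  rw [h5, zero_add] at h4
  have h6 : n + p ≡ n [MOD p] := by simp [Nat.ModEq]
  exact (h6.symm.trans h4).trans (Nat.mod_modEq _ _)

/-- the sharp sieve with arbitrary classes in one class modulo the primorial -/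
theorem count_le (z x a : ℕ) (hqx : qq z 0 ≤ x) (cl : ℕ → ℕ) {D : ℕ} (hD : 2 ≤ D)
    (hDx : D ≤ Nat.sqrt x) (T : Finset ℕ)
    (hT : ∀ n ∈ T, n ∈ Ioc x (2 * x) ∧ n ≡ a [MOD qq z 0] ∧
      ∀ p : ℕ, p.Prime → z < p → p * p ≤ x → ¬ n ≡ cl p [MOD p]) :
    (T.card : ℝ) ≤ (x + 2 * qq z 0) / ((qq z 0).totient * Real.log D) + (D : ℝ) ^ 2 := by
  classical
  set q := qq z 0 with hq
  have hq0 : 0 < q := Pool.Agent.Work.MP_b0c12c_nt_shift.WSap.qq_pos z 0
  obtain ⟨t, ht⟩ := exists_shift (PQ z (Nat.sqrt x)) (fun p hp => (mem_PQ.1 hp).2) cl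
  have hcop : q.Coprime (PP z (Nat.sqrt x)) := by
    rw [PP, Nat.coprime_prod_right_iff]
    intro p hp
    exact Pool.Agent.Work.MP_b0c12c_nt_shift.WSap.qq_coprime (mem_PQ.1 hp).2 (mem_PQ.1 hp).1.1
  have h1 := Pool.Agent.Work.MP_b0c12c_nt_helper41.ap_count_le (P := q) hq0 (a % q + t)
    (x / q - 1) (x / q + 2) z (Nat.sqrt x) (D := D) (by omega) hcop
  have hxq : 1 ≤ x / q := Nat.div_pos hqx hq0
  have hcard : T.card ≤ #{m ∈ Ioc (x / q - 1) (x / q - 1 + (x / q + 2)) |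
      ∀ p ∈ PQ z (Nat.sqrt x), ¬ p ∣ m * q + (a % q + t)} := by
    have hn : ∀ n ∈ T, n / q * q + a % q = n := by
      intro n hn
      have h2 : n % q = a % q := (hT n hn).2.1
      rw [← h2, mul_comm]
      exact Nat.div_add_mod n q
    apply card_le_card_of_injOn (fun n => n / q)
    · intro n hnT
      have hn1 := hn n hnT
      obtain ⟨h3, h4, h5⟩ := hT n hnT
      rw [mem_Ioc] at h3
      simp only [coe_filter, mem_Ioc, Set.mem_ofPred_eq]
      refine ⟨⟨?_, ?_⟩, ?_⟩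
      · have : x / q ≤ n / q := Nat.div_le_div_right h3.1.le
        omega
      · have h6 : n / q ≤ 2 * x / q := Nat.div_le_div_right h3.2
        have h7 : 2 * x / q ≤ 2 * (x / q) + 1 := by
          have h8 := Nat.div_add_mod x q
          have h9 := Nat.mod_lt x hq0
          rw [← Nat.lt_succ_iff, Nat.div_lt_iff_lt_mul hq0]
          nlinarith
        omega
      · intro p hp hd
        have hp' := mem_PQ.1 hp
        have h6 : n / q * q + (a % q + t) = n + t := by omega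
        rw [h6] at hd
        have h7 := ht p hp n hd
        exact h5 p hp'.2 hp'.1.1 (Nat.le_sqrt.1 hp'.1.2) h7
    · intro n hnT n' hnT' h
      simp only at h
      rw [← hn n hnT, ← hn n' hnT', h]
  have hcard' : (T.card : ℝ) ≤ ((#{m ∈ Ioc (x / q - 1) (x / q - 1 + (x / q + 2)) |
      ∀ p ∈ PQ z (Nat.sqrt x), ¬ p ∣ m * q + (a % q + t)} : ℕ) : ℝ) := by exact_mod_cast hcard
  refine (hcard'.trans h1).trans (add_le_add ?_ le_rfl)
  have hG := Pool.Agent.Work.MP_b0c12c_nt_helper55.GG_ge_log (w := z) (z := Nat.sqrt x) (D := D)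
    (by omega) hDx
  have hφ := totient_qq z
  rw [← hq] at hφ
  have hqR : (0 : ℝ) < q := by exact_mod_cast hq0
  have hφ0 : (0 : ℝ) < q.totient := by exact_mod_cast Nat.totient_pos.2 hq0
  have hlogD : 0 < Real.log D := Real.log_pos (by exact_mod_cast (by omega : 1 < D))
  have hP : ∏ p ∈ PW z, (1 - 1 / (p : ℝ)) = q.totient / q := by
    rw [hφ]; field_simp
  rw [hP] at hG
  have hG0 : 0 < (q.totient : ℝ) / q * Real.log D := by positivity
  have hH : (((x / q + 2 : ℕ) : ℝ)) ≤ (x + 2 * q) / q := by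
    push_cast
    have : ((x / q : ℕ) : ℝ) ≤ (x : ℝ) / q := Nat.cast_div_le
    rw [add_div, mul_div_assoc, div_self hqR.ne']
    linarith
  calc ((x / q + 2 : ℕ) : ℝ) / GG z (Nat.sqrt x) D
      ≤ ((x + 2 * q) / q) / ((q.totient : ℝ) / q * Real.log D) := by
        apply div_le_div₀ _ hH hG0 hG
        positivity
    _ = _ := by field_simp

/-- the numerical part -/
theorem bound_le {δ ε : ℝ} (hε : 0 < ε) (hε1 : ε ≤ 1 / 16) (hεδ : 16 * ε ≤ δ) {x q : ℕ}
    (hq : 0 < q) (hL : (ε⁻¹) ^ 3 ≤ Real.log x) (hlq : Real.log q ≤ ε * Real.log x) :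
    q ≤ x ∧ ∃ D : ℕ, 2 ≤ D ∧ D ≤ Nat.sqrt x ∧
      ((x : ℝ) + 2 * q) / (q.totient * Real.log D) + (D : ℝ) ^ 2 ≤
        (1 + δ) * 2 * x / (q.totient * Real.log x) := by
  set L := Real.log x with hLdef
  have hinv : 16 ≤ ε⁻¹ := by
    rw [le_inv_comm₀ (by norm_num) hε]; linarith
  have hL1 : 4096 ≤ L := by
    have h : (16 : ℝ) ^ 3 ≤ (ε⁻¹) ^ 3 := by gcongr
    have h2 : (16 : ℝ) ^ 3 = 4096 := by norm_num
    linarith
  have hL2 : (ε⁻¹) ^ 2 ≤ L := by
    have h : (ε⁻¹) ^ 2 ≤ (ε⁻¹) ^ 3 := pow_le_pow_right₀ (by linarith) (by norm_num)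
    linarith
  have hεL : ε⁻¹ ≤ ε * L := by
    have h1 : ε * (ε⁻¹) ^ 2 ≤ ε * L := mul_le_mul_of_nonneg_left hL2 hε.le
    have h2 : ε * (ε⁻¹) ^ 2 = ε⁻¹ := by field_simp
    linarith
  have hx0 : (0 : ℝ) < x := by
    rcases Nat.eq_zero_or_pos x with h | h
    · rw [hLdef, h] at hL1; norm_num at hL1
    · exact_mod_cast h
  have hq0 : (0 : ℝ) < q := by exact_mod_cast hq
  have hxexp : (x : ℝ) = Real.exp L := (Real.exp_log hx0).symm
  have hqexp : (q : ℝ) = Real.exp (Real.log q) := (Real.exp_log hq0).symm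
  have hlog2 : Real.log 2 ≤ 1 := by linarith [Real.log_two_lt_d9]
  -- 2 q ≤ ε x
  have h2q : 2 * (q : ℝ) ≤ ε * x := by
    have h1 : 2 * ε⁻¹ ≤ Real.exp (L / 2) := by
      have := Real.add_one_le_exp (L / 2)
      nlinarith
    have h2 : (q : ℝ) ≤ Real.exp (L / 2) := by
      rw [hqexp]; apply Real.exp_le_exp.2; nlinarith
    have h3 : (x : ℝ) = Real.exp (L / 2) * Real.exp (L / 2) := by
      rw [← Real.exp_add, hxexp]; ring_nf
    have h4 : 2 * ε⁻¹ * q ≤ x := by
      rw [h3]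
      exact mul_le_mul h1 h2 hq0.le (Real.exp_pos _).le
    have h5 : ε * (2 * ε⁻¹ * q) ≤ ε * x := mul_le_mul_of_nonneg_left h4 hε.le
    have h6 : ε * (2 * ε⁻¹ * q) = 2 * q := by field_simp
    linarith
  have hqx : q ≤ x := by
    have : (q : ℝ) ≤ x := by nlinarith
    exact_mod_cast this
  refine ⟨hqx, ?_⟩
  set M := Real.log ((x : ℝ) / q) with hM
  have hMe : M = L - Real.log q := by rw [hM, Real.log_div hx0.ne' hq0.ne']
  have hM1 : (1 - ε) * L ≤ M := by rw [hMe]; linarith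
  have hXq : (x : ℝ) / q = Real.exp M := (Real.exp_log (by positivity)).symm
  set Y := Real.exp ((1 / 2 - ε) * M) with hY
  have hlogY : (1 / 2 - 2 * ε) * L + 1 ≤ (1 / 2 - ε) * M := by
    have h1 : (1 / 2 - ε) * ((1 - ε) * L) ≤ (1 / 2 - ε) * M :=
      mul_le_mul_of_nonneg_left hM1 (by linarith)
    nlinarith [mul_nonneg (sq_nonneg ε) (by linarith : 0 ≤ L)]
  have hY2 : 2 ≤ Y := by
    have h1 : 1 ≤ (1 / 2 - ε) * M := by nlinarith
    have h2 := Real.add_one_le_exp ((1 / 2 - ε) * M)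
    linarith
  have hY0 : 0 < Y := by linarith
  have hYsq : Y ^ 2 ≤ ε * (2 * (x / q) / L) := by
    have h1 : Y ^ 2 = Real.exp M * Real.exp (-(2 * ε * M)) := by
      rw [hY, ← Real.exp_nat_mul, ← Real.exp_add]
      congr 1
      push_cast
      ring
    have h2 : L ≤ 2 * ε * Real.exp (2 * ε * M) := by
      have hL0 : 0 < L := by linarith
      have h3 : ε * L ≤ 2 * ε * M := by
        have h31 : L ≤ 2 * M := by nlinarith
        have h32 := mul_le_mul_of_nonneg_left h31 hε.le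
        linarith
      have h4 : Real.exp (ε * L) ≤ Real.exp (2 * ε * M) := Real.exp_le_exp.2 h3
      have h5 := Real.quadratic_le_exp_of_nonneg (by positivity : 0 ≤ ε * L)
      have h51 : 0 ≤ ε * L := by positivity
      have h6 : (ε * L) ^ 2 / 2 ≤ Real.exp (2 * ε * M) := by linarith
      have h8 : 1 ≤ ε ^ 3 * L := by
        have := mul_le_mul_of_nonneg_left hL (by positivity : 0 ≤ ε ^ 3)
        have h9 : ε ^ 3 * (ε⁻¹) ^ 3 = 1 := by field_simp
        linarith
      have h7 : L ≤ ε ^ 3 * L ^ 2 := by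
        have h10 := mul_le_mul_of_nonneg_right h8 hL0.le
        have h11 : ε ^ 3 * L * L = ε ^ 3 * L ^ 2 := by ring
        linarith
      have h12 := mul_le_mul_of_nonneg_left h6 (by positivity : 0 ≤ 2 * ε)
      have h13 : 2 * ε * ((ε * L) ^ 2 / 2) = ε ^ 3 * L ^ 2 := by ring
      linarith
    rw [h1, hXq]
    have h3 : Real.exp (-(2 * ε * M)) ≤ 2 * ε / L := by
      rw [Real.exp_neg, inv_le_comm₀ (Real.exp_pos _) (by positivity), inv_div,
        div_le_iff₀ (by positivity)]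
      linarith
    calc Real.exp M * Real.exp (-(2 * ε * M)) ≤ Real.exp M * (2 * ε / L) :=
          mul_le_mul_of_nonneg_left h3 (Real.exp_pos _).le
      _ = _ := by ring
  set D := ⌊Y⌋₊ with hD
  have hDY : (D : ℝ) ≤ Y := Nat.floor_le hY0.le
  have hD2 : 2 ≤ D := Nat.le_floor (by exact_mod_cast hY2)
  have hD0 : (0 : ℝ) < D := by exact_mod_cast (by omega : 0 < D)
  have hDsq : (D : ℝ) ^ 2 ≤ Y ^ 2 := by gcongr
  have hlogD : (1 / 2 - 2 * ε) * L ≤ Real.log D := by
    have h1 : Y / 2 ≤ D := by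
      have := Nat.lt_floor_add_one Y
      rw [← hD] at this
      linarith
    have h2 : Real.log (Y / 2) ≤ Real.log D := Real.log_le_log (by positivity) h1
    rw [Real.log_div hY0.ne' (by norm_num), hY, Real.log_exp] at h2
    linarith
  refine ⟨D, hD2, ?_, ?_⟩
  · rw [Nat.le_sqrt]
    have h1 : (D : ℝ) ^ 2 ≤ x := by
      refine (hDsq.trans hYsq).trans ?_
      have h2 : (x : ℝ) / q ≤ x := div_le_self hx0.le (by exact_mod_cast hq)
      have h3 : 2 * (x / q) / L ≤ x := by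
        rw [div_le_iff₀ (by linarith)]
        nlinarith
      nlinarith
    have h2 : (D * D : ℕ) ≤ x := by
      rw [← pow_two]
      exact_mod_cast h1
    exact h2
  · have hφ0 : (0 : ℝ) < q.totient := by exact_mod_cast Nat.totient_pos.2 hq
    have hφq : (q.totient : ℝ) ≤ q := by exact_mod_cast Nat.totient_le q
    have hL0 : 0 < L := by linarith
    have e1 : ((x : ℝ) + 2 * q) / (q.totient * Real.log D) ≤
        ((1 + ε) * x) / (q.totient * ((1 / 2 - 2 * ε) * L)) := by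
      apply div_le_div₀ (by positivity) (by linarith)
      · have : 0 < 1 / 2 - 2 * ε := by linarith
        positivity
      · exact mul_le_mul_of_nonneg_left hlogD hφ0.le
    have e2 : (D : ℝ) ^ 2 ≤ ε * (2 * x / (q.totient * L)) := by
      refine (hDsq.trans hYsq).trans ?_
      apply mul_le_mul_of_nonneg_left _ hε.le
      have : 2 * ((x : ℝ) / q) / L = 2 * x / (q * L) := by field_simp
      rw [this]
      apply div_le_div_of_nonneg_left (by positivity) (by positivity)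
      exact mul_le_mul_of_nonneg_right hφq hL0.le
    have e3 : ((1 + ε) * x) / (q.totient * ((1 / 2 - 2 * ε) * L)) =
        (1 + ε) / (1 - 4 * ε) * (2 * x / (q.totient * L)) := by
      have : (1 : ℝ) - 4 * ε ≠ 0 := by linarith
      have : (1 : ℝ) / 2 - 2 * ε ≠ 0 := by linarith
      field_simp
      ring
    have e4 : (1 + ε) / (1 - 4 * ε) ≤ 1 + 8 * ε := by
      rw [div_le_iff₀ (by linarith)]
      nlinarith
    have e5 : 0 ≤ 2 * (x : ℝ) / (q.totient * L) := by positivity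
    calc _ ≤ (1 + ε) / (1 - 4 * ε) * (2 * x / (q.totient * L)) +
          ε * (2 * x / (q.totient * L)) := by rw [← e3]; exact add_le_add e1 e2
      _ = ((1 + ε) / (1 - 4 * ε) + ε) * (2 * x / (q.totient * L)) := by ring
      _ ≤ (1 + δ) * (2 * x / (q.totient * L)) :=
          mul_le_mul_of_nonneg_right (by linarith) e5
      _ = _ := by ring

end MN

theorem stmt_MN : Stmt_MN := by
  classical
  intro δ hδ κ hκ hκ1 B hB
  set ε := min δ 1 / 16 with hε
  have hε0 : 0 < ε := by rw [hε]; have := lt_min hδ one_pos; linarith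
  have hε1 : ε ≤ 1 / 16 := by rw [hε]; have := min_le_right δ 1; linarith
  have hεδ : 16 * ε ≤ δ := by rw [hε]; have := min_le_left δ 1; linarith
  have ht1 : Tendsto (fun z : ℕ => (z : ℝ) ^ κ) atTop atTop :=
    (tendsto_rpow_atTop hκ).comp tendsto_natCast_atTop_atTop
  have ht2 : Tendsto (fun z : ℕ => (z : ℝ) ^ (1 + κ)) atTop atTop :=
    (tendsto_rpow_atTop (by linarith)).comp tendsto_natCast_atTop_atTop
  obtain ⟨z0, hz0⟩ := eventually_atTop.1 ((ht1.eventually_ge_atTop (Real.log 4 / ε)).and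
    ((ht2.eventually_ge_atTop ((ε⁻¹) ^ 3)).and (eventually_ge_atTop 1)))
  refine ⟨z0, fun z hz x hx s hs c v a S hS => ?_⟩
  obtain ⟨h1, h2, h3⟩ := hz0 z hz
  have hz1 : (1 : ℝ) ≤ z := by exact_mod_cast h3
  have hL := hx.1
  have hq0 : 0 < qq z 0 := Pool.Agent.Work.MP_b0c12c_nt_shift.WSap.qq_pos z 0
  have hlq : Real.log (qq z 0) ≤ ε * Real.log x := by
    have e1 : Real.log (qq z 0) ≤ z * Real.log 4 := by
      rw [← Real.log_pow]
      apply Real.log_le_log (by exact_mod_cast hq0)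
      exact_mod_cast Pool.Agent.Work.MP_b0c12c_nt_shift.WSap.qq_le z 0
    have e2 : Real.log 4 ≤ ε * (z : ℝ) ^ κ := by
      rw [div_le_iff₀ hε0] at h1; linarith
    have e3 : (z : ℝ) ^ (1 + κ) = z * (z : ℝ) ^ κ := by
      rw [Real.rpow_add (by linarith), Real.rpow_one]
    calc Real.log (qq z 0) ≤ z * Real.log 4 := e1
      _ ≤ z * (ε * (z : ℝ) ^ κ) := mul_le_mul_of_nonneg_left e2 (by linarith)
      _ = ε * (z : ℝ) ^ (1 + κ) := by rw [e3]; ring
      _ ≤ ε * Real.log x := mul_le_mul_of_nonneg_left hL hε0.le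
  obtain ⟨hqx, D, hD2, hDx, hfin⟩ := MN.bound_le hε0 hε1 hεδ hq0 (h2.trans hL) hlq
  -- averaging
  set A := AA κ B z 0 with hA
  have hsum : ∑ n ∈ S, PU c A n = EU s A (fun w => ∑ n ∈ S, ind (AvU c A n) w) v := by
    unfold EU
    rw [EA_sum]
    apply sum_congr rfl
    intro n _
    exact (EU_avU hs c A n v).symm
  rw [hsum]
  have hb : EU s A (fun w => ∑ n ∈ S, ind (AvU c A n) w) v ≤
      EU s A (fun _ => (1 + δ) * 2 * x / ((qq z 0).totient * Real.log x)) v := by
    unfold EU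
    apply EA_mono_on unif_nonneg
    intro w hw1 _
    have e1 : ∑ n ∈ S, ind (AvU c A n) w = ((S.filter fun n => w ∈ AvU c A n).card : ℝ) := by
      rw [card_filter]
      push_cast
      apply sum_congr rfl
      intro n _
      exact ind_apply _ _
    rw [e1]
    refine le_trans ?_ hfin
    apply MN.count_le z x a hqx (fun p => c p (w p)) hD2 hDx
    intro n hn
    rw [mem_filter] at hn
    obtain ⟨g1, g2, g3⟩ := hS n hn.1
    refine ⟨g1, g2, ?_⟩
    intro p hp _ hpx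
    by_cases hpA : p ∈ A
    · exact hn.2 p hpA
    · rw [hw1 p hpA]
      exact g3 p hp hpx hpA
  refine hb.trans (le_of_eq ?_)
  unfold EU
  rw [EA_const (unif_sum hs)]

end Pool.Agent.Work.MP_b0c12c_nt_univ
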