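import Mathlib
import Pool.Agent.Work.MP_b0c12c_nt_univ.Op
import Pool.Agent.Work.MP_b0c12c_nt_univ.Interface
import Pool.Agent.Work.MP_b0c12c_nt_shift.MAux
import Pool.Agent.Work.MP_b0c12c_nt_shift.M
import Pool.Agent.Work.MP_b0c12c_nt_shift.WS
import Pool.Agent.Work.MP_b0c12c_nt_shift.WSAP

/-!
# Block NK: no weak survivors
-/

set_option autoImplicit false

namespace Pool.Agent.Work.MP_b0c12c_nt_univ

open Finset Filter
open Pool.Agent.Work.MP_b0c12c_nt_shift (qq AA w1 InR PX rows)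

namespace NKaux

variable {s : ℕ}

open Classical in
/-- the factor of `PU` at `p` -/
noncomputable def fac (c : ℕ → Fin s → ℕ) (p n : ℕ) : ℝ :=
  1 - ((univ.filter fun i : Fin s => n ≡ c p i [MOD p]).card : ℝ) / s

theorem fac_mem (c : ℕ → Fin s → ℕ) (p n : ℕ) : 0 ≤ fac c p n ∧ fac c p n ≤ 1 :=
  PU_factor_mem c p n

theorem PU_eq (c : ℕ → Fin s → ℕ) (A : Finset ℕ) (n : ℕ) : PU c A n = ∏ p ∈ A, fac c p n := rfl

theorem fac_congr (c : ℕ → Fin s → ℕ) {p n m : ℕ} (h : n ≡ m [MOD p]) :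
    fac c p n = fac c p m := by
  classical
  unfold fac
  have h1 : (univ.filter fun i : Fin s => n ≡ c p i [MOD p]) =
      (univ.filter fun i : Fin s => m ≡ c p i [MOD p]) := by
    ext i
    simp only [Finset.mem_filter, Finset.mem_univ, true_and]
    exact ⟨fun h1 => h.symm.trans h1, fun h1 => h.trans h1⟩
  rw [h1]

/-- the classes at `p` -/
def cls (c : ℕ → Fin s → ℕ) (p : ℕ) : Finset ℕ := univ.image fun i : Fin s => c p i % p

theorem fac_of_notMem (c : ℕ → Fin s → ℕ) {p n : ℕ} (hn : n < p) (h : n ∉ cls c p) :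
    fac c p n = 1 := by
  classical
  unfold fac
  have h1 : (univ.filter fun i : Fin s => n ≡ c p i [MOD p]) = ∅ := by
    rw [Finset.filter_eq_empty_iff]
    intro i _ hi
    apply h
    unfold cls
    rw [mem_image]
    refine ⟨i, mem_univ _, ?_⟩
    rw [Nat.ModEq, Nat.mod_eq_of_lt hn] at hi
    exact hi.symm
  rw [h1]
  simp

theorem fac_of_mem (c : ℕ → Fin s → ℕ) {p n : ℕ} (h : n ∈ cls c p) :
    fac c p n ≤ 1 - 1 / s := by
  classical
  unfold fac
  unfold cls at h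
  rw [mem_image] at h
  obtain ⟨i, _, hi⟩ := h
  have h1 : 1 ≤ (univ.filter fun i : Fin s => n ≡ c p i [MOD p]).card := by
    rw [Nat.one_le_iff_ne_zero, Finset.card_ne_zero]
    refine ⟨i, ?_⟩
    rw [Finset.mem_filter]
    refine ⟨mem_univ _, ?_⟩
    rw [← hi]
    exact Nat.mod_modEq _ _
  have h2 : (1 : ℝ) ≤ ((univ.filter fun i : Fin s => n ≡ c p i [MOD p]).card : ℝ) := by
    exact_mod_cast h1
  have h3 : (1 : ℝ) / s ≤ ((univ.filter fun i : Fin s => n ≡ c p i [MOD p]).card : ℝ) / s :=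
    div_le_div_of_nonneg_right h2 (Nat.cast_nonneg _)
  linarith

theorem cls_sub (c : ℕ → Fin s → ℕ) {p : ℕ} (hp : 0 < p) : cls c p ⊆ range p := by
  intro m hm
  unfold cls at hm
  rw [mem_image] at hm
  obtain ⟨i, _, rfl⟩ := hm
  exact mem_range.2 (Nat.mod_lt _ hp)

theorem card_cls (c : ℕ → Fin s → ℕ) (p : ℕ) : (cls c p).card = dU c p := rfl

theorem dU_le (c : ℕ → Fin s → ℕ) (p : ℕ) : dU c p ≤ s := by
  unfold dU
  refine (card_image_le).trans ?_
  rw [card_univ, Fintype.card_fin]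

/-- the mean of a power of the factor -/
theorem mean_le (c : ℕ → Fin s → ℕ) {p k : ℕ} {τ : ℝ} (hp : 0 < p)
    (hτ : (1 - 1 / (s : ℝ)) ^ k ≤ τ) :
    (∑ m ∈ range p, fac c p m ^ k) / p ≤ 1 - (1 - τ) * ((dU c p : ℝ) / p) := by
  have hpr : (0 : ℝ) < p := by exact_mod_cast hp
  have h1 : ∑ m ∈ range p, fac c p m ^ k =
      ∑ m ∈ range p \ cls c p, fac c p m ^ k + ∑ m ∈ cls c p, fac c p m ^ k :=
    (sum_sdiff (cls_sub c hp)).symm
  have h2 : ∑ m ∈ range p \ cls c p, fac c p m ^ k ≤ p - dU c p := by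
    calc ∑ m ∈ range p \ cls c p, fac c p m ^ k ≤ ∑ m ∈ range p \ cls c p, (1 : ℝ) :=
          sum_le_sum fun m _ => pow_le_one₀ (fac_mem c p m).1 (fac_mem c p m).2
      _ = ((range p \ cls c p).card : ℝ) := by simp
      _ = p - dU c p := by
          rw [card_sdiff_of_subset (cls_sub c hp), card_range, card_cls, Nat.cast_sub]
          rw [← card_cls]
          have := card_le_card (cls_sub c hp)
          rwa [card_range] at this
  have h3 : ∑ m ∈ cls c p, fac c p m ^ k ≤ τ * dU c p := by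
    calc ∑ m ∈ cls c p, fac c p m ^ k ≤ ∑ m ∈ cls c p, τ :=
          sum_le_sum fun m hm =>
            (pow_le_pow_left₀ (fac_mem c p m).1 (fac_of_mem c hm) k).trans hτ
      _ = τ * dU c p := by
          rw [sum_const, nsmul_eq_mul, card_cls, mul_comm]
  rw [div_le_iff₀ hpr]
  have h4 : (1 - (1 - τ) * ((dU c p : ℝ) / p)) * p = p - (1 - τ) * dU c p := by
    field_simp
  rw [h4, h1]
  linarith

theorem qq_le (z : ℕ) : qq z 0 ≤ 4 ^ z := by
  refine le_trans ?_ (primorial_le_four_pow z)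
  exact Nat.le_of_dvd (primorial_pos z) (Pool.Agent.Work.MP_b0c12c_nt_shift.MM.qq_dvd z 0)

end NKaux

open NKaux in
theorem stmt_NK : Stmt_NK := by
  classical
  intro s hs η hη
  obtain ⟨τ, hτdef⟩ : ∃ τ : ℝ, τ = η / (4 * (2 + η)) := ⟨_, rfl⟩
  have hτ0 : 0 < τ := by rw [hτdef]; positivity
  have hτη : (1 - τ) * (2 + η) = 2 + 3 * η / 4 := by
    rw [hτdef]
    field_simp
    ring
  have hτ1 : τ ≤ 1 := by
    rw [hτdef, div_le_one (by positivity)]
    linarith
  have hs1 : (1 : ℝ) ≤ s := by exact_mod_cast hs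
  have hb0 : 0 ≤ 1 - 1 / (s : ℝ) := by
    have : 1 / (s : ℝ) ≤ 1 := by
      rw [div_le_one (by linarith)]
      exact hs1
    linarith
  have hb1 : 1 - 1 / (s : ℝ) < 1 := by
    have : 0 < 1 / (s : ℝ) := by positivity
    linarith
  obtain ⟨k, hk⟩ := exists_pow_lt_of_lt_one hτ0 hb1
  obtain ⟨C, hC, D, hD2, hws⟩ := Pool.Agent.Work.MP_b0c12c_nt_shift.ws_ap
    Pool.Agent.Work.MP_b0c12c_nt_shift.stmt_WS s hs
  obtain ⟨ρ, hρdef⟩ : ∃ ρ : ℝ, ρ = η / (4 * (k + 1)) := ⟨_, rfl⟩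
  have hρ : 0 < ρ := by rw [hρdef]; positivity
  have hρk : ρ * (k + 1) = η / 4 := by
    rw [hρdef]
    field_simp
  refine ⟨ρ, hρ, min (1 / 50) (η / 24), lt_min (by norm_num) (by positivity), min_le_left _ _,
    fun κ hκ hκ1 B hB => ?_⟩
  have hκη : κ ≤ η / 24 := hκ1.trans (min_le_right _ _)
  have hκ50 : κ ≤ 1 / 50 := hκ1.trans (min_le_left _ _)
  have ev1 : ∀ᶠ z : ℕ in atTop, (D : ℝ) + 2 ≤ (z : ℝ) ^ κ :=
    ((tendsto_rpow_atTop hκ).comp tendsto_natCast_atTop_atTop).eventually_ge_atTop _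
  have ev2 : ∀ᶠ z : ℕ in atTop, (2 : ℝ) ≤ (z : ℝ) ^ (1 - κ) :=
    ((tendsto_rpow_atTop (by linarith : (0 : ℝ) < 1 - κ)).comp
      tendsto_natCast_atTop_atTop).eventually_ge_atTop _
  have ev3 : ∀ᶠ z : ℕ in atTop, C ≤ (z : ℝ) ^ (3 * η / 8) :=
    ((tendsto_rpow_atTop (by positivity : (0 : ℝ) < 3 * η / 8)).comp
      tendsto_natCast_atTop_atTop).eventually_ge_atTop _
  obtain ⟨z1, hz1⟩ := eventually_atTop.1 ((ev1.and ev2).and ev3)
  refine ⟨z1 + 2 * s + 16, fun z hz x hx c hmass a S hS => ?_⟩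
  obtain ⟨⟨e1, e2⟩, e3⟩ := hz1 z (by omega)
  have hzr : (16 : ℝ) ≤ z := by exact_mod_cast (by omega : 16 ≤ z)
  have hz0 : (0 : ℝ) < z := by linarith
  have hz1' : (1 : ℝ) ≤ z := by linarith
  set q := qq z 0 with hq
  have hq0 : 0 < q := Pool.Agent.Work.MP_b0c12c_nt_shift.MM.qq_pos z 0
  have hqr : (0 : ℝ) < q := by exact_mod_cast hq0
  set W := w1 κ z with hW
  have hx0 : (0 : ℝ) < x := by
    by_contra hcon
    have h4 : (x : ℝ) = 0 := le_antisymm (not_lt.1 hcon) (Nat.cast_nonneg x)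
    have h5 := hx.1
    rw [h4, Real.log_zero] at h5
    have : 0 < (z : ℝ) ^ (1 + κ) := by positivity
    linarith
  have hW3 : 3 ≤ W := by
    rw [hW]
    unfold w1
    rw [Nat.le_floor_iff (Real.exp_pos _).le]
    have h1 := Real.add_one_le_exp ((z : ℝ) ^ (1 - κ))
    push_cast
    linarith
  have hzle : (z : ℝ) ^ (1 - κ) ≤ z := by
    conv_rhs => rw [← Real.rpow_one (z : ℝ)]
    apply Real.rpow_le_rpow_of_exponent_le hz1'
    linarith
  have hWx : W ^ D * q ≤ x := by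
    have h1 : ((W ^ D * q : ℕ) : ℝ) ≤ x := by
      push_cast
      have h2 : (W : ℝ) ≤ Real.exp ((z : ℝ) ^ (1 - κ)) :=
        Pool.Agent.Work.MP_b0c12c_nt_shift.w1_le κ z
      have h3 : (W : ℝ) ^ D ≤ Real.exp (D * z) := by
        calc (W : ℝ) ^ D ≤ (Real.exp ((z : ℝ) ^ (1 - κ))) ^ D :=
              pow_le_pow_left₀ (Nat.cast_nonneg _) h2 D
          _ = Real.exp (D * (z : ℝ) ^ (1 - κ)) := by rw [← Real.exp_nat_mul]
          _ ≤ Real.exp (D * z) := by
              apply Real.exp_le_exp.2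
              exact mul_le_mul_of_nonneg_left hzle (Nat.cast_nonneg _)
      have h4 : (q : ℝ) ≤ Real.exp (2 * z) := by
        have h5 : ((q : ℕ) : ℝ) ≤ ((4 ^ z : ℕ) : ℝ) := by exact_mod_cast NKaux.qq_le z
        refine h5.trans ?_
        push_cast
        have h6 : (4 : ℝ) ≤ Real.exp 2 := by
          have h7 : Real.exp 2 = Real.exp 1 * Real.exp 1 := by rw [← Real.exp_add]; norm_num
          have h8 := Real.exp_one_gt_d9
          rw [h7]
          nlinarith
        calc (4 : ℝ) ^ z ≤ (Real.exp 2) ^ z := pow_le_pow_left₀ (by norm_num) h6 z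
          _ = Real.exp (2 * z) := by rw [← Real.exp_nat_mul]; ring_nf
      calc (W : ℝ) ^ D * q ≤ Real.exp (D * z) * Real.exp (2 * z) :=
            mul_le_mul h3 h4 hqr.le (Real.exp_pos _).le
        _ = Real.exp (z * (D + 2)) := by rw [← Real.exp_add]; ring_nf
        _ ≤ Real.exp (Real.log x) := by
            apply Real.exp_le_exp.2
            refine le_trans ?_ hx.1
            rw [Real.rpow_add hz0, Real.rpow_one]
            exact mul_le_mul_of_nonneg_left e1 hz0.le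
        _ = x := Real.exp_log hx0
    exact_mod_cast h1
  have hA : ∀ p ∈ AA κ B z 0, p.Prime ∧ 2 * s < p ∧ p ≤ W ∧ p.Coprime q := by
    intro p hp
    rw [Pool.Agent.Work.MP_b0c12c_nt_shift.MM.mem_AA] at hp
    obtain ⟨h4, ⟨h5, h6⟩, h7⟩ := hp
    have h8 : z ≤ z ^ B := Nat.le_self_pow (by omega) z
    refine ⟨h7, by omega, h6, ?_⟩
    rw [h7.coprime_iff_not_dvd]
    intro h9
    have := ((Pool.Agent.Work.MP_b0c12c_nt_shift.MM.dvd_qq_iff h7).1 h9).1
    omega
  have key := hws q a x W (AA κ B z 0) (fun p n => fac c p n ^ k) hq0 hW3 hA hWx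
    (fun p _ n => ⟨pow_nonneg (fac_mem c p n).1 k, pow_le_one₀ (fac_mem c p n).1
      (fac_mem c p n).2⟩)
    (fun p _ n m h => by simp only [fac_congr c h])
    (fun p hp => by
      refine le_trans ?_ (dU_le c p)
      rw [← card_cls]
      apply card_le_card
      intro m hm
      rw [Finset.mem_filter, Finset.mem_range] at hm
      by_contra hcon
      apply hm.2
      simp only [fac_of_notMem c hm.1 hcon, one_pow])
    S (fun n hn => ⟨(hS n hn).1, (hS n hn).2.1⟩)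
  -- upper bound of the product
  have hprod : ∏ p ∈ AA κ B z 0, ((∑ m ∈ range p, fac c p m ^ k) / (p : ℝ)) ≤
      (z : ℝ) ^ (-(2 + 3 * η / 4)) := by
    calc ∏ p ∈ AA κ B z 0, ((∑ m ∈ range p, fac c p m ^ k) / (p : ℝ))
        ≤ ∏ p ∈ AA κ B z 0, Real.exp (-((1 - τ) * ((dU c p : ℝ) / p))) := by
          apply Finset.prod_le_prod
          · intro p _
            exact div_nonneg (sum_nonneg fun m _ => pow_nonneg (fac_mem c p m).1 k)
              (Nat.cast_nonneg _)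
          · intro p hp
            refine (mean_le c (hA p hp).1.pos hk.le).trans ?_
            have := Real.add_one_le_exp (-((1 - τ) * ((dU c p : ℝ) / p)))
            linarith
      _ = Real.exp (-((1 - τ) * ∑ p ∈ AA κ B z 0, (dU c p : ℝ) / p)) := by
          rw [← Real.exp_sum, mul_sum, ← sum_neg_distrib]
      _ ≤ Real.exp (-((1 - τ) * ((2 + η) * Real.log z))) := by
          apply Real.exp_le_exp.2
          have := mul_le_mul_of_nonneg_left hmass (by linarith : 0 ≤ 1 - τ)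
          linarith
      _ = (z : ℝ) ^ (-(2 + 3 * η / 4)) := by
          rw [← mul_assoc, hτη, Real.rpow_def_of_pos hz0]
          ring_nf
  -- lower bound of the sum
  have hlow : (S.card : ℝ) * (z : ℝ) ^ (-ρ * k) ≤ ∑ n ∈ S, ∏ p ∈ AA κ B z 0, fac c p n ^ k := by
    rw [← nsmul_eq_mul, ← sum_const]
    apply sum_le_sum
    intro n hn
    rw [prod_pow, ← PU_eq]
    have h1 := (hS n hn).2.2
    have h2 : (z : ℝ) ^ (-ρ * k) = ((z : ℝ) ^ (-ρ)) ^ k := by
      rw [← Real.rpow_natCast, ← Real.rpow_mul hz0.le]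
    rw [h2]
    exact pow_le_pow_left₀ (by positivity) h1.le k
  have hxq : 0 < (x : ℝ) / q := by positivity
  have h5 : (S.card : ℝ) * (z : ℝ) ^ (-ρ * k) ≤
      (z : ℝ) ^ (3 * η / 8) * (x / q) * (z : ℝ) ^ (-(2 + 3 * η / 4)) := by
    refine (hlow.trans key).trans ?_
    apply mul_le_mul _ hprod _ (by positivity)
    · exact mul_le_mul_of_nonneg_right e3 hxq.le
    · exact prod_nonneg fun p _ => div_nonneg (sum_nonneg fun m _ => pow_nonneg (fac_mem c p m).1 k)
              (Nat.cast_nonneg _)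
  have h6 : (S.card : ℝ) = (S.card : ℝ) * (z : ℝ) ^ (-ρ * k) * (z : ℝ) ^ (ρ * k) := by
    rw [mul_assoc, ← Real.rpow_add hz0]
    have : -ρ * k + ρ * k = 0 := by ring
    rw [this, Real.rpow_zero, mul_one]
  rw [h6]
  calc (S.card : ℝ) * (z : ℝ) ^ (-ρ * k) * (z : ℝ) ^ (ρ * k)
      ≤ (z : ℝ) ^ (3 * η / 8) * (x / q) * (z : ℝ) ^ (-(2 + 3 * η / 4)) * (z : ℝ) ^ (ρ * k) :=
        mul_le_mul_of_nonneg_right h5 (by positivity)
    _ = x / q * (z : ℝ) ^ (3 * η / 8 + -(2 + 3 * η / 4) + ρ * k) := by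
        rw [Real.rpow_add hz0, Real.rpow_add hz0]
        ring
    _ ≤ x / q * (z : ℝ) ^ (-(2 + 3 * κ) - ρ) := by
        apply mul_le_mul_of_nonneg_left _ hxq.le
        apply Real.rpow_le_rpow_of_exponent_le hz1'
        have : ρ * k = η / 4 - ρ := by linarith
        linarith

end Pool.Agent.Work.MP_b0c12c_nt_univ
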