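import Mathlib
import Pool.Agent.Work.MP_b0c12c_nt_univ.Interface
import Pool.Agent.Work.MP_b0c12c_nt_univ.Op
import Pool.Agent.Work.MP_b0c12c_nt_shift.RW

/-!
# Block RWU: good rows (adapted from the block RW of the shift project)
-/

set_option autoImplicit false

namespace Pool.Agent.Work.MP_b0c12c_nt_univ

open Finset Filter
open Pool.Agent.Work.MP_b0c12c_nt_shift (qq AA w1 InR PX rows)
open Pool.Agent.Work.MP_b0c12c_nt (Cq IsMod IsBuchstab rough_q)
open Pool.Agent.Work.MP_b0c12c_nt_helper63 (buch buch_isBuchstab explicit23)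
open Pool.Agent.Work.MP_b0c12c_nt_shift.RWaux (rw0 rw0_sub rw0_card qq_mod qq_dvd qq_pos mem_qq sizes)

namespace RWUaux

variable {s : ℕ}

lemma cols {c : ℕ → Fin s → ℕ} {v : ℕ → Fin s} {A : Finset ℕ} {x U q b : ℕ} (hq : 0 < q)
    {R : Finset ℕ}
    (hR : R ⊆ rows x q b U) (F : ℕ → ℝ) (hF : ∀ n, 0 ≤ F n) {Bd : ℝ} {J : Finset ℕ}
    (hJU : ∀ j ∈ J, j ≤ U)
    (hJ : ∀ r ∈ R, ∀ n ∈ SurU c v A x U (r * q + b), n - (r * q + b) ∈ J)
    (h : ∀ j ∈ J, ∀ S : Finset ℕ,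
      (∀ n ∈ S, n ∈ Ioc x (2 * x) ∧ n ≡ b + j [MOD q] ∧ SurvU c v A x n) → ∑ n ∈ S, F n ≤ Bd) :
    ∑ r ∈ R, ∑ n ∈ SurU c v A x U (r * q + b), F n ≤ J.card * Bd := by
  classical
  have e1 : ∀ r ∈ R, ∑ n ∈ SurU c v A x U (r * q + b), F n ≤
      ∑ j ∈ J.filter (fun j => SurvU c v A x (r * q + b + j)), F (r * q + b + j) := by
    intro r hr
    rw [← sum_image (f := F) (g := fun j => r * q + b + j) (by
      intro a _ d _ h
      simpa using h)]
    apply sum_le_sum_of_subset_of_nonneg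
    · intro n hn
      have hn' := hJ r hr n hn
      unfold SurU at hn
      rw [mem_filter, mem_Ioc] at hn
      rw [mem_image]
      refine ⟨n - (r * q + b), mem_filter.2 ⟨hn', ?_⟩, by omega⟩
      rw [show r * q + b + (n - (r * q + b)) = n by omega]
      exact hn.2
    · intro n _ _
      exact hF n
  refine (sum_le_sum e1).trans ?_
  have e2 : ∑ r ∈ R, ∑ j ∈ J.filter (fun j => SurvU c v A x (r * q + b + j)), F (r * q + b + j) =
      ∑ j ∈ J, ∑ r ∈ R.filter (fun r => SurvU c v A x (r * q + b + j)), F (r * q + b + j) := by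
    simp_rw [sum_filter]
    exact sum_comm
  rw [e2, ← nsmul_eq_mul]
  apply sum_le_card_nsmul
  intro j hj
  have e3 : ∑ r ∈ R.filter (fun r => SurvU c v A x (r * q + b + j)), F (r * q + b + j) =
      ∑ n ∈ (R.filter (fun r => SurvU c v A x (r * q + b + j))).image (fun r => r * q + b + j), F n := by
    rw [sum_image]
    intro a _ d _ h
    have : a * q = d * q := by simpa using h
    exact Nat.eq_of_mul_eq_mul_right hq this
  rw [e3]
  apply h j hj
  intro n hn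
  rw [mem_image] at hn
  obtain ⟨r, hr, rfl⟩ := hn
  rw [mem_filter] at hr
  have h3 := hR hr.1
  rw [rows, mem_filter] at h3
  have h4 := hJU j hj
  refine ⟨mem_Ioc.2 ⟨by omega, by omega⟩, ?_, hr.2⟩
  have h5 : r * q + b + j = b + j + q * r := by ring
  rw [h5]
  exact Nat.add_mul_mod_self_left _ _ _

/-- The columns of the survivors. -/
lemma col_mem {κ : ℝ} {B z x U b r n : ℕ} {c : ℕ → Fin s → ℕ} {v : ℕ → Fin s} (hB : 1 ≤ B)
    (hzx : z * z ≤ x) (hb : IsBU c v z b)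
    (hn : n ∈ SurU c v (AA κ B z 0) x U (r * qq z 0 + b)) :
    n - (r * qq z 0 + b) ∈ (Icc 2 U).filter (fun j => j.Coprime (qq z 0)) := by
  classical
  unfold SurU at hn
  rw [mem_filter, mem_Ioc] at hn
  obtain ⟨⟨h1, h2⟩, h3⟩ := hn
  rw [mem_filter, mem_Icc]
  refine ⟨⟨by omega, by omega⟩, ?_⟩
  by_contra hcon
  rw [Nat.Prime.not_coprime_iff_dvd] at hcon
  obtain ⟨p, hp, h4, h5⟩ := hcon
  obtain ⟨h6, h7⟩ := mem_qq hp h5
  have h8 : p * p ≤ x := (Nat.mul_le_mul h6 h6).trans hzx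
  have h9 : p ∉ AA κ B z 0 := by
    intro h
    rw [Pool.Agent.Work.MP_b0c12c_nt_shift.MTaux.mem_AA] at h
    have := Nat.le_self_pow (by omega : B ≠ 0) z
    omega
  apply h3 p hp h8 h9
  have h10 := hb.2 p hp h6
  have h11 : n ≡ b [MOD p] := by
    have h12 : n = (n - (r * qq z 0 + b)) + r * qq z 0 + b := by omega
    rw [h12]
    have h13 : (n - (r * qq z 0 + b)) + r * qq z 0 ≡ 0 [MOD p] :=
      (Nat.modEq_zero_iff_dvd).2 (dvd_add h4 (Dvd.dvd.mul_left h5 _))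
    have h14 := Nat.ModEq.add_right b h13
    rwa [zero_add] at h14
  exact h11.trans h10

/-- Size conditions for the weak survivors. -/
lemma size_weak {κ ρ ρN : ℝ} (hκ : 0 < κ) (hκ1 : κ ≤ 1 / 50) (hρ : 0 < ρ) (hN : 0 < ρN) :
    ∀ᶠ z : ℕ in atTop, ∀ U : ℕ, (U : ℝ) ≤ ((z : ℝ) + 1) ^ (2 + 3 * κ) →
      (U : ℝ) * (z : ℝ) ^ (-(2 + 3 * κ) - ρN) ≤ ρ := by
  have t1 : Tendsto (fun z : ℕ => (z : ℝ) ^ ρN) atTop atTop :=
    (tendsto_rpow_atTop hN).comp tendsto_natCast_atTop_atTop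
  filter_upwards [t1.eventually_ge_atTop (8 / ρ), eventually_ge_atTop 1] with z h1 h2
  intro U hU
  have hz : (1 : ℝ) ≤ z := by exact_mod_cast h2
  have hz0 : (0 : ℝ) < z := by linarith
  have h7 : ((z : ℝ) + 1) ^ (2 + 3 * κ) ≤ (2 * z) ^ (2 + 3 * κ) :=
    Real.rpow_le_rpow (by linarith) (by linarith) (by linarith)
  rw [Real.mul_rpow (by norm_num) hz0.le] at h7
  have h8 : (2 : ℝ) ^ (2 + 3 * κ) ≤ 8 := by
    calc (2 : ℝ) ^ (2 + 3 * κ) ≤ 2 ^ (3 : ℝ) :=
          Real.rpow_le_rpow_of_exponent_le (by norm_num) (by linarith)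
      _ = 8 := by norm_num
  have h9 : (U : ℝ) ≤ 8 * (z : ℝ) ^ (2 + 3 * κ) := by
    have : 0 < (z : ℝ) ^ (2 + 3 * κ) := by positivity
    nlinarith
  have h10 : (z : ℝ) ^ (2 + 3 * κ) * (z : ℝ) ^ (-(2 + 3 * κ) - ρN) * (z : ℝ) ^ ρN = 1 := by
    rw [← Real.rpow_add hz0, ← Real.rpow_add hz0]
    rw [show 2 + 3 * κ + (-(2 + 3 * κ) - ρN) + ρN = 0 by ring, Real.rpow_zero]
  have h11 : 0 < (z : ℝ) ^ (-(2 + 3 * κ) - ρN) := by positivity
  have h12 : (U : ℝ) * (z : ℝ) ^ (-(2 + 3 * κ) - ρN) ≤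
      8 * ((z : ℝ) ^ (2 + 3 * κ) * (z : ℝ) ^ (-(2 + 3 * κ) - ρN)) := by
    have := mul_le_mul_of_nonneg_right h9 h11.le
    linarith
  rw [div_le_iff₀ hρ] at h1
  obtain ⟨y, hy⟩ : ∃ y, y = (z : ℝ) ^ (2 + 3 * κ) * (z : ℝ) ^ (-(2 + 3 * κ) - ρN) := ⟨_, rfl⟩
  rw [← hy] at h10 h12
  have hy0 : 0 < y := by rw [hy]; positivity
  have h13 := mul_le_mul_of_nonneg_left h1 hy0.le
  have h14 : y * ((z : ℝ) ^ ρN * ρ) = ρ := by rw [← mul_assoc, h10, one_mul]
  linarith

/-- Counting bad rows. -/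
lemma bad_card {c : ℕ → Fin s → ℕ} {v : ℕ → Fin s} {A : Finset ℕ} {x U q b : ℕ} (R : Finset ℕ)
    (P : ℕ → Prop) [DecidablePred P] :
    ((R.filter (fun r => ∃ n ∈ SurU c v A x U (r * q + b), P n)).card : ℝ) ≤
      ∑ r ∈ R, ∑ n ∈ SurU c v A x U (r * q + b), (if P n then (1 : ℝ) else 0) := by
  have h0 : ∀ r, 0 ≤ ∑ n ∈ SurU c v A x U (r * q + b), (if P n then (1 : ℝ) else 0) := fun r =>
    sum_nonneg fun n _ => by split_ifs <;> norm_num
  rw [card_eq_sum_ones]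
  push_cast
  refine (sum_le_sum fun r hr => ?_).trans (sum_le_sum_of_subset_of_nonneg (filter_subset
    (fun r => ∃ n ∈ SurU c v A x U (r * q + b), P n) R) fun r _ _ => h0 r)
  rw [mem_filter] at hr
  obtain ⟨n, hn, hP⟩ := hr.2
  refine le_trans ?_ (single_le_sum (f := fun n => if P n then (1 : ℝ) else 0)
    (fun n _ => by split_ifs <;> norm_num) hn)
  simp [hP]

/-- Arithmetic of the total. -/
lemma arith1 {c ρ U φ q x L X J : ℝ} (hρ : 0 < ρ) (hφ : 0 < φ)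
    (hq : 0 < q) (hx : 0 < x) (hL : 0 < L)
    (hX : X = x / q) (hJ : J ≤ c / 2 * U * (φ / q)) :
    J * ((1 + ρ) * 2 * x / (φ * L)) ≤ c * (1 + ρ) * (U * X / L) := by
  have hnn : 0 ≤ (1 + ρ) * 2 * x / (φ * L) := by positivity
  refine (mul_le_mul_of_nonneg_right hJ hnn).trans (le_of_eq ?_)
  rw [hX]
  field_simp

end RWUaux

open RWUaux
open Pool.Agent.Work.MP_b0c12c_nt_shift.RWaux (arith2)

set_option maxHeartbeats 4000000

/-- Block RWU. -/
theorem stmt_RWU (hM : Stmt_MN) (hNK : Stmt_NK) : Stmt_RWU := by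
  classical
  intro s hs η hη lam g hg hlam
  have he : 0 < Real.exp Real.eulerMascheroniConstant := Real.exp_pos _
  obtain ⟨c, hc1, hc2⟩ : ∃ c, Real.exp Real.eulerMascheroniConstant < c ∧ g * c < lam := by
    obtain ⟨c, h1, h2⟩ := exists_between (show Real.exp Real.eulerMascheroniConstant < lam / g by
      rw [lt_div_iff₀ hg]
      linarith)
    refine ⟨c, h1, ?_⟩
    rw [lt_div_iff₀ hg] at h2
    linarith
  have hc0 : 0 < c := lt_trans (by positivity) hc1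
  have hlam0 : 0 < lam := lt_trans (by positivity) hc2
  obtain ⟨ρ, hρ⟩ : ∃ ρ, ρ = (1 - g * c / lam) / 10 := ⟨_, rfl⟩
  have hr1 : g * c / lam < 1 := by rw [div_lt_one hlam0]; exact hc2
  have hr0 : 0 < g * c / lam := by positivity
  have hρ0 : 0 < ρ := by rw [hρ]; linarith
  have hρ1 : ρ < 1 / 10 := by rw [hρ]; linarith
  obtain ⟨ρN, hρN, κN, hκN, hκN1, hNK⟩ := hNK s hs η hη
  -- the range of κ
  obtain ⟨κ0, hκ00, hκ01, hκ02, hκ03⟩ : ∃ κ0 : ℝ, 0 < κ0 ∧ κ0 ≤ 1 / 50 ∧ κ0 ≤ κN ∧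
      (1 + 3 * κ0) * (Real.exp Real.eulerMascheroniConstant / 2) < c / 2 := by
    have h1 : 0 < c / Real.exp Real.eulerMascheroniConstant - 1 := by
      rw [sub_pos, lt_div_iff₀ (by positivity)]
      linarith
    obtain ⟨t, ht1, ht2⟩ := exists_between h1
    refine ⟨min (t / 3) κN, by positivity, (min_le_right _ _).trans hκN1, min_le_right _ _, ?_⟩
    have h2 : 1 + 3 * min (t / 3) κN ≤ 1 + t := by
      have := min_le_left (t / 3) κN
      linarith
    have h3 : 1 + t < c / Real.exp Real.eulerMascheroniConstant := by linarith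
    rw [lt_div_iff₀ (by positivity)] at h3
    have h4 : (1 + 3 * min (t / 3) κN) * Real.exp Real.eulerMascheroniConstant < c :=
      lt_of_le_of_lt (mul_le_mul_of_nonneg_right h2 (by positivity)) h3
    linarith
  refine ⟨min ρ ρN, lt_min hρ0 hρN, κ0, hκ00, hκ01, fun κ hκ hκκ B hB => ?_⟩
  have hκ1 : κ ≤ 1 / 50 := hκκ.trans hκ01
  -- rough numbers
  have hbuch : buch (2 + 3 * κ) / Real.exp (-Real.eulerMascheroniConstant) < c / 2 := by
    rw [explicit23 buch_isBuchstab (by linarith) (by linarith), Real.exp_neg, div_inv_eq_mul]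
    refine lt_of_le_of_lt ?_ hκ03
    have h1 : Real.log (2 + 3 * κ - 1) ≤ 3 * κ := by
      have := Real.log_le_sub_one_of_pos (show 0 < 2 + 3 * κ - 1 by linarith)
      linarith
    have h2 : (1 + Real.log (2 + 3 * κ - 1)) / (2 + 3 * κ) ≤ (1 + 3 * κ0) / 2 := by
      rw [div_le_div_iff₀ (by linarith) (by norm_num)]
      nlinarith
    calc (1 + Real.log (2 + 3 * κ - 1)) / (2 + 3 * κ) * Real.exp Real.eulerMascheroniConstant ≤
          (1 + 3 * κ0) / 2 * Real.exp Real.eulerMascheroniConstant :=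
          mul_le_mul_of_nonneg_right h2 he.le
      _ = _ := by ring
  obtain ⟨K1, hrough⟩ := rough_q buch_isBuchstab (by linarith) hbuch
  obtain ⟨zM, hzM⟩ := hM ρ hρ0 κ hκ (by linarith) B hB
  obtain ⟨zK, hzK⟩ := hNK κ hκ (hκκ.trans hκ02) B hB
  obtain ⟨z3, hz3⟩ := eventually_atTop.1 ((hrough.and (sizes hκ hκ1 hρ0)).and
    (size_weak hκ hκ1 hρ0 hρN))
  refine ⟨max (max zM zK) z3, fun z hz x U hx hU1 hU2 hU3 cl hcl v b hb => ?_⟩
  have g1 : zM ≤ z := le_trans (by simp) hz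
  have g2 : zK ≤ z := le_trans (by simp) hz
  have g5 : z3 ≤ z := le_trans (by simp) hz
  obtain ⟨⟨hcq, hz16, hsz⟩, hweak⟩ := hz3 z g5
  have hU3' : (U : ℝ) ≤ (1 + ρ) * g * Real.log x ^ 2 := by
    refine hU3.trans ?_
    have h1 : (1 + min ρ ρN) * g ≤ (1 + ρ) * g :=
      mul_le_mul_of_nonneg_right (by linarith [min_le_left ρ ρN]) hg.le
    exact mul_le_mul_of_nonneg_right h1 (sq_nonneg _)
  obtain ⟨s1, s2, s3, s4, s5, s6⟩ := hsz x U hx hU2
  have s7 := hweak U hU2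
  obtain ⟨q, hq⟩ : ∃ q, q = qq z 0 := ⟨_, rfl⟩
  have hmod : IsMod K1 z q := by
    rw [hq]
    exact qq_mod (Or.inl rfl)
  have hq0 : 0 < q := by rw [hq]; exact qq_pos z 0
  have hqR : (0 : ℝ) < q := by exact_mod_cast hq0
  have hq4 : (q : ℝ) ≤ 4 ^ z := by
    have h1 : q ≤ primorial z := by
      rw [hq]
      exact Nat.le_of_dvd (primorial_pos z) (qq_dvd z 0)
    have h2 := h1.trans (primorial_le_four_pow z)
    exact_mod_cast h2
  have hφ0 : (0 : ℝ) < (q.totient : ℝ) := by exact_mod_cast Nat.totient_pos.2 hq0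
  have hzR : (16 : ℝ) ≤ z := by exact_mod_cast hz16
  have hUx : U + 1 ≤ x := by
    have h1 : (U : ℝ) + 1 ≤ x := by
      have : (0 : ℝ) < 4 ^ z := by positivity
      linarith
    exact_mod_cast h1
  have hbq : b < q := by rw [hq]; exact hb.1
  have hbx : b ≤ x := by
    have h1 : (q : ℝ) ≤ x := by
      have : (0 : ℝ) ≤ (U : ℝ) := Nat.cast_nonneg U
      linarith
    have h2 : q ≤ x := by exact_mod_cast h1
    omega
  have hzx : z * z ≤ x := by exact_mod_cast s2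
  have hx0 : (0 : ℝ) < x := by
    have : (0 : ℝ) < (z : ℝ) * z := by positivity
    linarith
  -- the rows and the columns
  obtain ⟨A, hA⟩ : ∃ A, A = AA κ B z 0 := ⟨_, rfl⟩
  obtain ⟨R0, hR0⟩ : ∃ R0, R0 = rw0 x q b U := ⟨_, rfl⟩
  have hR0s : R0 ⊆ rows x q b U := by rw [hR0]; exact rw0_sub hq0 hbx hUx
  obtain ⟨J, hJ⟩ : ∃ J, J = (Icc 2 U).filter (fun j => j.Coprime q) := ⟨_, rfl⟩
  have hJU : ∀ j ∈ J, j ≤ U := by
    intro j hj
    rw [hJ, mem_filter, mem_Icc] at hj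
    exact hj.1.2
  have hJc : ∀ r ∈ R0, ∀ n ∈ SurU cl v A x U (r * q + b), n - (r * q + b) ∈ J := by
    intro r _ n hn
    rw [hJ, hq]
    rw [hA, hq] at hn
    exact col_mem (by omega) hzx hb hn
  have hJcard : (J.card : ℝ) ≤ c / 2 * U * (q.totient / q) := by
    refine le_trans ?_ (hcq q hmod U hU1 hU2)
    have h1 : J ⊆ Cq q U := by
      intro j hj
      rw [hJ, mem_filter, mem_Icc] at hj
      unfold Cq
      rw [mem_filter, mem_Icc]
      exact ⟨⟨by omega, hj.1.2⟩, hj.2⟩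
    exact_mod_cast card_le_card h1
  have hJcard' : (J.card : ℝ) ≤ U := by
    have h1 : J.card ≤ (Icc 2 U).card := by rw [hJ]; exact card_filter_le _ _
    rw [Nat.card_Icc] at h1
    have h2 : J.card ≤ U := by omega
    exact_mod_cast h2
  obtain ⟨X, hX⟩ : ∃ X : ℝ, X = (x : ℝ) / q := ⟨_, rfl⟩
  have hX0 : 0 < X := by rw [hX]; positivity
  have hL0 : 0 < Real.log x := by linarith
  have hP0 : ∀ n, 0 ≤ PU cl A n := fun n => PU_nonneg cl A n
  -- total of the row sums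
  have hT : ∑ r ∈ R0, ∑ n ∈ SurU cl v A x U (r * q + b), PU cl A n ≤
      (J.card : ℝ) * ((1 + ρ) * 2 * x / (q.totient * Real.log x)) := by
    apply cols hq0 hR0s _ hP0 hJU hJc
    intro j _ S hS
    rw [hA, hq]
    apply hzM z g1 x hx s hs cl v (b + j)
    rw [← hq, ← hA]
    exact hS
  have hT2 : (J.card : ℝ) * ((1 + ρ) * 2 * x / (q.totient * Real.log x)) ≤
      c * (1 + 2 * ρ) * (U * X / Real.log x) := by
    refine (arith1 (c := c) (U := (U : ℝ)) hρ0 hφ0 hqR hx0 hL0 hX hJcard).trans ?_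
    have h1 : 0 ≤ (U : ℝ) * X / Real.log x := by positivity
    apply mul_le_mul_of_nonneg_right _ h1
    nlinarith
  have hT3 : c * (1 + 2 * ρ) * (U * X / Real.log x) ≤ (1 - 6 * ρ) * X * (lam * Real.log x) :=
    arith2 hc0 hρ0 hL0 hX0 hlam0 hρ hU3'
  -- the two kinds of bad rows
  have hB1 : ((R0.filter (fun r => ¬ (∑ n ∈ SurU cl v A x U (r * q + b),
      PU cl A n) ≤ lam * Real.log x)).card : ℝ) ≤ (1 - 6 * ρ) * X := by
    have hp : 0 < lam * Real.log x := by positivity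
    have h1 : ((R0.filter (fun r => ¬ (∑ n ∈ SurU cl v A x U (r * q + b),
      PU cl A n) ≤ lam * Real.log x)).card : ℝ) * (lam * Real.log x) ≤
      ∑ r ∈ R0, ∑ n ∈ SurU cl v A x U (r * q + b), PU cl A n := by
      rw [← nsmul_eq_mul]
      refine (card_nsmul_le_sum _ _ _ ?_).trans (sum_le_sum_of_subset_of_nonneg (filter_subset
        (fun r => ¬ (∑ n ∈ SurU cl v A x U (r * q + b), PU cl A n) ≤ lam * Real.log x) R0) ?_)
      · intro r hr
        rw [mem_filter, not_le] at hr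
        exact hr.2.le
      · intro r _ _
        exact sum_nonneg fun n _ => hP0 n
    have h2 := h1.trans (hT.trans (hT2.trans hT3))
    exact le_of_mul_le_mul_right h2 hp
  have hsmall : (J.card : ℝ) * (x / q * (z : ℝ) ^ (-(2 + 3 * κ) - ρN)) ≤ ρ * X := by
    have h1 : (0 : ℝ) < (z : ℝ) ^ (-(2 + 3 * κ) - ρN) := by positivity
    calc (J.card : ℝ) * (x / q * (z : ℝ) ^ (-(2 + 3 * κ) - ρN)) ≤
          U * (x / q * (z : ℝ) ^ (-(2 + 3 * κ) - ρN)) :=
          mul_le_mul_of_nonneg_right hJcard' (by positivity)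
      _ = (U * (z : ℝ) ^ (-(2 + 3 * κ) - ρN)) * X := by rw [hX]; ring
      _ ≤ ρ * X := mul_le_mul_of_nonneg_right s7 hX0.le
  obtain ⟨P1, hP1⟩ : ∃ P1 : ℕ → Prop, P1 = fun n => (z : ℝ) ^ (-ρN) < PU cl A n := ⟨_, rfl⟩
  have hB2 : ((R0.filter (fun r => ∃ n ∈ SurU cl v A x U (r * q + b), P1 n)).card : ℝ) ≤ ρ * X := by
    refine (bad_card R0 P1).trans (le_trans (cols hq0 hR0s _ ?_ hJU hJc ?_) hsmall)
    · intro n
      split_ifs <;> norm_num
    · intro j hj S hS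
      rw [sum_boole, hq]
      apply hzK z g2 x hx cl hcl (b + j)
      intro n hn
      rw [mem_filter] at hn
      obtain ⟨h1, h2⟩ := hn
      obtain ⟨h3, h4, -⟩ := hS n h1
      rw [hP1] at h2
      rw [← hA, ← hq]
      exact ⟨h3, h4, h2⟩
  -- the good rows
  obtain ⟨R, hR⟩ : ∃ R, R = R0.filter (fun r => (∑ n ∈ SurU cl v A x U (r * q + b),
      PU cl A n) ≤ lam * Real.log x ∧
      (∀ n ∈ SurU cl v A x U (r * q + b), ¬ P1 n)) :=
    ⟨_, rfl⟩
  have hcard : (R0.card : ℝ) ≤ R.card + ((1 - 6 * ρ) * X + ρ * X) := by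
    have h1 : R0 ⊆ R ∪ ((R0.filter (fun r => ¬ (∑ n ∈ SurU cl v A x U (r * q + b),
      PU cl A n) ≤ lam * Real.log x)) ∪
      R0.filter (fun r => ∃ n ∈ SurU cl v A x U (r * q + b), P1 n)) := by
      intro r hr
      rw [mem_union, mem_union, hR, mem_filter, mem_filter, mem_filter]
      by_cases k1 : (∑ n ∈ SurU cl v A x U (r * q + b), PU cl A n) ≤ lam * Real.log x
      · by_cases k2 : ∃ n ∈ SurU cl v A x U (r * q + b), P1 n
        · exact Or.inr (Or.inr ⟨hr, k2⟩)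
        · push Not at k2
          exact Or.inl ⟨hr, k1, k2⟩
      · exact Or.inr (Or.inl ⟨hr, k1⟩)
    have h2 := (card_le_card h1).trans ((card_union_le _ _).trans (Nat.add_le_add_left
      (card_union_le _ _) _))
    have h3 : (R0.card : ℝ) ≤ (R.card : ℝ) + (((R0.filter (fun r =>
      ¬ (∑ n ∈ SurU cl v A x U (r * q + b), PU cl A n) ≤ lam * Real.log x)).card : ℝ) +
      ((R0.filter (fun r => ∃ n ∈ SurU cl v A x U (r * q + b), P1 n)).card : ℝ)) := by
      exact_mod_cast h2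
    linarith
  have hR0card : (1 - ρ) * X ≤ R0.card := by
    have h1 := rw0_card (x := x) (q := q) (b := b) (U := U) hbx hUx
    rw [← hR0] at h1
    have h2 : ((x : ℝ) - U - 1) / q - 1 = X - (U + 1 + q) / q := by
      rw [hX]
      field_simp
      ring
    have h3 : ((U : ℝ) + 1 + q) / q ≤ ρ * X := by
      rw [hX, div_le_iff₀ hqR]
      have : ρ * ((x : ℝ) / q) * q = ρ * x := by field_simp
      rw [this]
      linarith
    linarith
  refine ⟨R, ?_, ?_, ?_⟩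
  · rw [hR, ← hq]
    exact (filter_subset _ _).trans hR0s
  · rw [← hq, ← hX]
    have h1 : 0 < ρ * X := by positivity
    have h2 : (1 - ρ) * X = X - ρ * X := by ring
    have h3 : (1 - 6 * ρ) * X = X - 6 * (ρ * X) := by ring
    rw [h2] at hR0card
    rw [h3] at hcard
    have h4 : min ρ ρN * X ≤ ρ * X := mul_le_mul_of_nonneg_right (min_le_left _ _) hX0.le
    linarith
  · intro r hr
    rw [hR, mem_filter] at hr
    obtain ⟨-, k1, k2⟩ := hr
    rw [← hq, ← hA]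
    refine ⟨k1, fun n hn => ?_⟩
    have h1 := k2 n hn
    rw [hP1] at h1
    push Not at h1
    refine h1.trans ?_
    apply Real.rpow_le_rpow_of_exponent_le (by linarith)
    linarith [min_le_right ρ ρN]

end Pool.Agent.Work.MP_b0c12c_nt_univ
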