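import Mathlib
import Pool.Agent.Work.MP_b0c12c_nt_univ.Op
import Pool.Agent.Work.MP_b0c12c_nt_univ.Interface
import Pool.Agent.Work.MP_b0c12c_nt_shift.SCSize
import Pool.Agent.Work.MP_b0c12c_nt_shift.MAux
import Pool.Agent.Work.MP_b0c12c_nt_shift.SC

/-!
# Block SCU: the probability that there is no empty window at scale `z`
-/

set_option autoImplicit false

namespace Pool.Agent.Work.MP_b0c12c_nt_univ

open Finset Filter
open Pool.Agent.Work.MP_b0c12c_nt_shift (qq AA w1 InR PX rows)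

namespace SCUaux

variable {s : ℕ}

/-- the class of the rows exists -/
theorem exists_b (c : ℕ → Fin s → ℕ) (v : ℕ → Fin s) (z : ℕ) : ∃ b, IsBU c v z b := by
  set P := ((Icc 1 z).filter Nat.Prime).erase 0 with hP
  have hprime : ∀ p ∈ P, p.Prime := fun p hp => (mem_filter.1 (mem_of_mem_erase hp)).2
  have hcop : Set.Pairwise (P : Set ℕ) (Function.onFun Nat.Coprime (fun p => p)) := by
    intro p hp r hr hpr
    exact (Nat.coprime_primes (hprime p hp) (hprime r hr)).2 hpr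
  have hne : ∀ i ∈ P, (fun p : ℕ => p) i ≠ 0 := fun p hp => (hprime p hp).ne_zero
  refine ⟨(Nat.chineseRemainderOfFinset (fun p => c p (v p)) (fun p => p) P hne hcop : ℕ),
    ?_, ?_⟩
  · exact Nat.chineseRemainderOfFinset_lt_prod _ _ hne hcop
  · intro p hp hpz
    have hmem : p ∈ P := by
      rw [hP, mem_erase, mem_filter, mem_Icc]
      exact ⟨hp.ne_zero, ⟨hp.one_lt.le, hpz⟩, hp⟩
    exact (Nat.chineseRemainderOfFinset (fun p => c p (v p)) (fun p => p) P hne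
      hcop).2 p hmem

theorem dep_EmpU (c : ℕ → Fin s → ℕ) (A : Finset ℕ) (x U N : ℕ) :
    DependsOn (ind (EmpU c x U N)) ((DU c A U N : Set ℕ) ∪ (A : Set ℕ)ᶜ) := by
  apply ind_dependsOn
  intro v w hvw hv n hn
  obtain ⟨p, h1, h2, h3⟩ := hv n hn
  by_cases hpA : p ∈ A
  · have hpD : p ∈ DU c A U N := by
      simp only [DU, Finset.mem_filter]
      refine ⟨hpA, n, ?_, v p, h3⟩
      rw [mem_Ioc] at hn
      rw [mem_Icc]
      omega
    have h6 : v p = w p := hvw p (Or.inl hpD)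
    exact ⟨p, h1, h2, by rw [← h6]; exact h3⟩
  · have h6 : v p = w p := hvw p (Or.inr hpA)
    exact ⟨p, h1, h2, by rw [← h6]; exact h3⟩

/-- the random primes at scale `z` -/
theorem A_facts {κ : ℝ} (hκ : 0 < κ) : ∃ z0 : ℕ, ∀ z : ℕ, z0 ≤ z → ∀ (B x U : ℕ), 3 ≤ B →
    InR κ z x → U ≤ z ^ 3 → ∀ p ∈ AA κ B z 0, p.Prime ∧ U < p ∧ p * p ≤ x := by
  have ev3 : ∀ᶠ z : ℕ in atTop, (2 : ℝ) ≤ (z : ℝ) ^ (2 * κ) :=
    ((tendsto_rpow_atTop (by linarith : (0 : ℝ) < 2 * κ)).comp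
      tendsto_natCast_atTop_atTop).eventually_ge_atTop _
  obtain ⟨z1, hz1⟩ := eventually_atTop.1 ev3
  refine ⟨z1 + 16, fun z hz B x U hB hx hU => ?_⟩
  have h3 := hz1 z (by omega)
  have hzr : (16 : ℝ) ≤ z := by exact_mod_cast (by omega : 16 ≤ z)
  have hz0 : (0 : ℝ) < z := by linarith
  have hx0 : (0 : ℝ) < x := by
    by_contra hcon
    have h4 : (x : ℝ) = 0 := le_antisymm (not_lt.1 hcon) (Nat.cast_nonneg x)
    have h5 := hx.1
    rw [h4, Real.log_zero] at h5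
    have : 0 < (z : ℝ) ^ (1 + κ) := by positivity
    linarith
  intro p hp
  rw [Pool.Agent.Work.MP_b0c12c_nt_shift.MM.mem_AA] at hp
  obtain ⟨h4, ⟨h5, h6⟩, h7⟩ := hp
  have h8 : z ^ 3 ≤ z ^ B := Nat.pow_le_pow_right (by omega) hB
  have hw : (p : ℝ) ≤ Real.exp ((z : ℝ) ^ (1 - κ)) := by
    refine le_trans ?_ (Pool.Agent.Work.MP_b0c12c_nt_shift.w1_le κ z)
    exact_mod_cast h6
  refine ⟨h7, by omega, ?_⟩
  have h16 : ((p * p : ℕ) : ℝ) ≤ x := by
    push_cast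
    calc (p : ℝ) * p ≤ Real.exp ((z : ℝ) ^ (1 - κ)) * Real.exp ((z : ℝ) ^ (1 - κ)) := by
          gcongr
      _ = Real.exp (2 * (z : ℝ) ^ (1 - κ)) := by rw [← Real.exp_add]; ring_nf
      _ ≤ Real.exp (Real.log x) := by
          apply Real.exp_le_exp.2
          refine le_trans ?_ hx.1
          have h17 : (z : ℝ) ^ (1 + κ) = (z : ℝ) ^ (1 - κ) * (z : ℝ) ^ (2 * κ) := by
            rw [← Real.rpow_add hz0]
            congr 1
            ring
          rw [h17, mul_comm 2]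
          exact mul_le_mul_of_nonneg_left h3 (by positivity)
      _ = x := Real.exp_log hx0
  exact_mod_cast h16

/-- one configuration of the frozen primes -/
theorem fixed (hs : 0 < s) (hSM : Stmt_SMU) {A : Finset ℕ} {q x U b : ℕ} (hq0 : 0 < q)
    (hx : 0 < x) {z : ℕ} {lam' ρ η : ℝ} (hρ : 0 < ρ)
    (c : ℕ → Fin s → ℕ) (v : ℕ → Fin s)
    (hPC1 : ∑ rr ∈ (rows x q b U ×ˢ rows x q b U).filter (fun rr =>
        ((∏ p ∈ DU c A U (rr.1 * q + b) ∩ DU c A U (rr.2 * q + b), p : ℕ) : ℝ) ≤ x / q),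
      ((s : ℝ) ^ (DU c A U (rr.1 * q + b) ∩ DU c A U (rr.2 * q + b)).card - 1) ≤
        (x / q) ^ 2 / z)
    (hPC2 : (((rows x q b U ×ˢ rows x q b U).filter (fun rr => (x : ℝ) / q <
        ((∏ p ∈ DU c A U (rr.1 * q + b) ∩ DU c A U (rr.2 * q + b), p : ℕ) : ℝ))).card : ℝ) ≤
      (x / q) ^ 2 * (x : ℝ) ^ (-(1 - η)))
    (R : Finset ℕ) (hR : R ⊆ rows x q b U) (hRc : ρ * (x / q) ≤ R.card)
    (hrow : ∀ r ∈ R, (x : ℝ) ^ (-lam') * Real.exp (-1) ≤
      EU s A (ind (EmpU c x U (r * q + b))) v) :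
    EU s A (ind {w | ∀ N : ℕ, x ≤ N → N + U ≤ 2 * x → w ∉ EmpU c x U N}) v ≤
      Real.exp 1 * ((1 / z + (x : ℝ) ^ (-(1 - η)) * (x : ℝ) ^ lam') / ρ ^ 2) := by
  classical
  have hqr : (0 : ℝ) < q := by exact_mod_cast hq0
  have hx0 : (0 : ℝ) < x := by exact_mod_cast hx
  set H : ℝ := x / q with hH
  have hH0 : 0 < H := by positivity
  have hRpos : 0 < (R.card : ℝ) := lt_of_lt_of_le (by positivity) hRc
  have hRne : R.Nonempty := by
    rw [← card_pos]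
    exact_mod_cast hRpos
  set S : ℕ → Set (ℕ → Fin s) := fun r => EmpU c x U (r * q + b) with hS
  set D : ℕ → Finset ℕ := fun r => DU c A U (r * q + b) with hD
  set θ : ℝ := (x : ℝ) ^ (-lam') * Real.exp (-1) with hθ
  have hθ0 : 0 < θ := by positivity
  have hsm := hSM s hs A R S D H θ v hRne hθ0 (by
    intro r _
    refine ⟨fun p hp => ?_, dep_EmpU c A x U (r * q + b)⟩
    simp only [hD, DU, Finset.mem_filter] at hp
    exact hp.1) hrow
  -- comparison of the events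
  have hcmp : EU s A (ind {w | ∀ N : ℕ, x ≤ N → N + U ≤ 2 * x → w ∉ EmpU c x U N}) v ≤
      EU s A (ind {w | ∀ r ∈ R, w ∉ S r}) v := by
    apply EA_mono unif_nonneg
    intro w
    apply ind_mono
    intro hw r hr hwS
    have hrr := hR hr
    rw [rows, mem_filter] at hrr
    exact hw (r * q + b) (by omega) (by omega) hwS
  refine (hcmp.trans hsm).trans ?_
  have hs1 : (1 : ℝ) ≤ s := by exact_mod_cast hs
  -- the two sums
  have hsub : R ×ˢ R ⊆ rows x q b U ×ˢ rows x q b U := product_subset_product hR hR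
  have hg : ∑ rr ∈ (R ×ˢ R).filter (fun rr => ((∏ p ∈ D rr.1 ∩ D rr.2, p : ℕ) : ℝ) ≤ H),
      ((s : ℝ) ^ (D rr.1 ∩ D rr.2).card - 1) ≤ H ^ 2 / z := by
    refine le_trans (sum_le_sum_of_subset_of_nonneg (filter_subset_filter _ hsub) ?_) hPC1
    intro rr _ _
    have : 1 ≤ (s : ℝ) ^ (D rr.1 ∩ D rr.2).card := one_le_pow₀ hs1
    linarith
  have hbad : (((R ×ˢ R).filter (fun rr => H < ((∏ p ∈ D rr.1 ∩ D rr.2, p : ℕ) : ℝ))).card : ℝ) ≤
      H ^ 2 * (x : ℝ) ^ (-(1 - η)) := by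
    refine le_trans ?_ hPC2
    exact_mod_cast card_le_card (filter_subset_filter _ hsub)
  have he1 : 1 ≤ Real.exp 1 := Real.one_le_exp (by norm_num)
  have hnum : ∑ rr ∈ (R ×ˢ R).filter (fun rr => ((∏ p ∈ D rr.1 ∩ D rr.2, p : ℕ) : ℝ) ≤ H),
      ((s : ℝ) ^ (D rr.1 ∩ D rr.2).card - 1) +
      (((R ×ˢ R).filter (fun rr => H < ((∏ p ∈ D rr.1 ∩ D rr.2, p : ℕ) : ℝ))).card : ℝ) / θ ≤
      H ^ 2 * (Real.exp 1 * (1 / z + (x : ℝ) ^ (-(1 - η)) * (x : ℝ) ^ lam')) := by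
    have h1 : (((R ×ˢ R).filter (fun rr => H < ((∏ p ∈ D rr.1 ∩ D rr.2, p : ℕ) : ℝ))).card : ℝ) / θ ≤
        H ^ 2 * (x : ℝ) ^ (-(1 - η)) * ((x : ℝ) ^ lam' * Real.exp 1) := by
      have e : θ = ((x : ℝ) ^ lam' * Real.exp 1)⁻¹ := by
        rw [hθ, Real.rpow_neg hx0.le, Real.exp_neg, mul_inv]
      rw [e, div_inv_eq_mul]
      exact mul_le_mul_of_nonneg_right hbad (by positivity)
    have h2 : H ^ 2 / z ≤ Real.exp 1 * (H ^ 2 * (1 / z)) := by
      have h3 : H ^ 2 / z = H ^ 2 * (1 / z) := by ring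
      rw [h3]
      exact le_mul_of_one_le_left (by positivity) he1
    nlinarith
  have hE0 : 0 ≤ 1 / (z : ℝ) + (x : ℝ) ^ (-(1 - η)) * (x : ℝ) ^ lam' := by positivity
  calc _ ≤ (H ^ 2 * (Real.exp 1 * (1 / z + (x : ℝ) ^ (-(1 - η)) * (x : ℝ) ^ lam'))) /
          (R.card : ℝ) ^ 2 :=
        div_le_div_of_nonneg_right hnum (by positivity)
    _ ≤ (H ^ 2 * (Real.exp 1 * (1 / z + (x : ℝ) ^ (-(1 - η)) * (x : ℝ) ^ lam'))) /
          (ρ * H) ^ 2 := by
        apply div_le_div_of_nonneg_left (by positivity) (by positivity)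
        exact pow_le_pow_left₀ (by positivity) hRc 2
    _ = _ := by
        field_simp

end SCUaux

theorem stmt_SCU (hRW : Stmt_RWU) (hLL : Stmt_LL) (hSM : Stmt_SMU) (hPC : Stmt_PCU) :
    Stmt_SCU := by
  classical
  intro s hs η hη g hg0 hg
  have hG1 : g * Real.exp Real.eulerMascheroniConstant < 1 := by
    have h1 : g * Real.exp Real.eulerMascheroniConstant <
        Real.exp (-Real.eulerMascheroniConstant) * Real.exp Real.eulerMascheroniConstant :=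
      mul_lt_mul_of_pos_right hg (Real.exp_pos _)
    rwa [← Real.exp_add, neg_add_cancel, Real.exp_zero] at h1
  obtain ⟨lam, hlam⟩ : ∃ lam, lam = (1 + g * Real.exp Real.eulerMascheroniConstant) / 2 :=
    ⟨_, rfl⟩
  have hlam0 : 0 < lam := by rw [hlam]; positivity
  have hlam1 : lam < 1 := by rw [hlam]; linarith
  have hglam : g * Real.exp Real.eulerMascheroniConstant < lam := by rw [hlam]; linarith
  obtain ⟨ε, hε⟩ : ∃ ε, ε = (1 - lam) / 2 := ⟨_, rfl⟩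
  have hε0 : 0 < ε := by rw [hε]; linarith
  obtain ⟨lam', hlam'⟩ : ∃ lam', lam' = (1 + lam) / 2 := ⟨_, rfl⟩
  have hlam'1 : lam' < 1 := by rw [hlam']; linarith
  have hεlam : (1 + ε) * lam ≤ lam' := by
    rw [hε, hlam']
    nlinarith
  obtain ⟨ρ, hρ, κ0, hκ0, hκ0', hrw⟩ := hRW s hs η hη lam g hg0 hglam
  obtain ⟨B0, hpc⟩ := hPC s hs ((1 - lam') / 2) (by linarith)
  refine ⟨κ0, hκ0, hκ0', fun κ hκ hκ1 => ?_⟩
  have hκ50 : κ ≤ 1 / 50 := hκ1.trans hκ0'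
  obtain ⟨z1, hz1⟩ := hrw κ hκ hκ1 (B0 + 3) (by omega)
  obtain ⟨z2, hz2⟩ := hpc (B0 + 3) (by omega) κ hκ hκ50
  obtain ⟨z3, hz3⟩ := hLL s hs ρ ε hρ hε0
  obtain ⟨z5, hz5⟩ := SCUaux.A_facts hκ
  obtain ⟨z7, hz7⟩ := Pool.Agent.Work.MP_b0c12c_nt_shift.SC.sizes hg0 hρ hκ hκ50
  refine ⟨B0 + 3, by omega, fun δ hδ => ?_⟩
  have he0 : 0 < Real.exp 1 := Real.exp_pos 1
  obtain ⟨z6, hz6⟩ := Pool.Agent.Work.MP_b0c12c_nt_shift.SC.small_final (lam := lam') (ρ := ρ)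
    (δ := 2 * δ / Real.exp 1) hlam'1 hρ (by positivity)
  refine ⟨z1 + z2 + z3 + z5 + z6 + z7 + 16, fun z hz => ?_⟩
  obtain ⟨x, U, hx, hU1, hU2, hU3, hU4, hU5, hzx⟩ := hz7 z (by omega)
  have hU5' : U ≤ z ^ 3 := by omega
  have hA := hz5 z (by omega) (B0 + 3) x U (by omega) hx hU5'
  refine ⟨x, U, hx, hU4, fun c hmass v => ?_⟩
  set A := AA κ (B0 + 3) z 0 with hAdef
  have hzr : (16 : ℝ) ≤ z := by exact_mod_cast (by omega : 16 ≤ z)
  have hx0 : (0 : ℝ) < x := by exact_mod_cast (by omega : 0 < x)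
  have hzlog : (z : ℝ) ≤ Real.log x := by
    refine le_trans ?_ hx.1
    conv_lhs => rw [← Real.rpow_one (z : ℝ)]
    apply Real.rpow_le_rpow_of_exponent_le (by linarith)
    linarith
  have hfin := hz6 z x (by omega) hzlog
  have hAPX : A ⊆ PX x := by
    intro p hp
    obtain ⟨h1, h2, h3⟩ := hA p hp
    unfold PX
    rw [mem_filter, mem_Icc]
    exact ⟨⟨h1.one_lt.le, Nat.le_sqrt.2 h3⟩, h1⟩
  have hfix : ∀ w : ℕ → Fin s,
      EU s A (ind {w | ∀ N : ℕ, x ≤ N → N + U ≤ 2 * x → w ∉ EmpU c x U N}) w ≤ δ := by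
    intro w
    obtain ⟨b, hb⟩ := SCUaux.exists_b c w z
    obtain ⟨R, hR, hRc, hR'⟩ := hz1 z (by omega) x U hx hU1 hU2 hU3 c hmass w b hb
    have hpcz := hz2 z (by omega) x U b hx hU5' hb.1 c
    have h1 := SCUaux.fixed hs hSM (A := A) (q := qq z 0) (x := x) (U := U) (b := b)
      (Pool.Agent.Work.MP_b0c12c_nt_shift.MM.qq_pos z 0) (by omega) (z := z) (lam' := lam')
      (ρ := ρ) (η := (1 - lam') / 2) hρ c w hpcz.1 hpcz.2 R hR hRc (by
      intro r hr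
      obtain ⟨h2, h3⟩ := hR' r hr
      refine le_trans ?_ (hz3 z (by omega) A x U (r * qq z 0 + b) hU5' hA c w h3)
      rw [Real.rpow_def_of_pos hx0, ← Real.exp_add]
      apply Real.exp_le_exp.2
      have h4 : (1 + ε) * ∑ n ∈ SurU c w A x U (r * qq z 0 + b), PU c A n ≤
          (1 + ε) * (lam * Real.log x) := mul_le_mul_of_nonneg_left h2 (by linarith)
      have h5 : (1 + ε) * (lam * Real.log x) ≤ lam' * Real.log x := by
        rw [← mul_assoc]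
        exact mul_le_mul_of_nonneg_right hεlam (by linarith)
      linarith)
    refine h1.trans ?_
    have h2 : Real.exp 1 * ((1 / (z : ℝ) + (x : ℝ) ^ (-(1 - (1 - lam') / 2)) * (x : ℝ) ^ lam') /
        ρ ^ 2) ≤ Real.exp 1 * (2 * δ / Real.exp 1 / 2) :=
      mul_le_mul_of_nonneg_left hfin he0.le
    refine h2.trans (le_of_eq ?_)
    field_simp
  have hsplit : EU s (PX x) (ind {w | ∀ N : ℕ, x ≤ N → N + U ≤ 2 * x → w ∉ EmpU c x U N}) =
      EU s (PX x \ A) (EU s A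
        (ind {w | ∀ N : ℕ, x ≤ N → N + U ≤ 2 * x → w ∉ EmpU c x U N})) :=
    EA_sdiff hAPX _
  rw [hsplit]
  exact EA_le_const unif_nonneg (unif_sum hs) _ hfix v

end Pool.Agent.Work.MP_b0c12c_nt_univ
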