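import Pool.Agent.Work.MP_b0c12c_nt_univ.MN
import Pool.Agent.Work.MP_b0c12c_nt_univ.NK
import Pool.Agent.Work.MP_b0c12c_nt_univ.RWU
import Pool.Agent.Work.MP_b0c12c_nt_univ.LL
import Pool.Agent.Work.MP_b0c12c_nt_univ.SMU
import Pool.Agent.Work.MP_b0c12c_nt_univ.PCU
import Pool.Agent.Work.MP_b0c12c_nt_univ.SCU
import Pool.Agent.Work.MP_b0c12c_nt_univ.DIS
import Pool.Agent.Work.MP_b0c12c_nt_univ.MIX
import Pool.Agent.Work.MP_b0c12c_nt_univ.CHB
import Pool.Agent.Work.MP_b0c12c_nt_univ.SCA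
import Pool.Agent.Work.MP_b0c12c_nt_univ.INU
import Pool.Agent.Work.MP_b0c12c_nt_univ.PRU
import Pool.Agent.Work.MP_b0c12c_nt_univ.FINU

/-!
# The universal random sieve: the theorem
-/

set_option autoImplicit false

namespace Pool.Agent.Work.MP_b0c12c_nt_univ

open Finset Filter MeasureTheory ProbabilityTheory

theorem all_SCU : Stmt_SCU := stmt_SCU (stmt_RWU stmt_MN stmt_NK) stmt_LL stmt_SMU stmt_PCU

theorem all_SCA : Stmt_SCA := stmt_SCA all_SCU stmt_MIX stmt_CHB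

theorem main {Ω : Type*} [MeasurableSpace Ω] {μ : Measure Ω} [IsProbabilityMeasure μ]
    {a : ℕ → Ω → ℤ} (hmeas : ∀ p, Measurable (a p)) (hindep : iIndepFun a μ) {δ : ℝ} (hδ : 0 < δ)
    (hatom : ∀ᶠ p : ℕ in atTop, p.Prime → ∀ c : ℤ,
      μ.real {ω | a p ω ≡ c [ZMOD p]} ≤ 1 / 2 - δ) :
    ∀ᵐ ω ∂μ, (FINU.Sieve fun p => a p ω).Infinite ∧
      ((Real.exp (-Real.eulerMascheroniConstant) : ℝ) : EReal) ≤
        FINU.gapLim (FINU.Sieve fun p => a p ω) := by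
  obtain ⟨h1, h2⟩ := stmt_PRU μ a hmeas hindep
  exact FINU.main all_SCA stmt_INU h1 (fun T hT S hS => (h2 T hT S hS).2) hδ hatom

end Pool.Agent.Work.MP_b0c12c_nt_univ
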