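import Mathlib
import Pool.Agent.Work.MP_b0c12c_nt_univ.SCU

/-!
# Block SCA: random classes, no empty window with small probability
-/

set_option autoImplicit false

namespace Pool.Agent.Work.MP_b0c12c_nt_univ

open Finset Filter
open Pool.Agent.Work.MP_b0c12c_nt_shift (qq AA w1 InR PX rows)

namespace SCAaux

theorem CLaw_mono {V : ℕ → Finset ℕ} {π : ℕ → ℕ → ℝ} {δ δ' : ℝ} (h : CLaw V π δ)
    (hδ : δ' ≤ δ) : CLaw V π δ' := by
  obtain ⟨P, hP⟩ := h.atom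
  exact
    { nonneg := h.nonneg
      sum_one := h.sum_one
      lt := h.lt
      atom := ⟨P, fun p hp hPp a ha => (hP p hp hPp a ha).trans (by linarith)⟩ }

theorem pis_nonneg {V : ℕ → Finset ℕ} {π : ℕ → ℕ → ℝ} (h : IsLaw V π) (s : ℕ) :
    ∀ p, ∀ t ∈ Vs s V p, 0 ≤ pis s π p t := by
  intro p t ht
  unfold Vs at ht
  rw [Fintype.mem_piFinset] at ht
  exact prod_nonneg fun i _ => h.nonneg p _ (ht i)

theorem pis_sum {V : ℕ → Finset ℕ} {π : ℕ → ℕ → ℝ} (h : IsLaw V π) (s : ℕ) :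
    ∀ p, ∑ t ∈ Vs s V p, pis s π p t = 1 := by
  intro p
  unfold Vs pis
  have h1 := Finset.prod_univ_sum (fun _ : Fin s => V p) (fun (_ : Fin s) (a : ℕ) => π p a)
  rw [← h1]
  simp only [h.sum_one p, prod_const_one]

/-- the random primes are at most `√x` -/
theorem A_PX {κ : ℝ} (hκ : 0 < κ) : ∃ z0 : ℕ, ∀ z : ℕ, z0 ≤ z → ∀ (B x : ℕ),
    InR κ z x → AA κ B z 0 ⊆ PX x := by
  have ev3 : ∀ᶠ z : ℕ in atTop, (2 : ℝ) ≤ (z : ℝ) ^ (2 * κ) :=
    ((tendsto_rpow_atTop (by linarith : (0 : ℝ) < 2 * κ)).comp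
      tendsto_natCast_atTop_atTop).eventually_ge_atTop _
  obtain ⟨z1, hz1⟩ := eventually_atTop.1 ev3
  refine ⟨z1 + 16, fun z hz B x hx => ?_⟩
  have h3 := hz1 z (by omega)
  have hzr : (16 : ℝ) ≤ z := by exact_mod_cast (by omega : 16 ≤ z)
  have hz0 : (0 : ℝ) < z := by linarith
  have hx0 : (0 : ℝ) < x := by
    by_contra hcon
    have h4 : (x : ℝ) = 0 := le_antisymm (not_lt.1 hcon) (Nat.cast_nonneg x)
    have h5 := hx.1
    rw [h4, Real.log_zero] at h5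
    have : 0 < (z : ℝ) ^ (1 + κ) := by positivity
    linarith
  intro p hp
  rw [Pool.Agent.Work.MP_b0c12c_nt_shift.MM.mem_AA] at hp
  obtain ⟨h4, ⟨h5, h6⟩, h7⟩ := hp
  have hw : (p : ℝ) ≤ Real.exp ((z : ℝ) ^ (1 - κ)) := by
    refine le_trans ?_ (Pool.Agent.Work.MP_b0c12c_nt_shift.w1_le κ z)
    exact_mod_cast h6
  have h16 : ((p * p : ℕ) : ℝ) ≤ x := by
    push_cast
    calc (p : ℝ) * p ≤ Real.exp ((z : ℝ) ^ (1 - κ)) * Real.exp ((z : ℝ) ^ (1 - κ)) := by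
          gcongr
      _ = Real.exp (2 * (z : ℝ) ^ (1 - κ)) := by rw [← Real.exp_add]; ring_nf
      _ ≤ Real.exp (Real.log x) := by
          apply Real.exp_le_exp.2
          refine le_trans ?_ hx.1
          have h17 : (z : ℝ) ^ (1 + κ) = (z : ℝ) ^ (1 - κ) * (z : ℝ) ^ (2 * κ) := by
            rw [← Real.rpow_add hz0]
            congr 1
            ring
          rw [h17, mul_comm 2]
          exact mul_le_mul_of_nonneg_left h3 (by positivity)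
      _ = x := Real.exp_log hx0
  have h17 : p * p ≤ x := by exact_mod_cast h16
  unfold PX
  rw [mem_filter, mem_Icc]
  exact ⟨⟨h7.one_lt.le, Nat.le_sqrt.2 h17⟩, h7⟩

/-- `x` is large when `z` is -/
theorem le_of_InR {κ : ℝ} (hκ : 0 < κ) {z x : ℕ} (hz : 16 ≤ z) (hx : InR κ z x) : z ≤ x := by
  have hzr : (16 : ℝ) ≤ z := by exact_mod_cast hz
  have h1 : (z : ℝ) ≤ Real.log x := by
    refine le_trans ?_ hx.1
    conv_lhs => rw [← Real.rpow_one (z : ℝ)]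
    apply Real.rpow_le_rpow_of_exponent_le (by linarith)
    linarith
  have h2 : Real.log x ≤ x := Real.log_le_self (Nat.cast_nonneg x)
  exact_mod_cast h1.trans h2

end SCAaux

theorem stmt_SCA (hSCU : Stmt_SCU) (hMIX : Stmt_MIX) (hCHB : Stmt_CHB) : Stmt_SCA := by
  classical
  intro V π δ₀ hδ₀ hL₀ g hg0 hg ε hε x0
  obtain ⟨δ, hδdef⟩ : ∃ δ, δ = min δ₀ (1 / 4) := ⟨_, rfl⟩
  have hδ : 0 < δ := by rw [hδdef]; exact lt_min hδ₀ (by norm_num)
  have hδ2 : δ < 1 / 2 := by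
    have : δ ≤ 1 / 4 := by rw [hδdef]; exact min_le_right _ _
    linarith
  have hL : CLaw V π δ := SCAaux.CLaw_mono hL₀ (by rw [hδdef]; exact min_le_left _ _)
  have hI : IsLaw V π := hL.toIsLaw
  obtain ⟨s, hs, κ1, hκ1, hchb⟩ := hCHB δ hδ hδ2
  obtain ⟨κ2, hκ2, hκ2', hscu⟩ := hSCU s hs δ hδ g hg0 hg
  obtain ⟨κ, hκdef⟩ : ∃ κ, κ = min κ1 κ2 := ⟨_, rfl⟩
  have hκ : 0 < κ := by rw [hκdef]; exact lt_min hκ1 hκ2
  obtain ⟨B, hB, hscuB⟩ := hscu κ hκ (by rw [hκdef]; exact min_le_right _ _)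
  obtain ⟨z1, hz1⟩ := hchb κ hκ (by rw [hκdef]; exact min_le_left _ _) B hB V π hL (ε / 2)
    (by positivity)
  obtain ⟨z2, hz2⟩ := hscuB (ε / 2) (by positivity)
  obtain ⟨z3, hz3⟩ := SCAaux.A_PX hκ
  obtain ⟨z, hz⟩ : ∃ z, z = z1 + z2 + z3 + x0 + 16 := ⟨_, rfl⟩
  obtain ⟨x, U, hx, hU, hgood⟩ := hz2 z (by omega)
  have hzx := SCAaux.le_of_InR hκ (by omega) hx
  refine ⟨x, U, by omega, hU, ?_⟩
  have hAPX : AA κ B z 0 ⊆ PX x := hz3 z (by omega) B x hx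
  set f : (ℕ → ℕ) → ℝ := ind {w | ∀ N : ℕ, x ≤ N → N + U ≤ 2 * x →
        ∃ n ∈ Ioc (N + 1) (N + U), ∀ p : ℕ, p.Prime → p * p ≤ x → ¬ n ≡ w p [MOD p]} with hf
  have hmix := hMIX s hs V π hI (PX x) f (fun _ => 0) (fun _ _ => 0) (fun _ => ⟨0, hs⟩)
  rw [hmix]
  -- the inner average
  have hfeq : ∀ c : ℕ → Fin s → ℕ,
      (fun v : ℕ → Fin s => f (fun p => if p ∈ PX x then c p (v p) else 0)) =
      ind {w | ∀ N : ℕ, x ≤ N → N + U ≤ 2 * x → w ∉ EmpU c x U N} := by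
    intro c
    funext v
    have hiff : (fun p => if p ∈ PX x then c p (v p) else 0) ∈ {w : ℕ → ℕ | ∀ N : ℕ, x ≤ N →
        N + U ≤ 2 * x →
        ∃ n ∈ Ioc (N + 1) (N + U), ∀ p : ℕ, p.Prime → p * p ≤ x → ¬ n ≡ w p [MOD p]} ↔
        v ∈ {w : ℕ → Fin s | ∀ N : ℕ, x ≤ N → N + U ≤ 2 * x → w ∉ EmpU c x U N} := by
      simp only [Set.mem_ofPred_eq]
      refine forall_congr' fun N => forall_congr' fun h1 => forall_congr' fun h2 => ?_
      unfold EmpU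
      simp only [Set.mem_ofPred_eq]
      push Not
      constructor
      · rintro ⟨n, hn, h⟩
        refine ⟨n, hn, fun p hp hpx => ?_⟩
        have h3 := h p hp hpx
        have hmem : p ∈ PX x := by
          unfold PX
          rw [mem_filter, mem_Icc]
          exact ⟨⟨hp.one_lt.le, Nat.le_sqrt.2 hpx⟩, hp⟩
        rwa [if_pos hmem] at h3
      · rintro ⟨n, hn, h⟩
        refine ⟨n, hn, fun p hp hpx => ?_⟩
        have h3 := h p hp hpx
        have hmem : p ∈ PX x := by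
          unfold PX
          rw [mem_filter, mem_Icc]
          exact ⟨⟨hp.one_lt.le, Nat.le_sqrt.2 hpx⟩, hp⟩
        rwa [if_pos hmem]
    rw [hf]
    by_cases h : v ∈ {w : ℕ → Fin s | ∀ N : ℕ, x ≤ N → N + U ≤ 2 * x → w ∉ EmpU c x U N}
    · rw [ind_of_mem h, ind_of_mem (hiff.2 h)]
    · rw [ind_of_not_mem h, ind_of_not_mem fun h' => h (hiff.1 h')]
  have hinner : ∀ c : ℕ → Fin s → ℕ,
      EU s (PX x) (fun v : ℕ → Fin s => f (fun p => if p ∈ PX x then c p (v p) else 0))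
        (fun _ => ⟨0, hs⟩) ≤
      ε / 2 + ind {c : ℕ → Fin s → ℕ | ¬ (2 + δ) * Real.log z ≤
        ∑ p ∈ AA κ B z 0, (dU c p : ℝ) / p} c := by
    intro c
    rw [hfeq c]
    by_cases hc : (2 + δ) * Real.log z ≤ ∑ p ∈ AA κ B z 0, (dU c p : ℝ) / p
    · have h1 := hgood c hc (fun _ => ⟨0, hs⟩)
      have h2 := ind_nonneg {c : ℕ → Fin s → ℕ | ¬ (2 + δ) * Real.log z ≤
        ∑ p ∈ AA κ B z 0, (dU c p : ℝ) / p} c
      linarith
    · rw [ind_of_mem (show c ∈ {c : ℕ → Fin s → ℕ | ¬ (2 + δ) * Real.log z ≤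
        ∑ p ∈ AA κ B z 0, (dU c p : ℝ) / p} from hc)]
      have h1 : EU s (PX x) (ind {w | ∀ N : ℕ, x ≤ N → N + U ≤ 2 * x → w ∉ EmpU c x U N})
          (fun _ => ⟨0, hs⟩) ≤ 1 :=
        EA_le_one unif_nonneg (unif_sum hs) _ (fun w => ind_le_one _ w) _
      linarith
  have hmono := EA_mono (SCAaux.pis_nonneg hI s) (PX x) hinner (fun _ _ => 0)
  refine hmono.trans ?_
  have hadd : EA (Vs s V) (pis s π) (PX x) (fun c : ℕ → Fin s → ℕ => ε / 2 +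
      ind {c : ℕ → Fin s → ℕ | ¬ (2 + δ) * Real.log z ≤
        ∑ p ∈ AA κ B z 0, (dU c p : ℝ) / p} c) =
      EA (Vs s V) (pis s π) (PX x) (fun _ => ε / 2) + EA (Vs s V) (pis s π) (PX x)
        (ind {c : ℕ → Fin s → ℕ | ¬ (2 + δ) * Real.log z ≤
        ∑ p ∈ AA κ B z 0, (dU c p : ℝ) / p}) := by
    rw [← EA_add]
    rfl
  rw [hadd, Pi.add_apply, EA_const (SCAaux.pis_sum hI s)]
  have := hz1 z (by omega) (PX x) hAPX (fun _ _ => 0)
  linarith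

end Pool.Agent.Work.MP_b0c12c_nt_univ
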